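import Pool.Agent.PP5LE.Cva
import Pool.Agent.PP5.DH

/-!
# LB5, section E, module Cvb (size 4): the number of vectors of `E_P` of size `y^(2/5)`

`nw (tx 1 1) x` is the sup norm (`tx_one`).  Notation `Y = y^(2/5)`, so `Y^5 = y^2`.
PROOF.  `A := max 1 (16 / c1)`: `|P i| ≤ 16 y ≤ A |P 0|`.  `L := {w : Fin 5 → ℤ | ∃ x, InE P x ∧ ∀ k, w k = x (wi k)}`, an `AddSubgroup` (`InE` is linear in `x`).
`PP5.red_int 5` with the weights `1` gives `C0`, `n ≤ 5`, `b : Fin n → (Fin 5 → ℤ)`; choose `xb i ∈ E_P` over `b i`.  By `cva_bd` `nw (xb i) ≤ 4 A nw (b i)`, and `xb i ≠ 0`, so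
`nw (b i) ≥ lam / (4 A) =: a0`.  The map `x ↦ w` is injective on `E_P` (`cva_bd` applied to the difference with `M = 0`), maps `S` into `L`, and `nw w ≤ B Y`.  `PP5.card_le`:
`#S ≤ ∏_{i < n} (2 C0 B Y / nw (b i) + 1)`.
Put `F := (8 A C0 B + 100) (Y / lam)`; `Y / lam ≥ 1/100`, so `F ≥ 1` and each factor is `≤ 2 C0 B Y · 4 A / lam + 100 (Y / lam) ≤ F`.
If `n ≤ 4`: the product is `≤ F^n ≤ F^4`.
If `n = 5` (`subst`): the `b i` are independent: if `∑ c i b i = 0` then `|c i| nw (b i) ≤ 0`; so `det (b i k) ≠ 0` (`Matrix.exists_vecMul_eq_zero_iff` over `ℤ`), `cva` (with `X = xb`)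
gives `(P 0)² ∣ det`, so `|det| ≥ (P 0)² ≥ c1² y²`; and `|det| ≤ 120 ∏ nw (b i)` (`Matrix.det_apply`, `|b i k| ≤ nw (b i)`, `5! = 120`).  So `∏ nw (b i) ≥ c1² Y^5 / 120`.
If all `nw (b i) ≤ Y`: each factor is `≤ (2 C0 B + 1) Y / nw (b i)`, the product is `≤ (2 C0 B + 1)^5 · 120 / c1² ≤ (2 C0 B + 1)^5 (120 / c1²) (100 Y / lam)^4`.
Otherwise the last one (`nw (b 4) > Y`, monotone) has a factor `≤ 2 C0 B + 1`, the others `≤ F`: the product is `≤ (2 C0 B + 1) F^4`.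
-/

set_option autoImplicit false

namespace Pool.Agent.PP5LE

open Pool.Agent.PP5 Pool.Agent.PP5S Matrix

private theorem Cvb_lin {P : Sp} {x y : Fin 10 → ℤ} (a b : ℤ) (hx : InE P x) (hy : InE P y) :
    InE P (fun i => a * x i + b * y i) :=
  ⟨by linear_combination a * hx.e1 + b * hy.e1,
    by linear_combination a * hx.e2 + b * hy.e2,
    by linear_combination a * hx.e3 + b * hy.e3,
    by linear_combination a * hx.e4 + b * hy.e4,
    by linear_combination a * hx.e5 + b * hy.e5,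
    by linear_combination a * hx.e6 + b * hy.e6,
    by linear_combination a * hx.e7 + b * hy.e7,
    by linear_combination a * hx.e8 + b * hy.e8,
    by linear_combination a * hx.e9 + b * hy.e9,
    by linear_combination a * hx.e10 + b * hy.e10,
    by linear_combination a * hx.e11 + b * hy.e11,
    by linear_combination a * hx.e12 + b * hy.e12,
    by linear_combination a * hx.e13 + b * hy.e13,
    by linear_combination a * hx.e14 + b * hy.e14,
    by linear_combination a * hx.e15 + b * hy.e15,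
    by linear_combination a * hx.e16 + b * hy.e16⟩

private theorem Cvb_det (M : Matrix (Fin 5) (Fin 5) ℤ) (m : Fin 5 → ℝ)
    (hm : ∀ a k, |(M a k : ℝ)| ≤ m a) : |(M.det : ℝ)| ≤ 120 * ∏ a, m a := by
  rw [Matrix.det_apply, Int.cast_sum]
  refine (Finset.abs_sum_le_sum_abs _ _).trans ?_
  have h1 : ∀ σ ∈ (Finset.univ : Finset (Equiv.Perm (Fin 5))),
      |(((Equiv.Perm.sign σ • ∏ i, M (σ i) i : ℤ)) : ℝ)| ≤ ∏ a, m a := by
    intro σ _
    have h2 : |(((Equiv.Perm.sign σ • ∏ i, M (σ i) i : ℤ)) : ℝ)| = ∏ i, |(M (σ i) i : ℝ)| := by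
      rw [← Finset.abs_prod]
      rcases Int.units_eq_one_or (Equiv.Perm.sign σ) with h | h
      · rw [h, one_smul, Int.cast_prod]
      · rw [h, Units.smul_def, Units.val_neg, Units.val_one, smul_eq_mul, neg_one_mul, Int.cast_neg,
          abs_neg, Int.cast_prod]
    rw [h2, ← Equiv.prod_comp σ m]
    exact Finset.prod_le_prod (fun i _ => abs_nonneg _) (fun i _ => hm (σ i) i)
  refine (Finset.sum_le_card_nsmul _ _ _ h1).trans ?_
  rw [Finset.card_univ, Fintype.card_perm, Fintype.card_fin, nsmul_eq_mul]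
  norm_num [Nat.factorial]

theorem cntE (c1 B : ℝ) (hc1 : 0 < c1) (hB : 0 < B) : ∃ C : ℝ, 0 ≤ C ∧
    ∀ (y lam : ℝ) (P : Sp) (S : Finset (Fin 10 → ℤ)), 1 ≤ y → 0 < lam →
    lam ≤ 100 * y ^ (2 / 5 : ℝ) → InQ y 1 1 P → c1 * y ≤ |(P 0 : ℝ)| →
    (∀ x : Fin 10 → ℤ, InE P x → x ≠ 0 → lam ≤ nw (tx 1 1) x) →
    (∀ x ∈ S, InE P x ∧ ∀ j, |(x j : ℝ)| ≤ B * y ^ (2 / 5 : ℝ)) →
    (S.card : ℝ) ≤ C * (y ^ (2 / 5 : ℝ) / lam) ^ 4 := by
  obtain ⟨C0, hC01, hred⟩ := PP5.red_int 5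
  have hC0 : 0 < C0 := by linarith
  obtain ⟨A, hA⟩ : ∃ A : ℝ, A = max 1 (16 / c1) := ⟨_, rfl⟩
  have hA1 : 1 ≤ A := by rw [hA]; exact le_max_left _ _
  have hA2 : 16 / c1 ≤ A := by rw [hA]; exact le_max_right _ _
  have hA0 : 0 < A := by linarith
  obtain ⟨F0, hF0⟩ : ∃ F0 : ℝ, F0 = 8 * A * C0 * B + 100 := ⟨_, rfl⟩
  obtain ⟨G0, hG0⟩ : ∃ G0 : ℝ, G0 = 2 * C0 * B + 1 := ⟨_, rfl⟩
  have hF0p : 100 ≤ F0 := by rw [hF0]; have : 0 < 8 * A * C0 * B := by positivity
                             linarith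
  have hG0p : 1 ≤ G0 := by rw [hG0]; have : 0 < 2 * C0 * B := by positivity
                           linarith
  refine ⟨F0 ^ 4 + G0 ^ 5 * (120 / c1 ^ 2) * 100 ^ 4 + G0 * F0 ^ 4, by positivity, ?_⟩
  intro y lam P S hy hlam hlamY hQ hP0 hE hS
  obtain ⟨Y, hY⟩ : ∃ Y : ℝ, Y = y ^ (2 / 5 : ℝ) := ⟨_, rfl⟩
  rw [← hY] at hlamY hS ⊢
  have hy0 : 0 < y := by linarith
  have hY0 : 0 < Y := by rw [hY]; positivity
  have hY5 : Y ^ 5 = y ^ 2 := by
    rw [hY, ← Real.rpow_natCast, ← Real.rpow_mul hy0.le, ← Real.rpow_natCast]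
    norm_num
  have hc1y : 0 < c1 * y := by positivity
  have hP00 : P 0 ≠ 0 := by
    intro h
    rw [h, Int.cast_zero, abs_zero] at hP0
    linarith
  have hPA : ∀ i, |(P i : ℝ)| ≤ A * |(P 0 : ℝ)| := by
    intro i
    have h1 := hQ.bx i
    rw [sg_one, mul_one] at h1
    refine h1.trans ?_
    calc 16 * y = (16 / c1) * (c1 * y) := by field_simp
      _ ≤ A * |(P 0 : ℝ)| := mul_le_mul hA2 hP0 hc1y.le hA0.le
  have hw : ∀ i : Fin 5, 0 < (fun _ : Fin 5 => (1 : ℝ)) i := fun _ => one_pos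
  -- the lattice
  let L : AddSubgroup (Fin 5 → ℤ) :=
    { carrier := {w | ∃ x, InE P x ∧ ∀ k, w k = x (wi k)}
      zero_mem' := by
        refine ⟨fun _ => 0, ?_, fun k => rfl⟩
        constructor <;> simp
      add_mem' := by
        rintro u v ⟨x, hx, hxu⟩ ⟨x', hx', hxv⟩
        refine ⟨_, Cvb_lin 1 1 hx hx', fun k => ?_⟩
        show u k + v k = 1 * x (wi k) + 1 * x' (wi k)
        rw [hxu k, hxv k]; ring
      neg_mem' := by
        rintro u ⟨x, hx, hxu⟩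
        refine ⟨_, Cvb_lin (-1) 0 hx hx, fun k => ?_⟩
        show -(u k) = (-1) * x (wi k) + 0 * x (wi k)
        rw [hxu k]; ring }
  obtain ⟨n, b, hn, hbL, hb0, hmono, hspan, hbd⟩ := hred (fun _ => (1 : ℝ)) hw L
  choose xb hxbE hxbw using hbL
  have hsm : ∀ (x : Fin 10 → ℤ) (v : Fin 5 → ℤ), InE P x → (∀ k, v k = x (wi k)) →
      ∀ j, |(x j : ℝ)| ≤ 4 * A * nw (fun _ => (1 : ℝ)) v := by
    intro x v hx hv
    refine cva_bd hP00 hx hPA (fun k => ?_) hA1
    rw [← hv k]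
    have h := le_nw hw v k
    rwa [mul_one] at h
  have hbpos : ∀ i, 0 < nw (fun _ => (1 : ℝ)) (b i) := fun i => nw_pos hw (hb0 i)
  have hblow : ∀ i, lam ≤ 4 * A * nw (fun _ => (1 : ℝ)) (b i) := by
    intro i
    have hx0 : xb i ≠ 0 := by
      intro h
      apply hb0 i
      funext k
      rw [hxbw i k, h]; rfl
    refine (hE (xb i) (hxbE i) hx0).trans ?_
    rw [nw_le_iff (fun j => by rw [tx_one]; exact one_pos) (by have := hbpos i; positivity)]
    intro j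
    rw [tx_one, mul_one]
    exact hsm (xb i) (b i) (hxbE i) (hxbw i) j
  -- the count
  have hcount : (S.card : ℝ) ≤ ∏ i, (2 * (C0 * (B * Y) / nw (fun _ => (1 : ℝ)) (b i)) + 1) := by
    have hinj : Set.InjOn (fun (x : Fin 10 → ℤ) (k : Fin 5) => x (wi k)) (S : Set (Fin 10 → ℤ)) := by
      intro x hx x' hx' h
      have h1 := (hS x hx).1
      have h2 := (hS x' hx').1
      have h3 := cva_bd hP00 (Cvb_lin 1 (-1) h1 h2) hPA (M := 0) (fun k => by
        have h4 : x (wi k) = x' (wi k) := congrFun h k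
        show |(((1 : ℤ) * x (wi k) + (-1) * x' (wi k) : ℤ) : ℝ)| ≤ 0
        rw [h4]; simp) hA1
      funext j
      have h5 := h3 j
      rw [mul_zero] at h5
      have h6 := abs_eq_zero.mp (le_antisymm h5 (abs_nonneg _))
      have h7 : (1 : ℤ) * x j + (-1) * x' j = 0 := by exact_mod_cast h6
      linarith
    rw [← Finset.card_image_of_injOn hinj]
    refine PP5.card_le hw b hb0 hC0.le hbd (by positivity) _ ?_ ?_
    · intro v hv
      rw [Finset.mem_image] at hv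
      obtain ⟨x, hx, rfl⟩ := hv
      exact hspan _ ⟨x, (hS x hx).1, fun k => rfl⟩
    · intro v hv
      rw [Finset.mem_image] at hv
      obtain ⟨x, hx, rfl⟩ := hv
      rw [nw_le_iff hw (by positivity)]
      intro k
      rw [mul_one]
      exact (hS x hx).2 (wi k)
  refine hcount.trans ?_
  obtain ⟨u, hu⟩ : ∃ u : ℝ, u = Y / lam := ⟨_, rfl⟩
  rw [← hu]
  have hu1 : 1 ≤ 100 * u := by
    rw [hu, ← mul_div_assoc, le_div_iff₀ hlam]; linarith
  have hu0 : 0 < u := by linarith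
  have hFp : 1 ≤ F0 * u := by nlinarith
  have hfac : ∀ i, 2 * (C0 * (B * Y) / nw (fun _ => (1 : ℝ)) (b i)) + 1 ≤ F0 * u := by
    intro i
    have h1 : C0 * (B * Y) / nw (fun _ => (1 : ℝ)) (b i) ≤ 4 * A * C0 * B * u := by
      rw [div_le_iff₀ (hbpos i), hu]
      have h2 : 4 * A * C0 * B * (Y / lam) * nw (fun _ => (1 : ℝ)) (b i) =
          C0 * (B * Y) * ((4 * A * nw (fun _ => (1 : ℝ)) (b i)) / lam) := by ring
      rw [h2]
      refine le_mul_of_one_le_right (by positivity) ?_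
      rw [le_div_iff₀ hlam, one_mul]
      exact hblow i
    rw [hF0]
    linarith
  have hfac0 : ∀ i, 0 ≤ 2 * (C0 * (B * Y) / nw (fun _ => (1 : ℝ)) (b i)) + 1 := by
    intro i
    have := hbpos i
    positivity
  have hT1 : 0 ≤ F0 ^ 4 * u ^ 4 := by positivity
  have hT2 : 0 ≤ G0 ^ 5 * (120 / c1 ^ 2) * 100 ^ 4 * u ^ 4 := by positivity
  have hT3 : 0 ≤ G0 * F0 ^ 4 * u ^ 4 := by positivity
  have hexp : (F0 ^ 4 + G0 ^ 5 * (120 / c1 ^ 2) * 100 ^ 4 + G0 * F0 ^ 4) * u ^ 4 =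
      F0 ^ 4 * u ^ 4 + G0 ^ 5 * (120 / c1 ^ 2) * 100 ^ 4 * u ^ 4 + G0 * F0 ^ 4 * u ^ 4 := by ring
  rw [hexp]
  rcases Nat.lt_or_ge n 5 with hn4 | hn5
  · have h1 : ∏ i, (2 * (C0 * (B * Y) / nw (fun _ => (1 : ℝ)) (b i)) + 1) ≤ (F0 * u) ^ n := by
      calc ∏ i, (2 * (C0 * (B * Y) / nw (fun _ => (1 : ℝ)) (b i)) + 1)
          ≤ ∏ _i : Fin n, (F0 * u) := Finset.prod_le_prod (fun i _ => hfac0 i) (fun i _ => hfac i)
        _ = (F0 * u) ^ n := by rw [Finset.prod_const, Finset.card_univ, Fintype.card_fin]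
    have h2 : (F0 * u) ^ n ≤ (F0 * u) ^ 4 := pow_le_pow_right₀ hFp (by omega)
    have h3 : (F0 * u) ^ 4 = F0 ^ 4 * u ^ 4 := by ring
    linarith
  · have hn5' : n = 5 := le_antisymm hn hn5
    subst hn5'
    -- the determinant
    have hdet0 : (Matrix.of fun a k : Fin 5 => xb a (wi k)).det ≠ 0 := by
      intro h
      obtain ⟨c, hc0, hc⟩ := Matrix.exists_vecMul_eq_zero_iff.mpr h
      apply hc0
      have h1 : ∑ i, c i • b i = 0 := by
        funext k
        have h2 := congrFun hc k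
        rw [Finset.sum_apply]
        simp only [Matrix.vecMul, dotProduct, Matrix.of_apply, Pi.zero_apply] at h2
        simp only [Pi.smul_apply, smul_eq_mul, Pi.zero_apply]
        rw [← h2]
        exact Finset.sum_congr rfl (fun i _ => by rw [hxbw i k])
      funext i
      have h3 := hbd c i
      rw [h1] at h3
      have h4 : nw (fun _ => (1 : ℝ)) (0 : Fin 5 → ℤ) = 0 := by
        refine le_antisymm ?_ (nw_nonneg _ _)
        rw [nw_le_iff hw (le_refl _)]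
        intro i; simp
      rw [h4, mul_zero] at h3
      have h5 := hbpos i
      have h6 : |(c i : ℝ)| = 0 := by
        refine le_antisymm ?_ (abs_nonneg _)
        by_contra h7
        push Not at h7
        have := mul_pos h7 h5
        linarith
      exact_mod_cast abs_eq_zero.mp h6
    have hdvd := cva hQ.qd hP00 hQ.pr xb hxbE
    have hlow : c1 ^ 2 * Y ^ 5 ≤ |((Matrix.of fun a k : Fin 5 => xb a (wi k)).det : ℝ)| := by
      have h1 : (P 0) ^ 2 ≤ |(Matrix.of fun a k : Fin 5 => xb a (wi k)).det| :=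
        Int.le_of_dvd (abs_pos.mpr hdet0) ((dvd_abs _ _).mpr hdvd)
      have h2 : ((P 0 : ℝ)) ^ 2 ≤ |((Matrix.of fun a k : Fin 5 => xb a (wi k)).det : ℝ)| := by
        exact_mod_cast h1
      refine le_trans ?_ h2
      rw [hY5, ← sq_abs (P 0 : ℝ), ← mul_pow]
      exact pow_le_pow_left₀ hc1y.le hP0 2
    have hup := Cvb_det (Matrix.of fun a k : Fin 5 => xb a (wi k))
      (fun a => nw (fun _ => (1 : ℝ)) (b a)) (fun a k => by
        rw [Matrix.of_apply, ← hxbw a k]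
        have h := le_nw hw (b a) k
        rwa [mul_one] at h)
    have hprod : c1 ^ 2 * Y ^ 5 ≤ 120 * ∏ a, nw (fun _ => (1 : ℝ)) (b a) := hlow.trans hup
    by_cases hall : ∀ i, nw (fun _ => (1 : ℝ)) (b i) ≤ Y
    · have h1 : ∏ i, (2 * (C0 * (B * Y) / nw (fun _ => (1 : ℝ)) (b i)) + 1) ≤
          ∏ i, (G0 * Y / nw (fun _ => (1 : ℝ)) (b i)) := by
        refine Finset.prod_le_prod (fun i _ => hfac0 i) (fun i _ => ?_)
        rw [le_div_iff₀ (hbpos i), add_mul, hG0]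
        have h2 : 2 * (C0 * (B * Y) / nw (fun _ => (1 : ℝ)) (b i)) * nw (fun _ => (1 : ℝ)) (b i) =
            2 * (C0 * (B * Y)) := by
          have := (hbpos i).ne'
          field_simp
        rw [h2]
        have := hall i
        linarith
      have hPpos : 0 < ∏ a, nw (fun _ => (1 : ℝ)) (b a) := Finset.prod_pos (fun i _ => hbpos i)
      have h3 : ∏ i, (G0 * Y / nw (fun _ => (1 : ℝ)) (b i)) =
          (G0 * Y) ^ 5 / ∏ a, nw (fun _ => (1 : ℝ)) (b a) := by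
        rw [Finset.prod_div_distrib, Finset.prod_const, Finset.card_univ, Fintype.card_fin]
      have h4 : (G0 * Y) ^ 5 / ∏ a, nw (fun _ => (1 : ℝ)) (b a) ≤ G0 ^ 5 * (120 / c1 ^ 2) := by
        rw [div_le_iff₀ hPpos, mul_pow]
        have h5 : Y ^ 5 ≤ 120 / c1 ^ 2 * ∏ a, nw (fun _ => (1 : ℝ)) (b a) := by
          rw [div_mul_eq_mul_div, le_div_iff₀ (by positivity)]
          linarith
        calc G0 ^ 5 * Y ^ 5 ≤ G0 ^ 5 * (120 / c1 ^ 2 * ∏ a, nw (fun _ => (1 : ℝ)) (b a)) :=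
              mul_le_mul_of_nonneg_left h5 (by positivity)
          _ = G0 ^ 5 * (120 / c1 ^ 2) * ∏ a, nw (fun _ => (1 : ℝ)) (b a) := by ring
      have h6 : (1 : ℝ) ≤ (100 * u) ^ 4 := one_le_pow₀ hu1
      have h7 : G0 ^ 5 * (120 / c1 ^ 2) ≤ G0 ^ 5 * (120 / c1 ^ 2) * 100 ^ 4 * u ^ 4 := by
        calc G0 ^ 5 * (120 / c1 ^ 2) ≤ G0 ^ 5 * (120 / c1 ^ 2) * (100 * u) ^ 4 :=
              le_mul_of_one_le_right (by positivity) h6
          _ = G0 ^ 5 * (120 / c1 ^ 2) * 100 ^ 4 * u ^ 4 := by ring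
      rw [h3] at h1
      linarith
    · push Not at hall
      obtain ⟨i0, hi0⟩ := hall
      have h4 : Y < nw (fun _ => (1 : ℝ)) (b (Fin.last 4)) :=
        lt_of_lt_of_le hi0 (hmono i0 (Fin.last 4) (Fin.le_last i0))
      have h5 : 2 * (C0 * (B * Y) / nw (fun _ => (1 : ℝ)) (b (Fin.last 4))) + 1 ≤ G0 := by
        have h6 : C0 * (B * Y) / nw (fun _ => (1 : ℝ)) (b (Fin.last 4)) ≤ C0 * B := by
          rw [div_le_iff₀ (hbpos _)]
          have : 0 < C0 * B := by positivity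
          calc C0 * (B * Y) = C0 * B * Y := by ring
            _ ≤ C0 * B * nw (fun _ => (1 : ℝ)) (b (Fin.last 4)) := mul_le_mul_of_nonneg_left h4.le this.le
        rw [hG0]; linarith
      have h7 : ∏ i : Fin 4, (2 * (C0 * (B * Y) / nw (fun _ => (1 : ℝ)) (b i.castSucc)) + 1) ≤
          (F0 * u) ^ 4 := by
        calc ∏ i : Fin 4, (2 * (C0 * (B * Y) / nw (fun _ => (1 : ℝ)) (b i.castSucc)) + 1)
            ≤ ∏ _i : Fin 4, (F0 * u) :=
              Finset.prod_le_prod (fun i _ => hfac0 _) (fun i _ => hfac _)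
          _ = (F0 * u) ^ 4 := by rw [Finset.prod_const, Finset.card_univ, Fintype.card_fin]
      rw [Fin.prod_univ_castSucc]
      have h8 : (∏ i : Fin 4, (2 * (C0 * (B * Y) / nw (fun _ => (1 : ℝ)) (b i.castSucc)) + 1)) *
          (2 * (C0 * (B * Y) / nw (fun _ => (1 : ℝ)) (b (Fin.last 4))) + 1) ≤ (F0 * u) ^ 4 * G0 :=
        mul_le_mul h7 h5 (hfac0 _) (by positivity)
      have h9 : (F0 * u) ^ 4 * G0 = G0 * F0 ^ 4 * u ^ 4 := by ring
      linarith

end Pool.Agent.PP5LE
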