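import Pool.Agent.PP5LE.Defs
import Pool.Agent.PP5S.Xdx
import Pool.Agent.PP5P.Ksg
import Pool.Agent.PP5G.LnF

/-!
# LB5, section E, module Hsp: the points whose shortest vector `x` is short, `D(x) ≠ 0`
(point form of `PP5P.hes`)
-/

set_option autoImplicit false

namespace Pool.Agent.PP5LE

open Matrix Finset Pool.Agent.PP5B Pool.Agent.PP5S

/-- `t1 t2 ≤ y ^ d0` -/
theorem hsp_t (d ε : ℝ) (hd : 0 < d) (hε : 0 < ε) : ∃ d0 y0 C : ℝ, 0 < d0 ∧ 1 ≤ y0 ∧ 0 ≤ C ∧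
    ∀ y t1 t2 T : ℝ, y0 ≤ y → 1 ≤ t1 → 1 ≤ t2 → t1 * t2 ≤ y ^ d0 → 1 ≤ T → T ≤ y ^ (2 / 5 - d) →
    ∀ (S : Finset PP5.Sp) (xf : PP5.Sp → Fin 10 → ℤ),
    (∀ P ∈ S, InQ y t1 t2 P ∧ Shx t1 t2 P (xf P) ∧ Xok (xf P) ∧
      PP5.nw (PP5.tx t1 t2) (xf P) ≤ T) →
    (S.card : ℝ) ≤ C * (y ^ (4 + ε) * (T / y ^ (2 / 5 : ℝ)) ^ (9 / 2 : ℝ)) := by
  classical
  obtain ⟨Cx, hCx, hXDx⟩ := XDx_exists
  obtain ⟨c1, d2, y2, K2, hc1, hd2, hy2, hK2, HEc⟩ := PP5P.hes Cx hCx d ε hd hε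
  obtain ⟨aN, CN, haN, hCN, HN⟩ := PP5G.hln Cx
  set d5 : ℝ := c1 / (2 * (aN + 1)) with hd5
  have hd5p : 0 < d5 := by positivity
  set y5 : ℝ := CN ^ (2 / c1) with hy5
  have hy5one : 1 ≤ y5 := Real.one_le_rpow hCN (by positivity)
  refine ⟨min d2 d5, max y2 y5, K2, lt_min hd2 hd5p, hy2.trans (le_max_left _ _), hK2, ?_⟩
  intro y t1 t2 T hy h1 h2 ht hT1 hT2 S xf hS
  have hyb : y2 ≤ y := (le_max_left _ _).trans hy
  have hyd : y5 ≤ y := (le_max_right _ _).trans hy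
  have hyone : 1 ≤ y := hy2.trans hyb
  have hy0 : 0 < y := by linarith
  have h10 : 0 < t1 := by linarith
  have h20 : 0 < t2 := by linarith
  have htd2 : t1 * t2 ≤ y ^ d2 :=
    ht.trans (Real.rpow_le_rpow_of_exponent_le hyone (min_le_left _ _))
  have htd5 : t1 * t2 ≤ y ^ d5 :=
    ht.trans (Real.rpow_le_rpow_of_exponent_le hyone (min_le_right _ _))
  have hCNy : CN * (t1 * t2) ^ aN ≤ y ^ c1 := by
    have q1 : CN ≤ y ^ (c1 / 2) := by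
      have q2 : CN = y5 ^ (c1 / 2) := by
        rw [hy5, ← Real.rpow_mul (by linarith)]
        have : 2 / c1 * (c1 / 2) = 1 := by field_simp
        rw [this, Real.rpow_one]
      rw [q2]
      exact Real.rpow_le_rpow (by linarith) hyd (by positivity)
    have q3 : (t1 * t2) ^ aN ≤ y ^ (c1 / 2) := by
      calc (t1 * t2) ^ aN ≤ (y ^ d5) ^ aN :=
            Real.rpow_le_rpow (by positivity) htd5 haN
        _ = y ^ (d5 * aN) := by rw [← Real.rpow_mul hy0.le]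
        _ ≤ y ^ (c1 / 2) := by
            apply Real.rpow_le_rpow_of_exponent_le hyone
            rw [hd5, div_mul_eq_mul_div, div_le_div_iff₀ (by positivity) (by norm_num)]
            nlinarith
    calc CN * (t1 * t2) ^ aN ≤ y ^ (c1 / 2) * y ^ (c1 / 2) :=
          mul_le_mul q1 q3 (by positivity) (by positivity)
      _ = y ^ c1 := by rw [← Real.rpow_add hy0]; congr 1; ring
  -- the data
  have hex : ∀ x : Fin 10 → ℤ, ∃ (T : ℝ) (b : Fin 4 → PP5.Sp) (G : Matrix (Fin 4) (Fin 4) ℤ)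
      (l : Fin 4 → ℝ) (k : ℕ), Xok x → XD Cx t1 t2 T x b G l k := by
    intro x
    by_cases hx : Xok x
    · obtain ⟨T, b, G, l, k, h⟩ := hXDx t1 t2 h1 h2 x hx
      exact ⟨T, b, G, l, k, fun _ => h⟩
    · exact ⟨0, fun _ => 0, 0, 0, 0, fun h => absurd h hx⟩
  choose Tf bf Gf lf kf hf using hex
  have hok : ∀ P ∈ S, Xok (xf P) := fun P hP => (hS P hP).2.2.1
  have hwx : ∀ j, 0 < PP5.tx t1 t2 j := fun j => PP5.tx_pos h10 h20 j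
  have hex2 : ∀ P : PP5.Sp, ∃ n : Fin 4 → ℤ, P ∈ S →
      (∀ a, P a = ∑ i, n i * bf (xf P) i a) ∧
      (∀ i, |(n i : ℝ)| * lf (xf P) i ≤ 16 * Cx * y) ∧
      Pr4 n ∧ n ⬝ᵥ (Gf (xf P) *ᵥ n) = 0 := by
    intro P
    by_cases hP : P ∈ S
    · have hIn := (hS P hP).1
      have hX := hf (xf P) (hok P hP)
      obtain ⟨n, n1, n2⟩ := hX.span P (16 * y) (hS P hP).2.1.ie hIn.bx
      refine ⟨n, fun _ => ⟨n1, ?_, pr4_of hIn.pr n1, ?_⟩⟩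
      · intro i
        refine (n2 i).trans (le_of_eq ?_)
        ring
      · apply hX.quad
        have e : (fun a => ∑ i, n i * bf (xf P) i a) = P := (funext n1).symm
        rw [e]; exact hIn.qd
    · exact ⟨0, fun h => absurd h hP⟩
  choose nf hn using hex2
  rw [card_fib (S := S) (xf := xf) (nf := nf) (bf := bf) (fun P hP => (hn P hP).1)]
  refine HEc y t1 t2 T hyb h1 h2 htd2 hT1 hT2 Tf bf Gf lf kf (S.image xf)
    (fun x => (S.filter (fun P => xf P = x)).image nf) ?_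
  intro x hx
  obtain ⟨P0, hP0, hxP0⟩ := Finset.mem_image.1 hx
  have hX := hf (xf P0) (hok P0 hP0)
  have hXok := hok P0 hP0
  have hT := hX.T_le h10 h20 ((PP5.nw_le_iff hwx (by linarith)).1 (hS P0 hP0).2.2.2)
  rw [hxP0] at hX hT hXok
  refine ⟨hXok, hX, hT, ?_⟩
  intro v hv
  obtain ⟨P, hP, rfl⟩ := Finset.mem_image.1 hv
  obtain ⟨hPS, hPx⟩ := Finset.mem_filter.1 hP
  obtain ⟨n1, n2, n3, n4⟩ := hn P hPS
  have hsh := (hS P hPS).2.1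
  rw [hPx] at n1 n2 n4 hsh
  refine ⟨⟨n3, n4, n2⟩, ?_⟩
  intro w w1 w2 w3
  obtain ⟨i, j, hij⟩ := HN t1 t2 (Tf x) x (bf x) (Gf x) (lf x) P (nf P) w h1 h2 hX.xe
    (hS P hPS).1.qd n1 hsh n4 w1 w2 w3
  refine ⟨i, j, hij.trans ?_⟩
  have hli := (hX.lp i).le
  have hlj := (hX.lp j).le
  gcongr

/-- the case `t1 = t2 = 1` -/
theorem hsp (d ε : ℝ) (hd : 0 < d) (hε : 0 < ε) : ∃ y0 C : ℝ, 1 ≤ y0 ∧ 0 ≤ C ∧
    ∀ y T : ℝ, y0 ≤ y → 1 ≤ T → T ≤ y ^ (2 / 5 - d) →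
    ∀ (S : Finset PP5.Sp) (xf : PP5.Sp → Fin 10 → ℤ),
    (∀ P ∈ S, InQ y 1 1 P ∧ Shx 1 1 P (xf P) ∧ Xok (xf P) ∧ PP5.nw (PP5.tx 1 1) (xf P) ≤ T) →
    (S.card : ℝ) ≤ C * (y ^ (4 + ε) * (T / y ^ (2 / 5 : ℝ)) ^ (9 / 2 : ℝ)) := by
  obtain ⟨d0, y0, C, hd0, hy0, hC, h⟩ := hsp_t d ε hd hε
  refine ⟨y0, C, hy0, hC, fun y T hy hT1 hT2 S xf hS => ?_⟩
  exact h y 1 1 T hy le_rfl le_rfl (by
    rw [mul_one]; exact Real.one_le_rpow (hy0.trans hy) hd0.le) hT1 hT2 S xf hS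

end Pool.Agent.PP5LE
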