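import Pool.Agent.PP5LE.Spb

/-!
# LB5, section E, module Spd (size 3): the vectors `l` with `b(x, ql l) = 0`

PROOF of `spd_orth`.  `InE P` is additive in `x` (each of the 16 equations is linear: `InE P (x + x')` by `constructor`, `simp`, `linear_combination`), so
`FF (x + x') = 0` by `PP5S.FF_of_InE`, and `FF (x + x') = FF x + FF x' + bF x x'` (`simp [FF, bF]; ring`).  For `x' = ± ql l` : `bF x (ql l) = 0`.

PROOF of `spd_card`.  `bF x (ql l) = x 0 * (l 0)² + (linear in l 0) `: for fixed `l 1, l 2, l 3` it is a quadratic polynomial in `l 0` with leading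
coefficient `x 0 ≠ 0`, so there are at most two `l 0`.  The map `l ↦ (l 1, l 2, l 3)` (`Fin.tail`) from `S` to the box `[-⌊L⌋, ⌊L⌋]³` has
fibres of size `≤ 2` (three different roots `a, b, c` of `X t² + Y t + Z`: subtract, `X (a + b) + Y = 0 = X (a + c) + Y`, so `b = c`), and
`#S ≤ 2 (2 ⌊L⌋ + 1)³` by `Finset.card_le_mul_card_image`.
-/

set_option autoImplicit false

namespace Pool.Agent.PP5LE

open Pool.Agent.PP5

theorem spd_orth {P : Sp} (hP : P ≠ 0) {x x' : Fin 10 → ℤ} (h : InE P x) (h' : InE P x') :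
    PP5L.bF x x' = 0 := by
  have hs : InE P (x + x') := by
    obtain ⟨a1, a2, a3, a4, a5, a6, a7, a8, a9, a10, a11, a12, a13, a14, a15, a16⟩ := h
    obtain ⟨b1, b2, b3, b4, b5, b6, b7, b8, b9, b10, b11, b12, b13, b14, b15, b16⟩ := h'
    constructor <;> simp only [Pi.add_apply]
    · linear_combination a1 + b1
    · linear_combination a2 + b2
    · linear_combination a3 + b3
    · linear_combination a4 + b4
    · linear_combination a5 + b5
    · linear_combination a6 + b6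
    · linear_combination a7 + b7
    · linear_combination a8 + b8
    · linear_combination a9 + b9
    · linear_combination a10 + b10
    · linear_combination a11 + b11
    · linear_combination a12 + b12
    · linear_combination a13 + b13
    · linear_combination a14 + b14
    · linear_combination a15 + b15
    · linear_combination a16 + b16
  have e1 := PP5S.FF_of_InE hP h
  have e2 := PP5S.FF_of_InE hP h'
  have e3 := PP5S.FF_of_InE hP hs
  have e4 : PP5L.FF (x + x') = PP5L.FF x + PP5L.FF x' + PP5L.bF x x' := by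
    simp only [PP5L.FF, PP5L.bF, Pi.add_apply]
    ring
  rw [e3, e1, e2] at e4
  linarith

private theorem Spd_two {X Y Z a b c : ℤ} (hX : X ≠ 0) (ha : X * a ^ 2 + Y * a + Z = 0)
    (hb : X * b ^ 2 + Y * b + Z = 0) (hc : X * c ^ 2 + Y * c + Z = 0) (hab : a ≠ b) (hac : a ≠ c) :
    b = c := by
  have h1 : (a - b) * (X * (a + b) + Y) = 0 := by linear_combination ha - hb
  have h2 : (a - c) * (X * (a + c) + Y) = 0 := by linear_combination ha - hc
  have h3 := (mul_eq_zero.1 h1).resolve_left (sub_ne_zero.2 hab)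
  have h4 := (mul_eq_zero.1 h2).resolve_left (sub_ne_zero.2 hac)
  have h5 : X * (b - c) = 0 := by linear_combination h3 - h4
  exact sub_eq_zero.1 ((mul_eq_zero.1 h5).resolve_left hX)

theorem spd_card {x : Fin 10 → ℤ} (hx : x 0 ≠ 0) {L : ℝ} (hL : 0 ≤ L) (S : Finset (Fin 4 → ℤ))
    (hS : ∀ l ∈ S, PP5L.bF x (ql l) = 0 ∧ ∀ i, |(l i : ℝ)| ≤ L) :
    (S.card : ℝ) ≤ 2 * (2 * L + 1) ^ 3 := by
  classical
  set B : Finset (Fin 3 → ℤ) := Fintype.piFinset fun _ => Finset.Icc (-⌊L⌋) ⌊L⌋ with hB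
  have hquad : ∀ t : Fin 3 → ℤ, ∃ Y Z : ℤ, ∀ a : ℤ,
      PP5L.bF x (ql (Fin.cons a t)) = x 0 * a ^ 2 + Y * a + Z := by
    intro t
    refine ⟨-(x 4) * t 0 - x 5 * t 0 + x 6 * t 1 - x 8 * t 2,
      x 2 * t 0 ^ 2 - x 1 * t 1 ^ 2 - x 3 * t 2 ^ 2 + x 4 * (t 1 * t 2) - x 5 * (t 1 * t 2)
        + x 9 * (t 0 * t 2) - x 7 * (t 0 * t 1), fun a => ?_⟩
    have c0 : (Fin.cons a t : Fin 4 → ℤ) 0 = a := rfl
    have c1 : (Fin.cons a t : Fin 4 → ℤ) 1 = t 0 := rfl
    have c2 : (Fin.cons a t : Fin 4 → ℤ) 2 = t 1 := rfl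
    have c3 : (Fin.cons a t : Fin 4 → ℤ) 3 = t 2 := rfl
    have q0 : ql (Fin.cons a t) 0 = t 0 * t 0 := by show (Fin.cons a t : Fin 4 → ℤ) 1 * (Fin.cons a t : Fin 4 → ℤ) 1 = _; rw [c1]
    have q1 : ql (Fin.cons a t) 1 = t 2 * t 2 := by show (Fin.cons a t : Fin 4 → ℤ) 3 * (Fin.cons a t : Fin 4 → ℤ) 3 = _; rw [c3]
    have q2 : ql (Fin.cons a t) 2 = a * a := rfl
    have q3 : ql (Fin.cons a t) 3 = t 1 * t 1 := rfl
    have q4 : ql (Fin.cons a t) 4 = a * t 0 + t 1 * t 2 := rfl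
    have q5 : ql (Fin.cons a t) 5 = a * t 0 - t 1 * t 2 := rfl
    have q6 : ql (Fin.cons a t) 6 = -(t 0 * t 2) := rfl
    have q7 : ql (Fin.cons a t) 7 = -(a * t 2) := rfl
    have q8 : ql (Fin.cons a t) 8 = -(t 0 * t 1) := rfl
    have q9 : ql (Fin.cons a t) 9 = -(a * t 1) := rfl
    unfold PP5L.bF
    rw [q0, q1, q2, q3, q4, q5, q6, q7, q8, q9]
    ring
  have himg : S.image Fin.tail ⊆ B := by
    intro t ht
    obtain ⟨l, hl, rfl⟩ := Finset.mem_image.1 ht
    rw [hB, Fintype.mem_piFinset]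
    intro i
    have h1 := (hS l hl).2 i.succ
    rw [abs_le] at h1
    rw [Finset.mem_Icc]
    constructor
    · have h2 : ((-l i.succ : ℤ) : ℝ) ≤ L := by push_cast; linarith [h1.1]
      have h3 := Int.le_floor.2 h2
      show -⌊L⌋ ≤ l i.succ
      linarith
    · exact Int.le_floor.2 h1.2
  have hfib : ∀ t ∈ S.image Fin.tail, (S.filter fun l => Fin.tail l = t).card ≤ 2 := by
    intro t _
    obtain ⟨Y, Z, hYZ⟩ := hquad t
    by_contra hc
    push Not at hc
    obtain ⟨a, b, c, ha, hb, hc', hab, hac, hbc⟩ := Finset.two_lt_card_iff.1 hc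
    have key : ∀ l, l ∈ S.filter (fun l => Fin.tail l = t) →
        x 0 * (l 0) ^ 2 + Y * (l 0) + Z = 0 ∧ l = Fin.cons (l 0) t := by
      intro l hl
      obtain ⟨h1, h2⟩ := Finset.mem_filter.1 hl
      have h3 : l = Fin.cons (l 0) t := by rw [← h2]; exact (Fin.cons_self_tail l).symm
      refine ⟨?_, h3⟩
      rw [← hYZ, ← h3]
      exact (hS l h1).1
    obtain ⟨ka, ka'⟩ := key a ha
    obtain ⟨kb, kb'⟩ := key b hb
    obtain ⟨kc, kc'⟩ := key c hc'
    have n1 : a 0 ≠ b 0 := fun h => hab (by rw [ka', kb', h])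
    have n2 : a 0 ≠ c 0 := fun h => hac (by rw [ka', kc', h])
    have := Spd_two hx ka kb kc n1 n2
    exact hbc (by rw [kb', kc', this])
  have hcard : S.card ≤ 2 * (S.image Fin.tail).card :=
    Finset.card_le_mul_card_image S 2 hfib
  have hBc : (B.card : ℝ) ≤ (2 * L + 1) ^ 3 := by
    rw [hB, Fintype.card_piFinset]
    simp only [Finset.prod_const, Finset.card_univ, Fintype.card_fin, Int.card_Icc]
    push_cast
    have hfl : 0 ≤ ⌊L⌋ := Int.floor_nonneg.2 hL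
    have h1 : (((⌊L⌋ + 1 - -⌊L⌋).toNat : ℕ) : ℝ) = 2 * (⌊L⌋ : ℝ) + 1 := by
      have h2 : (((⌊L⌋ + 1 - -⌊L⌋).toNat : ℕ) : ℤ) = ⌊L⌋ + 1 - -⌊L⌋ := Int.toNat_of_nonneg (by linarith)
      have h3 : (((⌊L⌋ + 1 - -⌊L⌋).toNat : ℕ) : ℝ) = ((⌊L⌋ + 1 - -⌊L⌋ : ℤ) : ℝ) := by
        exact_mod_cast h2
      rw [h3]; push_cast; ring
    rw [h1]
    have h4 : (⌊L⌋ : ℝ) ≤ L := Int.floor_le L
    have h5 : (0 : ℝ) ≤ ⌊L⌋ := by exact_mod_cast hfl
    exact pow_le_pow_left₀ (by linarith) (by linarith) 3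
  have h1 : (S.card : ℝ) ≤ 2 * ((S.image Fin.tail).card : ℝ) := by exact_mod_cast hcard
  have h2 : ((S.image Fin.tail).card : ℝ) ≤ B.card := by exact_mod_cast Finset.card_le_card himg
  linarith

end Pool.Agent.PP5LE
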