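import Pool.Agent.PP5LE.Defs
import Pool.Agent.PP5Q.Vx

/-!
# LB5, section E, module Spe (size 4): `x` and `x'` determine `P`

PROOF of `spe`.  `x` has a partner `z` (`PP5L.exists_partner`), `bF x z = 1`, `x'` has a partner `z'`.  `emb P, emb P' ∈ Lx x` and `∈ Lx x'` (`PP5.emb_mem`),
so (`PP5L.Bd_Kx`) `Bd (emb P) (emb P') j = g x j = g' x' j` for all `j` (`g = bx z (emb P) (emb P')`).  If `g ≠ 0` then
`g (x i x' j - x j x' i) = 0` (`g x i x' j = g' x' i x' j = g x j x' i`), against `hne`; so `g = 0`, `Bd (emb P) (emb P') = 0`.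
Let `B` be a basis of `Lx x` (`Lx_summary`: `(SS x).det ≠ 0` because `0` is a square) with Gram matrix `G`
(`∀ i k j, Bd (B i) (B k) j = G i k * x j`), `G.det * (SS x).det = m ^ 2`, `G i k = G k i`.
Write `emb P = ∑ v i B i`, `emb P' = ∑ w i B i` (`B.repr`).  By bilinearity `Bd (emb P) (emb P') j = (v ⬝ᵥ G *ᵥ w) x j`, so `v G w = 0`
(some `x j ≠ 0`); `Bd (emb P) (emb P) j = 2 Qd (emb P) j = 0` (`PP5L.Bd_self`, `PP5.Qd_iff`), so `v G v = 0`, `w G w = 0`.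
(Bilinearity: `PP5S.Bd_add_l, Bd_add_r, Bd_smul_l, Bd_smul_r`; expand the sums over `Fin 4` as in `PP5S.XE.pol'` in PP5S/Xe.lean.)
If some `v i w j - v j w i ≠ 0`, then `G.det` is a square (`PP5Q.iso_square`), so `(SS x).det` is a square
(`G.det = k²`, `G.det ≠ 0` as `m ≠ 0`, `k² (SS x).det = m²`, `k ∣ m` by `Int.pow_dvd_pow_iff`): contradiction.
So `v i w j = v j w i` for all `i, j`, hence `emb P a * emb P' b = emb P b * emb P' a`, and `P i = emb P (ix i)` (`emb_ix`).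

PROOF of `spe_pm`.  Two proportional primitive vectors are equal up to sign: choose `a` with `P a ≠ 0`; `P a P' j = P j P' a`.
Every prime power ... (or: `P' a ∣ P a P' j` for all `j`, `P'` primitive so `P' a ∣ P a`; symmetric; so `P' a = ± P a` and `P' = ± P`).
-/

set_option autoImplicit false

namespace Pool.Agent.PP5LE

open Pool.Agent.PP5

private theorem spe_nz {x : Fin 10 → ℤ} (hp : ∀ p : ℕ, p.Prime → ∃ j, ¬ (p : ℤ) ∣ x j) :
    ∃ j, x j ≠ 0 := by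
  obtain ⟨j, hj⟩ := hp 2 Nat.prime_two
  exact ⟨j, fun h => hj (by rw [h]; exact dvd_zero _)⟩

theorem spe {x x' : Fin 10 → ℤ} (hF : PP5L.FF x = 0) (hF' : PP5L.FF x' = 0)
    (hp : ∀ p : ℕ, p.Prime → ∃ j, ¬ (p : ℤ) ∣ x j) (hp' : ∀ p : ℕ, p.Prime → ∃ j, ¬ (p : ℤ) ∣ x' j)
    (hsq : ¬ IsSquare (PP5L.SS x).det) (hne : ∃ i j, x i * x' j ≠ x j * x' i)
    {P P' : Sp} (hq : Qd P) (hq' : Qd P') (h1 : InE P x) (h2 : InE P x') (h3 : InE P' x)
    (h4 : InE P' x') : ∀ i j, P i * P' j = P j * P' i := by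
  obtain ⟨z, hz⟩ := PP5L.exists_partner hp
  obtain ⟨z', hz'⟩ := PP5L.exists_partner hp'
  have m1 := PP5L.Lx_le_Kx x (emb_mem.2 h1)
  have m2 := PP5L.Lx_le_Kx x' (emb_mem.2 h2)
  have m3 := PP5L.Lx_le_Kx x (emb_mem.2 h3)
  have m4 := PP5L.Lx_le_Kx x' (emb_mem.2 h4)
  have e1 : ∀ j, PP5L.Bd (emb P) (emb P') j = PP5L.bx z (emb P) (emb P') * x j :=
    fun j => PP5L.Bd_Kx hF hz m1 m3 j
  have e2 : ∀ j, PP5L.Bd (emb P) (emb P') j = PP5L.bx z' (emb P) (emb P') * x' j :=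
    fun j => PP5L.Bd_Kx hF' hz' m2 m4 j
  have hg0 : PP5L.bx z (emb P) (emb P') = 0 := by
    by_contra hg
    obtain ⟨i, j, hij⟩ := hne
    apply hij
    have a1 : PP5L.bx z (emb P) (emb P') * x i = PP5L.bx z' (emb P) (emb P') * x' i := by
      rw [← e1, ← e2]
    have a2 : PP5L.bx z (emb P) (emb P') * x j = PP5L.bx z' (emb P) (emb P') * x' j := by
      rw [← e1, ← e2]
    have a3 : PP5L.bx z (emb P) (emb P') * (x i * x' j - x j * x' i) = 0 := by
      linear_combination x' j * a1 - x' i * a2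
    exact sub_eq_zero.1 ((mul_eq_zero.1 a3).resolve_left hg)
  have hD : (PP5L.SS x).det ≠ 0 := fun h => hsq (by rw [h]; exact ⟨0, by simp⟩)
  obtain ⟨⟨B⟩, hB⟩ := PP5L.Lx_summary hF hp hD
  obtain ⟨G, hsym, -, hG, ⟨m, hm0, hm⟩, -⟩ := hB B
  obtain ⟨v, ev⟩ : ∃ v : Fin 4 → ℤ, emb P = ∑ i, v i • (B i : Fin 16 → ℤ) := by
    refine ⟨B.repr ⟨emb P, emb_mem.2 h1⟩, ?_⟩
    have := congrArg Subtype.val (B.sum_repr ⟨emb P, emb_mem.2 h1⟩)
    rw [AddSubmonoidClass.coe_finsetSum] at this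
    exact this.symm
  obtain ⟨w, ew⟩ : ∃ w : Fin 4 → ℤ, emb P' = ∑ i, w i • (B i : Fin 16 → ℤ) := by
    refine ⟨B.repr ⟨emb P', emb_mem.2 h3⟩, ?_⟩
    have := congrArg Subtype.val (B.sum_repr ⟨emb P', emb_mem.2 h3⟩)
    rw [AddSubmonoidClass.coe_finsetSum] at this
    exact this.symm
  have pol : ∀ (n k : Fin 4 → ℤ) (j : Fin 10),
      PP5L.Bd (∑ i, n i • (B i : Fin 16 → ℤ)) (∑ i, k i • (B i : Fin 16 → ℤ)) j
        = (dotProduct n (Matrix.mulVec G k)) * x j := by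
    intro n k j
    simp only [Fin.sum_univ_four, PP5S.Bd_add_l, PP5S.Bd_add_r, PP5S.Bd_smul_l, PP5S.Bd_smul_r,
      hG, dotProduct, Matrix.mulVec]
    ring
  obtain ⟨j0, hj0⟩ := spe_nz hp
  have hvw : dotProduct v (Matrix.mulVec G w) = 0 := by
    have h := pol v w j0
    rw [← ev, ← ew, e1, hg0, zero_mul] at h
    exact (mul_eq_zero.1 h.symm).resolve_right hj0
  have hvv : dotProduct v (Matrix.mulVec G v) = 0 := by
    have h := pol v v j0
    rw [← ev, PP5S.Bd_self, (Qd_iff P).1 hq j0, mul_zero] at h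
    exact (mul_eq_zero.1 h.symm).resolve_right hj0
  have hww : dotProduct w (Matrix.mulVec G w) = 0 := by
    have h := pol w w j0
    rw [← ew, PP5S.Bd_self, (Qd_iff P').1 hq' j0, mul_zero] at h
    exact (mul_eq_zero.1 h.symm).resolve_right hj0
  have key : ∀ i j, v i * w j = v j * w i := by
    by_contra hcon
    push Not at hcon
    obtain ⟨i, j, hij⟩ := hcon
    obtain ⟨k, hk⟩ := PP5Q.iso_square hsym hvv hww hvw ⟨i, j, sub_ne_zero.2 hij⟩
    apply hsq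
    have hk2 : k ^ 2 * (PP5L.SS x).det = m ^ 2 := by rw [← hm, hk]; ring
    have hkm : k ∣ m := (Int.pow_dvd_pow_iff two_ne_zero).1 ⟨_, hk2.symm⟩
    obtain ⟨c, rfl⟩ := hkm
    have hk0 : k ≠ 0 := by
      rintro rfl
      exact hm0 (zero_mul c)
    refine ⟨c, ?_⟩
    have h5 : k ^ 2 * ((PP5L.SS x).det - c * c) = 0 := by linear_combination hk2
    exact sub_eq_zero.1 ((mul_eq_zero.1 h5).resolve_left (pow_ne_zero 2 hk0))
  have hP : ∀ i, P i = ∑ a, v a * (B a : Fin 16 → ℤ) (ix i) := by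
    intro i
    rw [← emb_ix P i, ev, Finset.sum_apply]
    rfl
  have hP' : ∀ i, P' i = ∑ a, w a * (B a : Fin 16 → ℤ) (ix i) := by
    intro i
    rw [← emb_ix P' i, ew, Finset.sum_apply]
    rfl
  intro i j
  rw [hP i, hP j, hP' i, hP' j, Finset.sum_mul_sum, Finset.sum_mul_sum, Finset.sum_comm]
  refine Finset.sum_congr rfl fun a _ => Finset.sum_congr rfl fun b _ => ?_
  linear_combination (B b : Fin 16 → ℤ) (ix i) * (B a : Fin 16 → ℤ) (ix j) * key b a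

private theorem spe_unit {Q : Sp} (hQ : ∀ l : ℕ, l.Prime → ¬ ∀ i : Fin 12, (l : ℤ) ∣ Q i)
    {u : ℤ} (hu : ∀ j, u ∣ Q j) : u = 1 ∨ u = -1 := by
  by_contra hcon
  have h1 : u.natAbs ≠ 1 := by omega
  obtain ⟨p, hp, hpu⟩ := Nat.exists_prime_and_dvd h1
  exact hQ p hp fun i => (Int.natCast_dvd.2 hpu).trans (hu i)

theorem spe_pm {P P' : Sp} (hP : ∀ l : ℕ, l.Prime → ¬ ∀ i : Fin 12, (l : ℤ) ∣ P i)
    (hP' : ∀ l : ℕ, l.Prime → ¬ ∀ i : Fin 12, (l : ℤ) ∣ P' i)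
    (h : ∀ i j, P i * P' j = P j * P' i) : P' = P ∨ P' = -P := by
  obtain ⟨a, ha⟩ : ∃ a, P a ≠ 0 := by
    by_contra h0
    push Not at h0
    exact hP 2 Nat.prime_two fun i => by rw [h0 i]; exact dvd_zero _
  have hgp : 0 < Int.gcd (P a) (P' a) := Int.gcd_pos_of_ne_zero_left _ ha
  obtain ⟨u, u', hc, e1, e2⟩ := Int.exists_gcd_one hgp
  have hcop : IsCoprime u u' := Int.isCoprime_iff_gcd_eq_one.2 hc
  set g : ℤ := (Int.gcd (P a) (P' a) : ℤ) with hg
  have hg0 : g ≠ 0 := by rw [hg]; exact_mod_cast hgp.ne'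
  have hj : ∀ j, u * P' j = u' * P j := by
    intro j
    have h1 := h a j
    have h2 : g * (u * P' j - u' * P j) = 0 := by
      linear_combination h1 - P' j * e1 + P j * e2
    exact sub_eq_zero.1 ((mul_eq_zero.1 h2).resolve_left hg0)
  have hu1 := spe_unit hP (u := u) fun j => hcop.dvd_of_dvd_mul_left ⟨P' j, (hj j).symm⟩
  have hu2 := spe_unit hP' (u := u') fun j => hcop.symm.dvd_of_dvd_mul_left ⟨P j, hj j⟩
  rcases hu1 with rfl | rfl <;> rcases hu2 with rfl | rfl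
  · left; funext j; have := hj j; linarith
  · right; funext j; have := hj j; rw [Pi.neg_apply]; linarith
  · right; funext j; have := hj j; rw [Pi.neg_apply]; linarith
  · left; funext j; have := hj j; linarith

end Pool.Agent.PP5LE
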