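import Pool.Agent.PP5LE.Spc
import Pool.Agent.PP5LE.Spd
import Pool.Agent.PP5LE.Spe

/-!
# LB5, section E, module Spf (size 4): the pairs `(x, P)` whose shortest vector of `E_P` is not regular

`t1 = t2 = 1` throughout; `nw (tx 1 1) x` is the sup norm of `x` (`tx_one`).
PROOF.  For `q = (x, P) ∈ Q` let `x'` be the shortest vector of the hypothesis.  `x'` is primitive (`Shx.pr`), `FF x' = 0` (`FF_of_InE`, `P ≠ 0` as `P` is primitive).
`spc` (with `Prs.dn`) gives `l = lf q` with `x' = ± ql l`.  By `PP5.short_x` (with `Y = 16 y`) there is a non zero (primitive) `x0` with `InE P x0` and `nw x0 ≤ 16 (16 y)^(2/5)`,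
so `nw x' ≤ 16 (16 y)^(2/5) ≤ 49 y^(2/5)` (`16^(2/5) ≤ 49/16`: `16^2 ≤ (49/16)^5`), and `(l i)² = |x' σ(i)| ≤ 49 y^(2/5)` (`ql l 2 = l 0 * l 0`, `ql l 0 = l 1 * l 1`,
`ql l 3 = l 2 * l 2`, `ql l 1 = l 3 * l 3`), so `|l i| ≤ 7 y^(1/5)`.  `spd_orth`: `bF x x' = 0`, so `bF x (ql l) = 0`.
FIBRES: the map `q ↦ (q.1, lf q)` on `Q` has fibres of size `≤ 2`: if `(x, P1), (x, P2)` have the same `x` and `l`, then their `x'` are equal up to sign, both lie in `E_{P1} ∩ E_{P2}`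
(`InE` is invariant under `x' → - x'`), `x` and `x'` are not proportional: two primitive proportional integer vectors are equal up to sign (prove it as `spe_pm`, for `Fin 10`;
or: by `hne` false, `x i * x' j = x j * x' i` for all `i, j`, so with `x' j ≠ 0`, `SS x' ` is a rational multiple of `SS x`...), and if `x' = ± x` then: `Reg x'` fails but
`(SS x').det = (SS x).det ≠ 0` (`SS (-x) = - SS x`, `4 × 4`), which gives `adjugate ≠ 0` (`mul_adjugate`) and `finrank = 4` (`PP5L.Lx_summary`: a basis indexed by `Fin 4`;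
`Module.finrank_eq_card_basis`), so `Reg x'`: contradiction.  So `spe` and `spe_pm` give `P2 = ± P1`: the fibre is contained in `{(x, P1), (x, - P1)}`.
COUNT: the image is contained in the set of pairs `(x, l)`, `x ∈ X := Q.image Prod.fst`, `l ∈ {|l i| ≤ 7 y^(1/5), bF x (ql l) = 0}`: `spd_card` gives
`≤ 2 (14 y^(1/5) + 1)³ ≤ 2 · 15³ y^(3/5)` for each `x` (`x 0 ≠ 0` by `Prs.x0`), and `#X ≤ K y^(16/5 + 1/20)` by `PP5S.x_count` (`η = 1/20`, `C1 = max 1 B`, `t1 = t2 = 1`, `1 ≤ y^d0`).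
Total `≤ 2 · K y^(13/4) · 6750 y^(3/5) ≤ C y^(39/10)` (`13/4 + 3/5 = 77/20 < 39/10`).
-/

set_option autoImplicit false

namespace Pool.Agent.PP5LE

open Pool.Agent.PP5 Pool.Agent.PP5S

private theorem spf_ne {c1 B y : ℝ} {x : Fin 10 → ℤ} {P : Sp} (h : Prs c1 B y x P) : P ≠ 0 := by
  rintro rfl
  exact h.pr 2 Nat.prime_two (fun i => dvd_zero _)

private theorem spf_reg {x : Fin 10 → ℤ} (hF : PP5L.FF x = 0)
    (hp : ∀ p : ℕ, p.Prime → ∃ j, ¬ (p : ℤ) ∣ x j) (hD : (PP5L.SS x).det ≠ 0) : Reg x := by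
  obtain ⟨⟨b⟩, -⟩ := PP5L.Lx_summary hF hp hD
  refine ⟨?_, ?_⟩
  · rw [Module.finrank_eq_card_basis b, Fintype.card_fin]
  · intro h
    apply hD
    have h1 := Matrix.mul_adjugate (PP5L.SS x)
    rw [h, mul_zero] at h1
    have h2 := congrFun (congrFun h1 0) 0
    simpa using h2.symm

private theorem spf_SS (c : ℤ) (x : Fin 10 → ℤ) :
    PP5L.SS (fun j => c * x j) = c • PP5L.SS x := by
  ext i j
  fin_cases i <;> fin_cases j <;> simp [PP5L.SS] <;> ring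

private theorem spf_det (c : ℤ) (x : Fin 10 → ℤ) :
    (PP5L.SS (fun j => c * x j)).det = c ^ 4 * (PP5L.SS x).det := by
  rw [spf_SS, Matrix.det_smul, Fintype.card_fin]

private theorem spf_pw : 16 * (16 : ℝ) ^ (2 / 5 : ℝ) ≤ 49 := by
  have h0 : (0 : ℝ) ≤ (16 : ℝ) ^ (2 / 5 : ℝ) := by positivity
  have h1 : ((16 : ℝ) ^ (2 / 5 : ℝ)) ^ 5 = 256 := by
    rw [← Real.rpow_natCast, ← Real.rpow_mul (by norm_num)]
    have : (2 / 5 : ℝ) * ((5 : ℕ) : ℝ) = ((2 : ℕ) : ℝ) := by norm_num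
    rw [this, Real.rpow_natCast]
    norm_num
  have h2 : (16 : ℝ) ^ (2 / 5 : ℝ) ≤ 49 / 16 := by
    by_contra hc
    push Not at hc
    have h3 : (49 / 16 : ℝ) ^ 5 < ((16 : ℝ) ^ (2 / 5 : ℝ)) ^ 5 :=
      pow_lt_pow_left₀ hc (by norm_num) (by norm_num)
    rw [h1] at h3
    norm_num at h3
  linarith

private theorem spf_bd {y : ℝ} (hy : 1 ≤ y) {a : ℤ} (h : |((a * a : ℤ) : ℝ)| ≤ 49 * y ^ (2 / 5 : ℝ)) :
    |(a : ℝ)| ≤ 7 * y ^ (1 / 5 : ℝ) := by
  have hy0 : (0 : ℝ) ≤ y := by linarith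
  have h1 : (7 * y ^ (1 / 5 : ℝ)) ^ 2 = 49 * y ^ (2 / 5 : ℝ) := by
    rw [mul_pow, ← Real.rpow_natCast (y ^ (1 / 5 : ℝ)) 2, ← Real.rpow_mul hy0]
    norm_num
  have h2 : (a : ℝ) ^ 2 ≤ (7 * y ^ (1 / 5 : ℝ)) ^ 2 := by
    rw [h1]
    refine le_trans (le_abs_self _) (le_trans (le_of_eq ?_) h)
    push_cast
    rw [sq]
  exact abs_le_of_sq_le_sq h2 (by positivity)

/-- the vector `l` -/
private theorem spf_one {c1 B y : ℝ} (hy : 1 ≤ y) {x : Fin 10 → ℤ} {P : Sp}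
    (h : Prs c1 B y x P) {x' : Fin 10 → ℤ} (hs : Shx 1 1 P x') (hr : ¬ Reg x') :
    ∃ l : Fin 4 → ℤ, InE P (ql l) ∧ PP5L.FF (ql l) = 0 ∧
      (∀ p : ℕ, p.Prime → ∃ j, ¬ (p : ℤ) ∣ ql l j) ∧ (PP5L.SS (ql l)).det = 0 ∧
      PP5L.bF x (ql l) = 0 ∧ ∀ i, |(l i : ℝ)| ≤ 7 * y ^ (1 / 5 : ℝ) := by
  have hy0 : (0 : ℝ) < y := by linarith
  have hP := spf_ne h
  have hp' := hs.pr one_pos one_pos
  have hF' := FF_of_InE hP hs.ie
  have hw : ∀ j, 0 < PP5.tx 1 1 j := fun j => PP5.tx_pos one_pos one_pos j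
  obtain ⟨x0, hx0p, -, hx0E, hx0n⟩ := short_x (Y := 16 * y) h.qd hP one_pos one_pos (by positivity)
    (fun i => by rw [sg_one, mul_one]; exact h.bx i)
  have hx00 : x0 ≠ 0 := by
    rintro rfl
    obtain ⟨j, hj⟩ := hx0p 2 Nat.prime_two
    exact hj (dvd_zero _)
  have hn := (hs.mn x0 hx0E hx00).trans hx0n
  have hb : ∀ j, |(x' j : ℝ)| ≤ 49 * y ^ (2 / 5 : ℝ) := by
    intro j
    have h1 := le_nw hw x' j
    rw [tx_one, mul_one] at h1
    refine (h1.trans hn).trans ?_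
    rw [Real.mul_rpow (by norm_num) hy0.le, ← mul_assoc]
    exact mul_le_mul_of_nonneg_right spf_pw (by positivity)
  obtain ⟨l, hl⟩ := spc h.dn hs.ie hF' hp' hr
  obtain ⟨e, he, hl⟩ : ∃ e : ℤ, e ^ 2 = 1 ∧ ∀ j, ql l j = e * x' j := by
    rcases hl with hl | hl
    · exact ⟨1, by norm_num, fun j => by rw [hl j]; ring⟩
    · exact ⟨-1, by norm_num, fun j => by rw [hl j]; ring⟩
  have hE : InE P (ql l) := InE_prop (A := 1) (B := e) one_ne_zero (fun i => by rw [hl i]; ring) hs.ie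
  have habs : ∀ j, |(ql l j : ℝ)| = |(x' j : ℝ)| := by
    intro j
    have h2 : ((ql l j : ℤ) : ℝ) ^ 2 = ((x' j : ℤ) : ℝ) ^ 2 := by
      have : (ql l j) ^ 2 = (x' j) ^ 2 := by rw [hl j]; linear_combination (x' j) ^ 2 * he
      exact_mod_cast this
    exact (sq_eq_sq_iff_abs_eq_abs _ _).1 h2
  refine ⟨l, hE, FF_of_InE hP hE, ?_, ?_, spd_orth hP h.ie hE, ?_⟩
  · intro p hpp
    obtain ⟨j, hj⟩ := hp' p hpp
    refine ⟨j, fun hd => hj ?_⟩
    have : x' j = e * ql l j := by rw [hl j]; linear_combination (-x' j) * he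
    rw [this]
    exact Dvd.dvd.mul_left hd _
  · have h1 : (PP5L.SS x').det = 0 := by
      by_contra hD
      exact hr (spf_reg hF' hp' hD)
    have h2 : ql l = fun j => e * x' j := funext hl
    rw [h2, spf_det, h1, mul_zero]
  · have hk : ∀ j, |(ql l j : ℝ)| ≤ 49 * y ^ (2 / 5 : ℝ) := fun j => (habs j).le.trans (hb j)
    intro i
    apply spf_bd hy
    fin_cases i
    · exact hk 2
    · exact hk 0
    · exact hk 3
    · exact hk 1

/-- `x` and `l` determine `P` up to sign -/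
private theorem spf_two {c1 B y : ℝ} {x : Fin 10 → ℤ} {P P' : Sp} (h : Prs c1 B y x P)
    (h' : Prs c1 B y x P') {z : Fin 10 → ℤ} (hz : InE P z) (hz' : InE P' z) (hF : PP5L.FF z = 0)
    (hp : ∀ p : ℕ, p.Prime → ∃ j, ¬ (p : ℤ) ∣ z j) (hD : (PP5L.SS z).det = 0) :
    P' = P ∨ P' = -P := by
  have hne : ∃ i j, x i * z j ≠ x j * z i := by
    by_contra hc
    push Not at hc
    have h1 : (fun j => x 0 * z j) = (fun j => z 0 * x j) := by
      funext j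
      have := hc 0 j
      rw [this]; ring
    have h2 := spf_det (x 0) z
    rw [h1, spf_det, hD, mul_zero] at h2
    have h3 : (PP5L.SS x).det ≠ 0 := fun h0 => h.nsq (by rw [h0]; exact ⟨0, rfl⟩)
    have h4 : z 0 = 0 := by
      have := (mul_eq_zero.1 h2).resolve_right h3
      exact pow_eq_zero_iff (by norm_num) |>.1 this
    obtain ⟨j, hj⟩ := hp 2 Nat.prime_two
    apply hj
    have h5 : x 0 * z j = 0 := by
      have := congrFun h1 j
      simp only [h4, zero_mul] at this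
      exact this
    rw [(mul_eq_zero.1 h5).resolve_left h.x0]
    exact dvd_zero _
  exact spe_pm h.pr h'.pr (spe h.ff hF h.px hp h.nsq hne h.qd h'.qd h.ie hz h'.ie hz')

theorem spf (c1 B : ℝ) (hB : 0 < B) : ∃ C : ℝ, 0 ≤ C ∧ ∀ y : ℝ, 1 ≤ y →
    ∀ Q : Finset ((Fin 10 → ℤ) × Sp), (∀ q ∈ Q, Prs c1 B y q.1 q.2 ∧
      ∃ x' : Fin 10 → ℤ, Shx 1 1 q.2 x' ∧ ¬ Reg x') →
    (Q.card : ℝ) ≤ C * y ^ (39 / 10 : ℝ) := by
  classical
  obtain ⟨d0, K, hd0, hK, hX⟩ := x_count (η := 1 / 20) (C1 := max 1 B) (by norm_num) (le_max_left _ _)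
  refine ⟨13500 * K, by positivity, ?_⟩
  intro y hy Q hQ
  have hy0 : (0 : ℝ) < y := by linarith
  have key : ∀ q ∈ Q, ∃ l : Fin 4 → ℤ, InE q.2 (ql l) ∧ PP5L.FF (ql l) = 0 ∧
      (∀ p : ℕ, p.Prime → ∃ j, ¬ (p : ℤ) ∣ ql l j) ∧ (PP5L.SS (ql l)).det = 0 ∧
      PP5L.bF q.1 (ql l) = 0 ∧ ∀ i, |(l i : ℝ)| ≤ 7 * y ^ (1 / 5 : ℝ) := by
    intro q hq
    obtain ⟨h1, x', h2, h3⟩ := hQ q hq
    exact spf_one hy h1 h2 h3
  choose! lf hlf using key
  set f : ((Fin 10 → ℤ) × Sp) → (Fin 10 → ℤ) × (Fin 4 → ℤ) := fun q => (q.1, lf q) with hf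
  set I := Q.image f with hI
  set X := Q.image Prod.fst with hXd
  -- the fibres
  have h1 : Q.card ≤ 2 * I.card := by
    apply Finset.card_le_mul_card_image
    intro a ha
    obtain ⟨q0, hq0, rfl⟩ := Finset.mem_image.1 ha
    refine le_trans (Finset.card_le_card (t := {q0, (q0.1, -q0.2)}) ?_) Finset.card_le_two
    intro q hq
    obtain ⟨hq, he⟩ := Finset.mem_filter.1 hq
    obtain ⟨e1, e2⟩ := Prod.mk.inj he
    obtain ⟨a1, a2, a3, a4, -, -⟩ := hlf q0 hq0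
    obtain ⟨b1, -, -, -, -, -⟩ := hlf q hq
    have hp := (hQ q hq).1
    rw [e1] at hp
    rw [e2] at b1
    have h3 := spf_two (hQ q0 hq0).1 hp a1 b1 a2 a3 a4
    rw [Finset.mem_insert, Finset.mem_singleton]
    rcases h3 with h3 | h3
    · left; exact Prod.ext e1 h3
    · right; exact Prod.ext e1 h3
  -- the number of l
  have h2 : (I.card : ℝ) ≤ X.card * (6750 * y ^ (3 / 5 : ℝ)) := by
    have hm : ∀ p ∈ I, p.1 ∈ X := by
      intro p hp
      obtain ⟨q, hq, rfl⟩ := Finset.mem_image.1 hp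
      exact Finset.mem_image_of_mem _ hq
    rw [Finset.card_eq_sum_card_fiberwise (f := Prod.fst) (t := X) hm]
    push_cast
    rw [← nsmul_eq_mul, ← Finset.sum_const]
    apply Finset.sum_le_sum
    intro x hx
    obtain ⟨q0, hq0, rfl⟩ := Finset.mem_image.1 hx
    have hinj : Set.InjOn Prod.snd ((I.filter fun p => p.1 = q0.1 : Finset _) : Set ((Fin 10 → ℤ) × (Fin 4 → ℤ))) := by
      intro a ha b hb hab
      rw [Finset.mem_coe, Finset.mem_filter] at ha hb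
      exact Prod.ext (ha.2.trans hb.2.symm) hab
    rw [← Finset.card_image_of_injOn hinj]
    refine (spd_card (hQ q0 hq0).1.x0 (L := 7 * y ^ (1 / 5 : ℝ)) (by positivity) _ ?_).trans ?_
    · intro l hl
      obtain ⟨p, hp, rfl⟩ := Finset.mem_image.1 hl
      obtain ⟨hp, hp2⟩ := Finset.mem_filter.1 hp
      obtain ⟨q, hq, rfl⟩ := Finset.mem_image.1 hp
      obtain ⟨-, -, -, -, a5, a6⟩ := hlf q hq
      have hp3 : q.1 = q0.1 := hp2
      rw [hp3] at a5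
      exact ⟨a5, a6⟩
    · have h3 : (1 : ℝ) ≤ y ^ (1 / 5 : ℝ) := Real.one_le_rpow hy (by norm_num)
      have h4 : (2 * (7 * y ^ (1 / 5 : ℝ)) + 1) ^ 3 ≤ (15 * y ^ (1 / 5 : ℝ)) ^ 3 :=
        pow_le_pow_left₀ (by positivity) (by linarith) 3
      have h5 : (15 * y ^ (1 / 5 : ℝ)) ^ 3 = 3375 * y ^ (3 / 5 : ℝ) := by
        rw [mul_pow, ← Real.rpow_natCast (y ^ (1 / 5 : ℝ)) 3, ← Real.rpow_mul hy0.le]
        norm_num
      linarith
  -- the number of x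
  have h3 : (X.card : ℝ) ≤ K * y ^ (16 / 5 + 1 / 20 : ℝ) := by
    apply hX y 1 1 hy le_rfl le_rfl
    · rw [mul_one]; exact Real.one_le_rpow hy hd0.le
    · intro x hx
      obtain ⟨q, hq, rfl⟩ := Finset.mem_image.1 hx
      have h4 := (hQ q hq).1
      refine ⟨h4.ff, fun j => ?_⟩
      rw [tx_one, mul_one]
      exact (h4.xb j).trans (mul_le_mul_of_nonneg_right (le_max_right _ _) (by positivity))
  have h4 : y ^ (16 / 5 + 1 / 20 : ℝ) * y ^ (3 / 5 : ℝ) ≤ y ^ (39 / 10 : ℝ) := by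
    rw [← Real.rpow_add hy0]
    exact Real.rpow_le_rpow_of_exponent_le hy (by norm_num)
  have h5 : (0 : ℝ) ≤ y ^ (3 / 5 : ℝ) := by positivity
  calc (Q.card : ℝ) ≤ 2 * (I.card : ℝ) := by exact_mod_cast h1
    _ ≤ 2 * (X.card * (6750 * y ^ (3 / 5 : ℝ))) := by linarith
    _ ≤ 2 * ((K * y ^ (16 / 5 + 1 / 20 : ℝ)) * (6750 * y ^ (3 / 5 : ℝ))) := by
        have := mul_le_mul_of_nonneg_right h3 (by positivity : (0 : ℝ) ≤ 6750 * y ^ (3 / 5 : ℝ))
        linarith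
    _ = 13500 * K * (y ^ (16 / 5 + 1 / 20 : ℝ) * y ^ (3 / 5 : ℝ)) := by ring
    _ ≤ 13500 * K * y ^ (39 / 10 : ℝ) := mul_le_mul_of_nonneg_left h4 (by positivity)

end Pool.Agent.PP5LE
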