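import Mathlib

/-!
# LB5, section E, module Wsm (size 3): two weighted sums over dyadic shells

PROOF of `wsm`.  As in the proof of `PP5S.shells` (file PP5S/ShF.lean, same shells `f P = Nat.log 2 ⌊M / T P⌋₊`, for `f P = i`: `T P ≤ M / 2^i ≤ 2 T P`): on the shell `i` every term is
`(1 / T P)^4 ≤ (2 / (M / 2^i))^4 = 16 / R^4` with `R = M / 2^i`, and the number of terms is `≤ A R^5`, so the shell contributes `≤ 16 A R = 16 A M / 2^i`; the sum over `i` is `≤ 32 A M`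
(`∑ (1/2)^i ≤ 2`).  (Use `Finset.sum_fiberwise_of_maps_to` for the decomposition.)
PROOF of `wsl`.  Same shells; on the shell `i` (non empty, so `R = M / 2^i ≥ T P ≥ 1`, `R ≤ M`) each term is `(Y / T P)^4 ≤ (2 Y / R)^4 = 16 (Y/R)^4`, the number of terms is `≤ A (R / Y)^4`, so the shell
contributes `≤ 16 A`; the non empty shells have `2^i ≤ M`, so `i ≤ log M / log 2` and there are `≤ 1 + log M / log 2` of them (`Finset.card` of the image `⊆ Finset.range (⌊log M / log 2⌋₊ + 1)`).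
-/

set_option autoImplicit false

namespace Pool.Agent.PP5LE

open Finset

/-- the shell of a point -/
private theorem Wsm_shell {M t : ℝ} (ht : 0 < t) (htM : t ≤ M) :
    t ≤ M / 2 ^ (Nat.log 2 ⌊M / t⌋₊) ∧ M / 2 ^ (Nat.log 2 ⌊M / t⌋₊) ≤ 2 * t := by
  have h1 : 1 ≤ M / t := by rw [le_div_iff₀ ht]; linarith
  have h2 : 1 ≤ ⌊M / t⌋₊ := by
    rw [Nat.one_le_floor_iff]; exact h1
  have h3 : 2 ^ (Nat.log 2 ⌊M / t⌋₊) ≤ ⌊M / t⌋₊ := Nat.pow_log_le_self 2 (by omega)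
  have h4 : ⌊M / t⌋₊ < 2 ^ (Nat.log 2 ⌊M / t⌋₊ + 1) := Nat.lt_pow_succ_log_self (by norm_num) _
  have h5 : (2 : ℝ) ^ (Nat.log 2 ⌊M / t⌋₊) ≤ M / t := by
    have h6 : ((2 ^ (Nat.log 2 ⌊M / t⌋₊) : ℕ) : ℝ) ≤ (⌊M / t⌋₊ : ℝ) := by exact_mod_cast h3
    have h7 : (⌊M / t⌋₊ : ℝ) ≤ M / t := Nat.floor_le (by positivity)
    push_cast at h6
    linarith
  have h8 : M / t ≤ 2 * (2 : ℝ) ^ (Nat.log 2 ⌊M / t⌋₊) := by
    have h9 : M / t < (⌊M / t⌋₊ : ℝ) + 1 := Nat.lt_floor_add_one _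
    have h10 : (⌊M / t⌋₊ : ℝ) + 1 ≤ ((2 ^ (Nat.log 2 ⌊M / t⌋₊ + 1) : ℕ) : ℝ) := by exact_mod_cast h4
    rw [pow_succ] at h10
    push_cast at h10
    linarith
  have hp : (0 : ℝ) < 2 ^ (Nat.log 2 ⌊M / t⌋₊) := by positivity
  constructor
  · rw [le_div_iff₀ hp]
    rw [le_div_iff₀ ht] at h5
    linarith
  · rw [div_le_iff₀ hp]
    rw [div_le_iff₀ ht] at h8
    linarith

theorem wsm {α : Type} [DecidableEq α] (Ps : Finset α) (T : α → ℝ) {M A : ℝ} (hM : 0 < M)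
    (hA : 0 ≤ A) (hT : ∀ P ∈ Ps, 0 < T P ∧ T P ≤ M)
    (h : ∀ R : ℝ, 0 < R → ∀ Qs ⊆ Ps, (∀ P ∈ Qs, T P ≤ R ∧ R ≤ 2 * T P) →
      (Qs.card : ℝ) ≤ A * R ^ 5) :
    ∑ P ∈ Ps, (1 / T P) ^ 4 ≤ 32 * A * M := by
  set f : α → ℕ := fun P => Nat.log 2 ⌊M / T P⌋₊ with hf
  have hmaps : ∀ P ∈ Ps, f P ∈ Finset.range (Ps.sup f + 1) := fun P hP =>
    Finset.mem_range.2 (Nat.lt_succ_of_le (Finset.le_sup (f := f) hP))
  rw [← Finset.sum_fiberwise_of_maps_to hmaps (fun P => (1 / T P) ^ 4)]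
  have key : ∀ i ∈ Finset.range (Ps.sup f + 1),
      ∑ P ∈ Ps with f P = i, (1 / T P) ^ 4 ≤ 16 * A * M * (1 / 2) ^ i := by
    intro i _
    set R : ℝ := M / 2 ^ i with hR
    have hR0 : 0 < R := by positivity
    have hsh : ∀ P ∈ Ps.filter (fun P => f P = i), T P ≤ R ∧ R ≤ 2 * T P := by
      intro P hP
      rw [Finset.mem_filter] at hP
      have h1 := Wsm_shell (hT P hP.1).1 (hT P hP.1).2
      have h2 : Nat.log 2 ⌊M / T P⌋₊ = i := hP.2
      rw [h2] at h1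
      exact h1
    have hcard := h R hR0 (Ps.filter (fun P => f P = i)) (Finset.filter_subset _ _) hsh
    have hterm : ∀ P ∈ Ps.filter (fun P => f P = i), (1 / T P) ^ 4 ≤ 16 / R ^ 4 := by
      intro P hP
      have hT0 := (hT P (Finset.mem_filter.1 hP).1).1
      have h1 : 1 / T P ≤ 2 / R := by
        rw [div_le_div_iff₀ hT0 hR0]
        have := (hsh P hP).2
        linarith
      calc (1 / T P) ^ 4 ≤ (2 / R) ^ 4 := pow_le_pow_left₀ (by positivity) h1 4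
        _ = 16 / R ^ 4 := by rw [div_pow]; norm_num
    calc ∑ P ∈ Ps with f P = i, (1 / T P) ^ 4
        ≤ ∑ P ∈ Ps with f P = i, 16 / R ^ 4 := Finset.sum_le_sum hterm
      _ = ((Ps.filter (fun P => f P = i)).card : ℝ) * (16 / R ^ 4) := by
          rw [Finset.sum_const, nsmul_eq_mul]
      _ ≤ (A * R ^ 5) * (16 / R ^ 4) := mul_le_mul_of_nonneg_right hcard (by positivity)
      _ = 16 * A * R := by field_simp
      _ = 16 * A * M * (1 / 2) ^ i := by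
          rw [hR, div_pow, one_pow]
          ring
  calc ∑ i ∈ Finset.range (Ps.sup f + 1), ∑ P ∈ Ps with f P = i, (1 / T P) ^ 4
      ≤ ∑ i ∈ Finset.range (Ps.sup f + 1), 16 * A * M * (1 / 2) ^ i := Finset.sum_le_sum key
    _ = 16 * A * M * ∑ i ∈ Finset.range (Ps.sup f + 1), (1 / 2 : ℝ) ^ i := by rw [Finset.mul_sum]
    _ ≤ 16 * A * M * 2 := mul_le_mul_of_nonneg_left (sum_geometric_two_le _) (by positivity)
    _ = 32 * A * M := by ring

theorem wsl {α : Type} [DecidableEq α] (Ps : Finset α) (T : α → ℝ) {M A Y : ℝ} (hM : 1 ≤ M)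
    (hA : 0 ≤ A) (hY : 0 < Y) (hT : ∀ P ∈ Ps, 1 ≤ T P ∧ T P ≤ M)
    (h : ∀ R : ℝ, 1 ≤ R → R ≤ M → ∀ Qs ⊆ Ps, (∀ P ∈ Qs, T P ≤ R ∧ R ≤ 2 * T P) →
      (Qs.card : ℝ) ≤ A * (R / Y) ^ 4) :
    ∑ P ∈ Ps, (Y / T P) ^ 4 ≤ 16 * A * (1 + Real.log M / Real.log 2) := by
  have hM0 : 0 < M := by linarith
  set f : α → ℕ := fun P => Nat.log 2 ⌊M / T P⌋₊ with hf
  have hmaps : ∀ P ∈ Ps, f P ∈ Ps.image f := fun P hP => Finset.mem_image_of_mem f hP
  have hsh0 : ∀ P ∈ Ps, T P ≤ M / 2 ^ (f P) ∧ M / 2 ^ (f P) ≤ 2 * T P := fun P hP =>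
    Wsm_shell (by have := (hT P hP).1; linarith) (hT P hP).2
  have hlog2 : 0 < Real.log 2 := Real.log_pos (by norm_num)
  rw [← Finset.sum_fiberwise_of_maps_to hmaps (fun P => (Y / T P) ^ 4)]
  have key : ∀ i ∈ Ps.image f, ∑ P ∈ Ps with f P = i, (Y / T P) ^ 4 ≤ 16 * A := by
    intro i hi
    obtain ⟨P0, hP0, hi0⟩ := Finset.mem_image.1 hi
    set R : ℝ := M / 2 ^ i with hR
    have hR0 : 0 < R := by positivity
    have hR1 : 1 ≤ R := by
      have h1 := (hsh0 P0 hP0).1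
      rw [hi0] at h1
      exact (hT P0 hP0).1.trans h1
    have hRM : R ≤ M := by
      rw [hR]
      exact div_le_self hM0.le (one_le_pow₀ (by norm_num))
    have hsh : ∀ P ∈ Ps.filter (fun P => f P = i), T P ≤ R ∧ R ≤ 2 * T P := by
      intro P hP
      rw [Finset.mem_filter] at hP
      have h1 := hsh0 P hP.1
      rw [hP.2] at h1
      exact h1
    have hcard := h R hR1 hRM (Ps.filter (fun P => f P = i)) (Finset.filter_subset _ _) hsh
    have hterm : ∀ P ∈ Ps.filter (fun P => f P = i), (Y / T P) ^ 4 ≤ 16 * (Y / R) ^ 4 := by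
      intro P hP
      have hT0 : 0 < T P := by have := (hT P (Finset.mem_filter.1 hP).1).1; linarith
      have h1 : Y / T P ≤ 2 * (Y / R) := by
        rw [← mul_div_assoc, div_le_div_iff₀ hT0 hR0]
        have := (hsh P hP).2
        nlinarith
      calc (Y / T P) ^ 4 ≤ (2 * (Y / R)) ^ 4 := pow_le_pow_left₀ (by positivity) h1 4
        _ = 16 * (Y / R) ^ 4 := by rw [mul_pow]; norm_num
    calc ∑ P ∈ Ps with f P = i, (Y / T P) ^ 4
        ≤ ∑ P ∈ Ps with f P = i, 16 * (Y / R) ^ 4 := Finset.sum_le_sum hterm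
      _ = ((Ps.filter (fun P => f P = i)).card : ℝ) * (16 * (Y / R) ^ 4) := by
          rw [Finset.sum_const, nsmul_eq_mul]
      _ ≤ (A * (R / Y) ^ 4) * (16 * (Y / R) ^ 4) := mul_le_mul_of_nonneg_right hcard (by positivity)
      _ = 16 * A := by field_simp
  have hcardS : ((Ps.image f).card : ℝ) ≤ 1 + Real.log M / Real.log 2 := by
    have h1 : Ps.image f ⊆ Finset.range (⌊Real.log M / Real.log 2⌋₊ + 1) := by
      intro i hi
      obtain ⟨P0, hP0, hi0⟩ := Finset.mem_image.1 hi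
      rw [Finset.mem_range, Nat.lt_succ_iff]
      apply Nat.le_floor
      rw [le_div_iff₀ hlog2]
      have h1 := (hsh0 P0 hP0).1
      rw [hi0] at h1
      have h2 : 1 ≤ M / 2 ^ i := (hT P0 hP0).1.trans h1
      have h3 : (2 : ℝ) ^ i ≤ M := by
        rw [le_div_iff₀ (by positivity)] at h2
        linarith
      have h4 := Real.log_le_log (by positivity) h3
      rwa [Real.log_pow] at h4
    have h2 := Finset.card_le_card h1
    rw [Finset.card_range] at h2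
    have h3 : ((Ps.image f).card : ℝ) ≤ (⌊Real.log M / Real.log 2⌋₊ : ℝ) + 1 := by exact_mod_cast h2
    have h4 : (⌊Real.log M / Real.log 2⌋₊ : ℝ) ≤ Real.log M / Real.log 2 :=
      Nat.floor_le (div_nonneg (Real.log_nonneg hM) hlog2.le)
    linarith
  calc ∑ i ∈ Ps.image f, ∑ P ∈ Ps with f P = i, (Y / T P) ^ 4
      ≤ ∑ i ∈ Ps.image f, 16 * A := Finset.sum_le_sum key
    _ = ((Ps.image f).card : ℝ) * (16 * A) := by rw [Finset.sum_const, nsmul_eq_mul]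
    _ ≤ (1 + Real.log M / Real.log 2) * (16 * A) := mul_le_mul_of_nonneg_right hcardS (by positivity)
    _ = 16 * A * (1 + Real.log M / Real.log 2) := by ring

end Pool.Agent.PP5LE
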