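import Pool.Agent.PP5LE.Topq
import Pool.Agent.PP5LE.Hsp
import Pool.Agent.PP5LE.Spf
import Pool.Agent.PP5LE.Cvb
import Pool.Agent.PP5LE.Wsm

/-!
# LB5, section E: from the pairs `(x, P)` to the points `P`
-/

set_option autoImplicit false

namespace Pool.Agent.PP5LE

open Matrix Finset Pool.Agent.PP5B Pool.Agent.PP5S

/-- scaled (Z) in the point form -/
def HZs : Prop := ∀ d : ℝ, 0 < d → ∃ η y0 C : ℝ, 0 < η ∧ 1 ≤ y0 ∧ 0 ≤ C ∧
  ∀ y T : ℝ, y0 ≤ y → 1 ≤ T → T ≤ y ^ (2 / 5 - d) →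
  ∀ (S : Finset PP5.Sp) (xf : PP5.Sp → Fin 10 → ℤ),
  (∀ P ∈ S, InQ y 1 1 P ∧ Shx 1 1 P (xf P) ∧ Reg (xf P) ∧ (PP5L.SS (xf P)).det = 0 ∧
    PP5.nw (PP5.tx 1 1) (xf P) ≤ T) →
  (S.card : ℝ) ≤ C * (y ^ (4 - η) * (T / y ^ (2 / 5 : ℝ)) ^ 4)

/-- power savings -/
theorem Fin_small (a K e : ℝ) (ha : 0 < a) (he : 0 < e) : ∃ y1 : ℝ, 1 ≤ y1 ∧ ∀ y : ℝ, y1 ≤ y →
    K * (y ^ (4 - a) * (1 + Real.log y / Real.log 2)) ≤ e * y ^ 4 := by
  have h2 : 0 < Real.log 2 := Real.log_pos (by norm_num)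
  have h3 : Filter.Tendsto (fun y : ℝ => K * ((1 + Real.log y / Real.log 2) / y ^ a))
      Filter.atTop (nhds 0) := by
    have k1 : Filter.Tendsto (fun y : ℝ => Real.log y / y ^ a) Filter.atTop (nhds 0) :=
      (isLittleO_log_rpow_atTop ha).tendsto_div_nhds_zero
    have k2 : Filter.Tendsto (fun y : ℝ => 1 / y ^ a) Filter.atTop (nhds 0) := by
      have := (tendsto_rpow_neg_atTop ha)
      refine this.congr' ?_
      filter_upwards [Filter.eventually_gt_atTop 0] with y hy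
      rw [Real.rpow_neg hy.le, one_div]
    have k3 := (k2.add (k1.const_mul (1 / Real.log 2))).const_mul K
    simp only [mul_zero, add_zero] at k3
    refine k3.congr fun y => ?_
    ring
  have h4 := h3.eventually (gt_mem_nhds he)
  rw [Filter.eventually_atTop] at h4
  obtain ⟨y1, hy1⟩ := h4
  refine ⟨max 1 y1, le_max_left _ _, fun y hy => ?_⟩
  have hy1' : 1 ≤ y := (le_max_left _ _).trans hy
  have hy0 : 0 < y := by linarith
  have h5 := hy1 y ((le_max_right _ _).trans hy)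
  have e1 : y ^ (4 - a) = y ^ 4 / y ^ a := by
    rw [Real.rpow_sub hy0, ← Real.rpow_natCast y 4]
    norm_num
  rw [e1]
  have hp : 0 < y ^ 4 := by positivity
  calc K * (y ^ 4 / y ^ a * (1 + Real.log y / Real.log 2))
      = K * ((1 + Real.log y / Real.log 2) / y ^ a) * y ^ 4 := by ring
    _ ≤ e * y ^ 4 := mul_le_mul_of_nonneg_right h5.le hp.le

/-- THE PAIRS -/
theorem pairs_of (hZ : HZs) (c1 c2 B : ℝ) (hc1 : 0 < c1) (hc2 : 0 < c2) (hB : 0 < B) :
    ∃ c3 y0 : ℝ, 0 < c3 ∧ 1 ≤ y0 ∧ ∀ y : ℝ, y0 ≤ y →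
    ∀ Q : Finset ((Fin 10 → ℤ) × PP5.Sp), (∀ q ∈ Q, Prs c1 B y q.1 q.2) →
      c2 * y ^ 4 ≤ (Q.card : ℝ) → c3 * y ^ 4 ≤ ((Q.image Prod.snd).card : ℝ) := by
  classical
  obtain ⟨d0, η, y1, Cd, Ksh, hd0, hη, hy1, hCd, hKsh, htop⟩ := topq
  obtain ⟨δ, hδ⟩ : ∃ δ : ℝ, δ = min (1 / 10) (η / 8) := ⟨_, rfl⟩
  have hδ0 : 0 < δ := by rw [hδ]; exact lt_min (by norm_num) (by linarith)
  have hδ1 : δ ≤ 1 / 10 := by rw [hδ]; exact min_le_left _ _
  have hδ2 : δ ≤ η / 8 := by rw [hδ]; exact min_le_right _ _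
  obtain ⟨y2, C2, hy2, hC2, hlow⟩ := hsp δ (δ / 4) hδ0 (by linarith)
  obtain ⟨ηz, y3, C3, hηz, hy3, hC3, hz⟩ := hZ δ hδ0
  obtain ⟨Cs, hCs, hs⟩ := spf c1 B hB
  obtain ⟨Cn', hCn', hn'⟩ := cntE c1 B hc1 hB
  obtain ⟨Cn, hCn⟩ : ∃ Cn : ℝ, Cn = Cn' + 1 := ⟨_, rfl⟩
  have hCn1 : 1 ≤ Cn := by rw [hCn]; linarith
  have hCn0 : 0 < Cn := by linarith
  obtain ⟨κ, hκ⟩ : ∃ κ : ℝ, κ = c2 / (128 * Cn * (Ksh + 1)) := ⟨_, rfl⟩
  have hκ0 : 0 < κ := by rw [hκ]; positivity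
  have hκ1 : Cn * (32 * Ksh * κ) ≤ c2 / 4 := by
    have e1 : κ * (128 * Cn * (Ksh + 1)) = c2 := by rw [hκ]; field_simp
    have e2 : 0 ≤ κ * Cn := by positivity
    linarith
  obtain ⟨z1, hz1, hs1⟩ := Fin_small (1 / 10) Cs (c2 / 16) (by norm_num) (by linarith)
  obtain ⟨z2, hz2, hs2⟩ := Fin_small (δ / 4) (Cn * (16 * C2)) (c2 / 16) (by linarith) (by linarith)
  obtain ⟨z3, hz3, hs3⟩ := Fin_small ηz (Cn * (16 * C3)) (c2 / 16) hηz (by linarith)
  obtain ⟨z4, hz4, hs4⟩ := Fin_small (η / 2) (Cn * Cd) (c2 / 16) (by linarith) (by linarith)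
  refine ⟨c2 * κ ^ 4 / (2 * Cn), max (max y1 (max y2 y3)) (max (max z1 z2) (max z3 z4)),
    by positivity, hy1.trans ((le_max_left _ _).trans (le_max_left _ _)), ?_⟩
  intro y hy Q hQ hcard
  have hya : y1 ≤ y := ((le_max_left _ _).trans (le_max_left _ _)).trans hy
  have hyb : y2 ≤ y :=
    (((le_max_left _ _).trans (le_max_right _ _)).trans (le_max_left _ _)).trans hy
  have hyc : y3 ≤ y :=
    (((le_max_right _ _).trans (le_max_right _ _)).trans (le_max_left _ _)).trans hy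
  have hya' : z1 ≤ y :=
    (((le_max_left _ _).trans (le_max_left _ _)).trans (le_max_right _ _)).trans hy
  have hyb' : z2 ≤ y :=
    (((le_max_right _ _).trans (le_max_left _ _)).trans (le_max_right _ _)).trans hy
  have hyc' : z3 ≤ y :=
    (((le_max_left _ _).trans (le_max_right _ _)).trans (le_max_right _ _)).trans hy
  have hyd' : z4 ≤ y :=
    (((le_max_right _ _).trans (le_max_right _ _)).trans (le_max_right _ _)).trans hy
  have hyone : 1 ≤ y := hy1.trans hya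
  have hy0 : 0 < y := by linarith
  obtain ⟨Y, hY⟩ : ∃ Y : ℝ, Y = y ^ (2 / 5 : ℝ) := ⟨_, rfl⟩
  have hY1 : 1 ≤ Y := by rw [hY]; exact Real.one_le_rpow hyone (by norm_num)
  have hY0 : 0 < Y := by linarith
  have hY5 : Y ^ 5 = y ^ 2 := by
    rw [hY, ← Real.rpow_natCast, ← Real.rpow_mul hy0.le, ← Real.rpow_natCast y 2]
    norm_num
  have hlog : 0 ≤ Real.log y / Real.log 2 :=
    div_nonneg (Real.log_nonneg hyone) (Real.log_nonneg (by norm_num))
  have hw : ∀ j, 0 < PP5.tx (1 : ℝ) 1 j := fun j => by rw [tx_one]; norm_num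
  -- the shortest vectors
  have hex : ∀ P : PP5.Sp, ∃ x : Fin 10 → ℤ, P ∈ Q.image Prod.snd → Shx 1 1 P x := by
    intro P
    by_cases hP : P ∈ Q.image Prod.snd
    · obtain ⟨q, hq, rfl⟩ := Finset.mem_image.1 hP
      have hp := hQ q hq
      have hne : q.1 ≠ 0 := by
        intro h0
        exact hp.x0 (by rw [h0]; rfl)
      obtain ⟨x, hx, -⟩ := Shx_exists hp.ie hne (t1 := 1) (t2 := 1) one_pos one_pos
      exact ⟨x, fun _ => hx⟩
    · exact ⟨0, fun h => absurd h hP⟩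
  choose xf hxf using hex
  have hsnd : ∀ q ∈ Q, q.2 ∈ Q.image Prod.snd := fun q hq => Finset.mem_image_of_mem _ hq
  have hinq : ∀ P ∈ Q.image Prod.snd, InQ y 1 1 P ∧ c1 * y ≤ |(P 0 : ℝ)| := by
    intro P hP
    obtain ⟨q, hq, rfl⟩ := Finset.mem_image.1 hP
    exact ⟨(hQ q hq).inq, (hQ q hq).lo⟩
  obtain ⟨T, hT⟩ : ∃ T : PP5.Sp → ℝ, T = fun P => PP5.nw (PP5.tx 1 1) (xf P) := ⟨_, rfl⟩
  have hT1 : ∀ P ∈ Q.image Prod.snd, 1 ≤ T P := by
    intro P hP
    have hne := (hxf P hP).ne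
    obtain ⟨j, hj⟩ : ∃ j, xf P j ≠ 0 := by
      by_contra hc
      push Not at hc
      exact hne (funext hc)
    have h3 := PP5.le_nw hw (xf P) j
    rw [tx_one, mul_one] at h3
    have h4 : (1 : ℝ) ≤ |(xf P j : ℝ)| := by
      have : (1 : ℤ) ≤ |xf P j| := Int.one_le_abs hj
      exact_mod_cast this
    rw [hT]
    exact h4.trans h3
  have hT100 : ∀ P ∈ Q.image Prod.snd, T P ≤ 100 * Y := by
    intro P hP
    have hin := (hinq P hP).1
    have hP0 : P ≠ 0 := by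
      rintro rfl
      exact hin.pr 2 Nat.prime_two (fun i => dvd_zero _)
    obtain ⟨x, hp, -, hE, hnx⟩ := PP5.short_x hin.qd hP0 (t1 := 1) (t2 := 1) one_pos one_pos
      (Y := 16 * y) (by positivity) (fun i => hin.bx i)
    have hx0 : x ≠ 0 := by
      rintro rfl
      obtain ⟨j, hj⟩ := hp 2 Nat.prime_two
      exact hj (dvd_zero _)
    have h3 := (hxf P hP).mn x hE hx0
    have h4 : (16 : ℝ) ^ (2 / 5 : ℝ) ≤ 4 := by
      have h5 : (16 : ℝ) ^ (2 / 5 : ℝ) ≤ 16 ^ (1 / 2 : ℝ) :=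
        Real.rpow_le_rpow_of_exponent_le (by norm_num) (by norm_num)
      have h6 : (16 : ℝ) ^ (1 / 2 : ℝ) = 4 := by
        rw [show (16 : ℝ) = 4 ^ (2 : ℝ) by norm_num, ← Real.rpow_mul (by norm_num)]
        norm_num
      linarith
    rw [hT]
    calc PP5.nw (PP5.tx 1 1) (xf P) ≤ PP5.nw (PP5.tx 1 1) x := h3
      _ ≤ 16 * (16 * y) ^ (2 / 5 : ℝ) := hnx
      _ = 16 * 16 ^ (2 / 5 : ℝ) * Y := by
          rw [hY, Real.mul_rpow (by norm_num) hy0.le]; ring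
      _ ≤ 16 * 4 * Y := by gcongr
      _ ≤ 100 * Y := by linarith
  -- special and regular pairs
  set Qs := Q.filter (fun q => ¬ Reg (xf q.2)) with hQs
  set Qr := Q.filter (fun q => Reg (xf q.2)) with hQr
  have hQc : (Q.card : ℝ) = (Qr.card : ℝ) + (Qs.card : ℝ) := by
    have := Finset.card_filter_add_card_filter_not (s := Q) (p := fun q => Reg (xf q.2))
    rw [hQs, hQr]
    exact_mod_cast this.symm
  have hQs' : (Qs.card : ℝ) ≤ Cs * y ^ (39 / 10 : ℝ) := by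
    apply hs y hyone
    intro q hq
    obtain ⟨h3, h4⟩ := Finset.mem_filter.1 hq
    exact ⟨hQ q h3, xf q.2, hxf _ (hsnd q h3), h4⟩
  -- the regular ones
  set Pr := (Q.image Prod.snd).filter (fun P => Reg (xf P)) with hPr
  have hQr' : (Qr.card : ℝ) ≤ ∑ P ∈ Pr, Cn * (Y / T P) ^ 4 := by
    have h3 : Qr.card = ∑ P ∈ Pr, (Qr.filter (fun q => q.2 = P)).card := by
      apply Finset.card_eq_sum_card_fiberwise
      intro q hq
      obtain ⟨h4, h5⟩ := Finset.mem_filter.1 hq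
      exact Finset.mem_coe.2 (Finset.mem_filter.2 ⟨hsnd q h4, h5⟩)
    rw [h3]
    push_cast
    apply Finset.sum_le_sum
    intro P hP
    obtain ⟨hPQ, hPreg⟩ := Finset.mem_filter.1 hP
    have h4 : (Qr.filter (fun q => q.2 = P)).card =
        ((Qr.filter (fun q => q.2 = P)).image Prod.fst).card := by
      rw [Finset.card_image_of_injOn]
      intro q hq q' hq' h
      have e1 := (Finset.mem_filter.1 (Finset.mem_coe.1 hq)).2
      have e2 := (Finset.mem_filter.1 (Finset.mem_coe.1 hq')).2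
      exact Prod.ext h (e1.trans e2.symm)
    rw [h4]
    have hTP : 0 < T P := by have := hT1 P hPQ; linarith
    have h5 := hn' y (T P) P ((Qr.filter (fun q => q.2 = P)).image Prod.fst) hyone hTP
      (by rw [← hY]; exact hT100 P hPQ) (hinq P hPQ).1 (hinq P hPQ).2
      (by
        intro x hx hx0
        rw [hT]
        exact (hxf P hPQ).mn x hx hx0)
      (by
        intro x hx
        obtain ⟨q, hq, rfl⟩ := Finset.mem_image.1 hx
        obtain ⟨hq1, rfl⟩ := Finset.mem_filter.1 hq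
        have hq2 := (Finset.mem_filter.1 hq1).1
        exact ⟨(hQ q hq2).ie, (hQ q hq2).xb⟩)
    rw [← hY] at h5
    refine h5.trans ?_
    apply mul_le_mul_of_nonneg_right (by rw [hCn]; linarith) (by positivity)
  -- the four parts
  obtain ⟨M, hM⟩ : ∃ M : ℝ, M = y ^ (2 / 5 - δ) := ⟨_, rfl⟩
  have hM1 : 1 ≤ M := by rw [hM]; exact Real.one_le_rpow hyone (by linarith)
  have hM0 : 0 < M := by linarith
  have hYM : Y = M * y ^ δ := by
    rw [hY, hM, ← Real.rpow_add hy0]; congr 1; ring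
  have hlogM : Real.log M ≤ Real.log y := by
    rw [hM, Real.log_rpow hy0]
    have := Real.log_nonneg hyone
    linarith [mul_nonneg hδ0.le this]
  have hlog2 : 0 < Real.log 2 := Real.log_pos (by norm_num)
  have hlogM' : 1 + Real.log M / Real.log 2 ≤ 1 + Real.log y / Real.log 2 := by
    have := div_le_div_of_nonneg_right hlogM hlog2.le
    linarith
  set P1 := Pr.filter (fun P => T P ≤ M ∧ (PP5L.SS (xf P)).det ≠ 0) with hP1
  set P2 := Pr.filter (fun P => T P ≤ M ∧ (PP5L.SS (xf P)).det = 0) with hP2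
  set P3 := Pr.filter (fun P => ¬ T P ≤ M) with hP3
  have hmemP : ∀ P ∈ Pr, P ∈ Q.image Prod.snd ∧ Reg (xf P) := fun P hP => Finset.mem_filter.1 hP
  -- (1)
  have s1 : ∑ P ∈ P1, (Y / T P) ^ 4 ≤
      16 * (C2 * y ^ (4 - δ / 4)) * (1 + Real.log y / Real.log 2) := by
    have h3 := wsl P1 T (M := M) (A := C2 * y ^ (4 - δ / 4)) (Y := Y) hM1 (by positivity) hY0
      (by
        intro P hP
        obtain ⟨h4, h5, h6⟩ := Finset.mem_filter.1 hP
        exact ⟨hT1 P (hmemP P h4).1, h5⟩)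
      (by
        intro R hR1 hRM Qs hQs hR
        have h4 := hlow y R hyb hR1 (by rw [← hM]; exact hRM) Qs xf (by
          intro P hP
          obtain ⟨h4, h5, h6⟩ := Finset.mem_filter.1 (hQs hP)
          obtain ⟨h7, h8⟩ := hmemP P h4
          have hP0 : P ≠ 0 := by
            rintro rfl
            exact (hinq 0 h7).1.pr 2 Nat.prime_two (fun i => dvd_zero _)
          refine ⟨(hinq P h7).1, hxf P h7, ⟨(hxf P h7).pr one_pos one_pos,
            FF_of_InE hP0 (hxf P h7).ie, h6⟩, ?_⟩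
          have := (hR P hP).1
          rw [hT] at this
          exact this)
        refine h4.trans ?_
        rw [← hY]
        have hR0 : 0 < R := by linarith
        have e1 : (R / Y) ^ (9 / 2 : ℝ) = (R / Y) ^ (1 / 2 : ℝ) * (R / Y) ^ 4 := by
          rw [← Real.rpow_natCast (R / Y) 4, ← Real.rpow_add (by positivity)]
          congr 1; norm_num
        have e2 : (R / Y) ^ (1 / 2 : ℝ) ≤ y ^ (-(δ / 2)) := by
          have e3 : R / Y ≤ y ^ (-δ) := by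
            rw [div_le_iff₀ hY0, hYM, Real.rpow_neg hy0.le]
            have : (y ^ δ)⁻¹ * (M * y ^ δ) = M := by
              have : 0 < y ^ δ := by positivity
              field_simp
            rw [this]; exact hRM
          calc (R / Y) ^ (1 / 2 : ℝ) ≤ (y ^ (-δ)) ^ (1 / 2 : ℝ) :=
                Real.rpow_le_rpow (by positivity) e3 (by norm_num)
            _ = y ^ (-(δ / 2)) := by rw [← Real.rpow_mul hy0.le]; congr 1; ring
        have e4 : y ^ (4 + δ / 4) * y ^ (-(δ / 2)) = y ^ (4 - δ / 4) := by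
          rw [← Real.rpow_add hy0]; congr 1; ring
        rw [e1]
        calc C2 * (y ^ (4 + δ / 4) * ((R / Y) ^ (1 / 2 : ℝ) * (R / Y) ^ 4))
            ≤ C2 * (y ^ (4 + δ / 4) * (y ^ (-(δ / 2)) * (R / Y) ^ 4)) := by gcongr
          _ = C2 * (y ^ (4 + δ / 4) * y ^ (-(δ / 2))) * (R / Y) ^ 4 := by ring
          _ = _ := by rw [e4])
    refine h3.trans (mul_le_mul_of_nonneg_left hlogM' (by positivity))
  -- (2)
  have s2 : ∑ P ∈ P2, (Y / T P) ^ 4 ≤
      16 * (C3 * y ^ (4 - ηz)) * (1 + Real.log y / Real.log 2) := by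
    have h3 := wsl P2 T (M := M) (A := C3 * y ^ (4 - ηz)) (Y := Y) hM1 (by positivity) hY0
      (by
        intro P hP
        obtain ⟨h4, h5, h6⟩ := Finset.mem_filter.1 hP
        exact ⟨hT1 P (hmemP P h4).1, h5⟩)
      (by
        intro R hR1 hRM Qs hQs hR
        have h4 := hz y R hyc hR1 (by rw [← hM]; exact hRM) Qs xf (by
          intro P hP
          obtain ⟨h4, h5, h6⟩ := Finset.mem_filter.1 (hQs hP)
          obtain ⟨h7, h8⟩ := hmemP P h4
          refine ⟨(hinq P h7).1, hxf P h7, h8, h6, ?_⟩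
          have := (hR P hP).1
          rw [hT] at this
          exact this)
        refine h4.trans (le_of_eq ?_)
        rw [← hY]; ring)
    refine h3.trans (mul_le_mul_of_nonneg_left hlogM' (by positivity))
  -- (3)
  obtain ⟨Bad, hBs, hBc, hgood⟩ := htop y 1 1 hya le_rfl le_rfl (by
    rw [mul_one]; exact Real.one_le_rpow hyone hd0.le) P3 xf (by
      intro P hP
      obtain ⟨h4, h5⟩ := Finset.mem_filter.1 hP
      obtain ⟨h7, h8⟩ := hmemP P h4
      exact ⟨(hinq P h7).1, hxf P h7, h8⟩)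
  have s3 : ∑ P ∈ Bad, (Y / T P) ^ 4 ≤ Cd * y ^ (4 - η / 2) := by
    have h3 : ∀ P ∈ Bad, (Y / T P) ^ 4 ≤ y ^ (4 * δ) := by
      intro P hP
      obtain ⟨h4, h5⟩ := Finset.mem_filter.1 (hBs hP)
      push Not at h5
      have hTP : 0 < T P := hM0.trans h5
      have h6 : Y / T P ≤ y ^ δ := by
        rw [div_le_iff₀ hTP, hYM]
        have : 0 < y ^ δ := by positivity
        rw [mul_comm]; exact mul_le_mul_of_nonneg_left h5.le this.le
      calc (Y / T P) ^ 4 ≤ (y ^ δ) ^ 4 := pow_le_pow_left₀ (by positivity) h6 4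
        _ = y ^ (4 * δ) := by
            rw [← Real.rpow_natCast, ← Real.rpow_mul hy0.le]; congr 1; push_cast; ring
    refine (Finset.sum_le_card_nsmul Bad _ _ h3).trans ?_
    rw [nsmul_eq_mul]
    calc (Bad.card : ℝ) * y ^ (4 * δ) ≤ Cd * y ^ (4 - η) * y ^ (4 * δ) :=
          mul_le_mul_of_nonneg_right hBc (by positivity)
      _ = Cd * y ^ (4 - η + 4 * δ) := by rw [mul_assoc, ← Real.rpow_add hy0]
      _ ≤ Cd * y ^ (4 - η / 2) := by
          apply mul_le_mul_of_nonneg_left _ hCd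
          apply Real.rpow_le_rpow_of_exponent_le hyone
          linarith
  -- (4)
  set P4 := (P3 \ Bad).filter (fun P => T P ≤ κ * Y) with hP4
  set P5 := (P3 \ Bad).filter (fun P => ¬ T P ≤ κ * Y) with hP5
  have hP3m : ∀ P ∈ P3, P ∈ Q.image Prod.snd := fun P hP =>
    (hmemP P (Finset.mem_filter.1 hP).1).1
  have s4 : ∑ P ∈ P4, (Y / T P) ^ 4 ≤ 32 * Ksh * κ * y ^ 4 := by
    have h3 := wsm P4 T (M := κ * Y) (A := Ksh * y ^ 2) (by positivity) (by positivity)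
      (by
        intro P hP
        obtain ⟨h4, h5⟩ := Finset.mem_filter.1 hP
        have := hT1 P (hP3m P (Finset.mem_sdiff.1 h4).1)
        exact ⟨by linarith, h5⟩)
      (by
        intro R hR0 Qs hQs hR
        refine (hgood R hR0 Qs (fun P hP => (Finset.mem_filter.1 (hQs hP)).1) (by
          intro P hP
          have := hR P hP
          rw [hT] at this
          exact this)).trans (le_of_eq ?_)
        ring)
    have e1 : ∑ P ∈ P4, (Y / T P) ^ 4 = Y ^ 4 * ∑ P ∈ P4, (1 / T P) ^ 4 := by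
      rw [Finset.mul_sum]
      refine Finset.sum_congr rfl fun P _ => ?_
      rw [← mul_pow]; congr 1; ring
    rw [e1]
    calc Y ^ 4 * ∑ P ∈ P4, (1 / T P) ^ 4 ≤ Y ^ 4 * (32 * (Ksh * y ^ 2) * (κ * Y)) :=
          mul_le_mul_of_nonneg_left h3 (by positivity)
      _ = 32 * Ksh * κ * (Y ^ 5 * y ^ 2) := by ring
      _ = 32 * Ksh * κ * y ^ 4 := by rw [hY5]; ring
  have s5 : ∑ P ∈ P5, (Y / T P) ^ 4 ≤ (1 / κ ^ 4) * ((Q.image Prod.snd).card : ℝ) := by
    have h3 : ∀ P ∈ P5, (Y / T P) ^ 4 ≤ 1 / κ ^ 4 := by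
      intro P hP
      obtain ⟨h4, h5⟩ := Finset.mem_filter.1 hP
      push Not at h5
      have hTP : 0 < T P := lt_trans (by positivity) h5
      have h6 : Y / T P ≤ 1 / κ := by
        rw [div_le_div_iff₀ hTP hκ0]
        linarith
      calc (Y / T P) ^ 4 ≤ (1 / κ) ^ 4 := pow_le_pow_left₀ (by positivity) h6 4
        _ = 1 / κ ^ 4 := by rw [_root_.one_div_pow]
    refine (Finset.sum_le_card_nsmul P5 _ _ h3).trans ?_
    rw [nsmul_eq_mul, mul_comm]
    apply mul_le_mul_of_nonneg_left _ (by positivity)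
    have : P5 ⊆ Q.image Prod.snd := fun P hP =>
      hP3m P (Finset.mem_sdiff.1 (Finset.mem_filter.1 hP).1).1
    exact_mod_cast Finset.card_le_card this
  -- the sum
  have hsum : ∑ P ∈ Pr, (Y / T P) ^ 4 ≤ ∑ P ∈ P1, (Y / T P) ^ 4 + ∑ P ∈ P2, (Y / T P) ^ 4 +
      (∑ P ∈ Bad, (Y / T P) ^ 4 + (∑ P ∈ P4, (Y / T P) ^ 4 + ∑ P ∈ P5, (Y / T P) ^ 4)) := by
    have h3 : ∑ P ∈ P4, (Y / T P) ^ 4 + ∑ P ∈ P5, (Y / T P) ^ 4 =
        ∑ P ∈ P3 \ Bad, (Y / T P) ^ 4 := Finset.sum_filter_add_sum_filter_not _ _ _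
    have h4 : ∑ P ∈ Bad, (Y / T P) ^ 4 + ∑ P ∈ P3 \ Bad, (Y / T P) ^ 4 =
        ∑ P ∈ P3, (Y / T P) ^ 4 := by
      rw [add_comm]
      exact Finset.sum_sdiff hBs
    rw [h3, h4]
    have h5 : Pr ⊆ P1 ∪ P2 ∪ P3 := by
      intro P hP
      by_cases h6 : T P ≤ M
      · by_cases h7 : (PP5L.SS (xf P)).det = 0
        · exact Finset.mem_union_left _ (Finset.mem_union_right _
            (Finset.mem_filter.2 ⟨hP, h6, h7⟩))
        · exact Finset.mem_union_left _ (Finset.mem_union_left _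
            (Finset.mem_filter.2 ⟨hP, h6, h7⟩))
      · exact Finset.mem_union_right _ (Finset.mem_filter.2 ⟨hP, h6⟩)
    have hnn : ∀ P : PP5.Sp, 0 ≤ (Y / T P) ^ 4 := fun P => by positivity
    calc ∑ P ∈ Pr, (Y / T P) ^ 4 ≤ ∑ P ∈ P1 ∪ P2 ∪ P3, (Y / T P) ^ 4 :=
          Finset.sum_le_sum_of_subset_of_nonneg h5 (fun P _ _ => hnn P)
      _ ≤ ∑ P ∈ P1 ∪ P2, (Y / T P) ^ 4 + ∑ P ∈ P3, (Y / T P) ^ 4 := by
          rw [← Finset.sum_union_inter]
          have : 0 ≤ ∑ P ∈ (P1 ∪ P2) ∩ P3, (Y / T P) ^ 4 := Finset.sum_nonneg fun P _ => hnn P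
          linarith
      _ ≤ _ := by
          have : 0 ≤ ∑ P ∈ P1 ∩ P2, (Y / T P) ^ 4 := Finset.sum_nonneg fun P _ => hnn P
          have h6 : ∑ P ∈ P1 ∪ P2, (Y / T P) ^ 4 + ∑ P ∈ P1 ∩ P2, (Y / T P) ^ 4 =
              ∑ P ∈ P1, (Y / T P) ^ 4 + ∑ P ∈ P2, (Y / T P) ^ 4 := Finset.sum_union_inter
          linarith
  rw [← Finset.mul_sum] at hQr'
  -- the small terms
  have hp4 : 0 < y ^ 4 := by positivity
  have t1 : Cs * y ^ (39 / 10 : ℝ) ≤ c2 / 16 * y ^ 4 := by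
    have h3 := hs1 y hya'
    have e1 : (4 : ℝ) - 1 / 10 = 39 / 10 := by norm_num
    rw [e1] at h3
    refine le_trans ?_ h3
    have : 0 ≤ Cs * y ^ (39 / 10 : ℝ) := by positivity
    linarith [mul_nonneg this (div_nonneg (Real.log_nonneg hyone) hlog2.le)]
  have t2 : Cn * (16 * (C2 * y ^ (4 - δ / 4)) * (1 + Real.log y / Real.log 2)) ≤
      c2 / 16 * y ^ 4 := by
    refine le_trans (le_of_eq ?_) (hs2 y hyb')
    ring
  have t3 : Cn * (16 * (C3 * y ^ (4 - ηz)) * (1 + Real.log y / Real.log 2)) ≤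
      c2 / 16 * y ^ 4 := by
    refine le_trans (le_of_eq ?_) (hs3 y hyc')
    ring
  have t4 : Cn * (Cd * y ^ (4 - η / 2)) ≤ c2 / 16 * y ^ 4 := by
    refine le_trans ?_ (hs4 y hyd')
    have : 0 ≤ Cn * Cd * y ^ (4 - η / 2) := by positivity
    linarith [mul_nonneg this (div_nonneg (Real.log_nonneg hyone) hlog2.le)]
  have t5 : Cn * (32 * Ksh * κ * y ^ 4) ≤ c2 / 4 * y ^ 4 := by
    calc Cn * (32 * Ksh * κ * y ^ 4) = Cn * (32 * Ksh * κ) * y ^ 4 := by ring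
      _ ≤ c2 / 4 * y ^ 4 := mul_le_mul_of_nonneg_right hκ1 hp4.le
  have hmain : Cn * ∑ P ∈ Pr, (Y / T P) ^ 4 ≤ c2 / 16 * y ^ 4 + c2 / 16 * y ^ 4 + c2 / 16 * y ^ 4 +
      c2 / 4 * y ^ 4 + Cn * ((1 / κ ^ 4) * ((Q.image Prod.snd).card : ℝ)) := by
    have h3 := mul_le_mul_of_nonneg_left hsum hCn0.le
    have h4 := mul_le_mul_of_nonneg_left s1 hCn0.le
    have h5 := mul_le_mul_of_nonneg_left s2 hCn0.le
    have h6 := mul_le_mul_of_nonneg_left s3 hCn0.le
    have h7 := mul_le_mul_of_nonneg_left s4 hCn0.le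
    have h8 := mul_le_mul_of_nonneg_left s5 hCn0.le
    linarith
  have hfin : c2 / 2 * y ^ 4 ≤ Cn * ((1 / κ ^ 4) * ((Q.image Prod.snd).card : ℝ)) := by
    linarith
  have hk4 : 0 < κ ^ 4 := by positivity
  rw [div_mul_eq_mul_div, div_le_iff₀ (by positivity)]
  have h9 := mul_le_mul_of_nonneg_left hfin hk4.le
  have e9 : κ ^ 4 * (Cn * ((1 / κ ^ 4) * ((Q.image Prod.snd).card : ℝ))) =
      Cn * ((Q.image Prod.snd).card : ℝ) := by field_simp
  rw [e9] at h9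
  linarith

end Pool.Agent.PP5LE
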