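import Pool.Agent.PP5LE.Hzb
import Pool.Agent.PP5LE.Fin
import Pool.Agent.PP5G.LnF

/-!
# LB5, section E, `D(x) = 0`: HZs
-/

set_option autoImplicit false

namespace Pool.Agent.PP5LE

open Matrix Finset Pool.Agent.PP5 Pool.Agent.PP5B Pool.Agent.PP5S Pool.Agent.PP5P Pool.Agent.PP5Z

/-- the points with `D(x) = 0` in the shells (the bound holds up to `T ≤ y^(2/5)`) -/
theorem hzs : HZs := by
  classical
  intro d hd
  obtain ⟨Cx, hCx, hXE⟩ := XEx_exists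
  obtain ⟨y2, K, hy2, hK, hsm⟩ := sm3 Cx hCx
  obtain ⟨aN, CN, haN, hCN, HN⟩ := PP5G.hln Cx
  refine ⟨1 / 100, max y2 (CN ^ (1000 : ℕ)), K, by norm_num, hy2.trans (le_max_left _ _), hK, ?_⟩
  intro y T0 hy hT01 hT0 S xf hS
  have hyb : y2 ≤ y := (le_max_left _ _).trans hy
  have hyd : CN ^ (1000 : ℕ) ≤ y := (le_max_right _ _).trans hy
  have hyone : 1 ≤ y := hy2.trans hyb
  have hy0 : 0 < y := by linarith
  have hCNy : CN * ((1 : ℝ) * 1) ^ aN ≤ y ^ (1 / 1000 : ℝ) := by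
    rw [mul_one, Real.one_rpow, mul_one]
    have h1 : (CN ^ (1000 : ℕ)) ^ (1 / 1000 : ℝ) ≤ y ^ (1 / 1000 : ℝ) :=
      Real.rpow_le_rpow (by positivity) hyd (by norm_num)
    rw [← Real.rpow_natCast, ← Real.rpow_mul (by linarith)] at h1
    norm_num at h1
    exact h1
  have hT0y : T0 ≤ y ^ (2 / 5 : ℝ) :=
    hT0.trans (Real.rpow_le_rpow_of_exponent_le hyone (by linarith))
  have hP0 : ∀ P ∈ S, P ≠ 0 := by
    intro P hP h0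
    apply (hS P hP).1.pr 2 Nat.prime_two
    intro i
    rw [h0]
    exact dvd_zero _
  -- the data
  have hdat : ∀ x : Fin 10 → ℤ, ∃ (T : ℝ) (b : Fin 4 → PP5.Sp) (G : Matrix (Fin 4) (Fin 4) ℤ)
      (l : Fin 4 → ℝ), ((∀ p : ℕ, p.Prime → ∃ j, ¬ (p : ℤ) ∣ x j) ∧ PP5L.FF x = 0 ∧
      Module.finrank ℤ (PP5L.Lx x) = 4) → XE Cx 1 1 T x b G l ∧ T = PP5.nw (PP5.tx 1 1) x := by
    intro x
    by_cases hx : (∀ p : ℕ, p.Prime → ∃ j, ¬ (p : ℤ) ∣ x j) ∧ PP5L.FF x = 0 ∧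
      Module.finrank ℤ (PP5L.Lx x) = 4
    · obtain ⟨T, b, G, l, h, -, hT⟩ := hXE 1 1 le_rfl le_rfl x hx.1 hx.2.1 hx.2.2
      exact ⟨T, b, G, l, fun _ => ⟨h, hT⟩⟩
    · exact ⟨0, fun _ => 0, 0, fun _ => 0, fun h => absurd h hx⟩
  choose Tf bf Gf lf hD using hdat
  have hok : ∀ P ∈ S, (∀ p : ℕ, p.Prime → ∃ j, ¬ (p : ℤ) ∣ (xf P) j) ∧ PP5L.FF (xf P) = 0 ∧
      Module.finrank ℤ (PP5L.Lx (xf P)) = 4 := by
    intro P hP
    obtain ⟨h1, h2, h3, h4, h5⟩ := hS P hP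
    exact ⟨h2.pr one_pos one_pos, FF_of_InE (hP0 P hP) h2.ie, h3.r4⟩
  have hX : ∀ P ∈ S, XE Cx 1 1 (Tf (xf P)) (xf P) (bf (xf P)) (Gf (xf P)) (lf (xf P)) :=
    fun P hP => (hD _ (hok P hP)).1
  -- the coordinates of the points
  have hex2 : ∀ P : PP5.Sp, ∃ n : Fin 4 → ℤ, P ∈ S →
      (∀ a, P a = ∑ i, n i * bf (xf P) i a) ∧
      (∀ i, |(n i : ℝ)| * lf (xf P) i ≤ 16 * Cx * y) ∧
      Pr4 n ∧ n ⬝ᵥ (Gf (xf P) *ᵥ n) = 0 := by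
    intro P
    by_cases hP : P ∈ S
    · have hIn := (hS P hP).1
      obtain ⟨n, n1, n2⟩ := (hX P hP).span P (16 * y) (hS P hP).2.1.ie hIn.bx
      refine ⟨n, fun _ => ⟨n1, ?_, pr4_of hIn.pr n1, ?_⟩⟩
      · intro i
        refine (n2 i).trans (le_of_eq ?_)
        ring
      · apply (hX P hP).quad
        have e : (fun a => ∑ i, n i * bf (xf P) i a) = P := (funext n1).symm
        rw [e]; exact hIn.qd
    · exact ⟨0, fun h => absurd h hP⟩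
  choose nf hn using hex2
  rw [card_fib (S := S) (xf := xf) (nf := nf) (bf := bf) (fun P hP => (hn P hP).1)]
  refine hsm y T0 hyb hT01 hT0y Tf bf Gf lf (S.image xf)
    (fun x => (S.filter (fun P => xf P = x)).image nf) ?_
  intro x hx
  obtain ⟨P0, hP0', hxP0⟩ := Finset.mem_image.1 hx
  obtain ⟨b1, b2, b3, b4, b5⟩ := hS P0 hP0'
  obtain ⟨a1, a2, a3⟩ := hok P0 hP0'
  have hX0 := hX P0 hP0'
  have hTe := (hD _ (hok P0 hP0')).2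
  have hT : Tf (xf P0) ≤ T0 := by rw [hTe]; exact b5
  have hadj := b3.r3
  rw [hxP0] at a1 a2 b4 hX0 hadj hT
  refine ⟨a1, a2, b4, hadj, hX0, hT, ?_⟩
  intro v hv
  obtain ⟨P, hP, rfl⟩ := Finset.mem_image.1 hv
  obtain ⟨hPS, hPx⟩ := Finset.mem_filter.1 hP
  obtain ⟨n1, n2, n3, n4⟩ := hn P hPS
  have hsh := (hS P hPS).2.1
  rw [hPx] at n1 n2 n4 hsh
  refine ⟨⟨n3, n4, n2⟩, ?_⟩
  intro w w1 w2 w3
  obtain ⟨i, j, hij⟩ := HN 1 1 (Tf x) x (bf x) (Gf x) (lf x) P (nf P) w le_rfl le_rfl hX0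
    (hS P hPS).1.qd n1 hsh n4 w1 w2 w3
  refine ⟨i, j, hij.trans ?_⟩
  have hli := (hX0.lp i).le
  have hlj := (hX0.lp j).le
  gcongr

end Pool.Agent.PP5LE
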