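import Pool.Agent.PP5LE.Defs

/-!
# LB5, section E, module Cva (size 4): `(P 0)²` divides the minors of `E_P`

`w = (x 0, x 1, x 5, x 6, x 8)` and `z = (x 2, -x 3, -x 4, -x 9, x 7)` of a vector `x ∈ E_P` satisfy `P 0 * z i = ∑ k, Bc P i k * w k` (`cva_rel`; these are five of the
sixteen equations `InE`: `e8, e3, e10, e6, e2` in some order, up to sign; `Bc P` is `PP5.B_c P`, skew).

PROOF of `cva_two`, `cva_four` (abstract).  `W' := ` the matrix `W` with the columns `i ∈ I` replaced by the columns `Z · i`.  `W'' := ` the same with `c * Z · i`: `det W'' = c ^ #I * det W'`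
(`Matrix.det_updateCol_smul`), and `W'' = W * U` where the columns of `U` are `e_k` (`k ∉ I`) and `(B i ·)` (`i ∈ I`), so `det W'' = det W * det U`, `det U = (B i j)²` for `I = {i, j}`
(a skew `2 × 2` determinant) and `= (Pfaffian)²` for the `4`-element sets (explicit `5 × 5` determinants: `fin_cases`/concrete indices, `simp [Matrix.det_succ_row_zero, Fin.sum_univ_succ]`, `ring`).
It is enough to do the concrete index sets needed below.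
PROOF of `cva`.  Rows of `W` = the five vectors `X a`.  Pairs: `B 0 1 = P 4`, `B 0 2 = P 1`, `B 0 3 = -P 10`, `B 0 4 = P 9`, `B 1 2 = P 3`, `B 1 3 = P 8`, `B 1 4 = -P 7`, `B 2 4 = -P 6`
give `c² ∣ (P j)² det W` for `j = 4, 1, 10, 9, 3, 8, 7, 6` (`c = P 0`).  Pfaffians (with the index `k` removed; `h1 .. h10` are the fields of `Qd P`):
`k = 1 : B02 B34 - B03 B24 + B04 B23 = - c P 2 - h2`, `k = 2 : B01 B34 - B03 B14 + B04 B13 = - c P 5 + h6`, `k = 4 : B01 B23 - B02 B13 + B03 B12 = - c P 11 + h9`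
(`h2` etc. are zero), so `c⁴ t = c² (P j)² det W`, i.e. `c² ∣ (P j)² det W` for `j = 2, 5, 11`; and `j = 0` is trivial.  So `c² ∣ (P j)² det W` for all `j : Fin 12`.
Finally `c² ∣ det W`: the ideal `{t : ℤ | c² ∣ t * det W}` contains all `(P j)²`; it is generated by some `g` (`IsPrincipal`); if `g` is not a unit a prime `p ∣ g` divides all `(P j)²`,
hence all `P j`: contradiction with `hp`.
-/

set_option autoImplicit false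

namespace Pool.Agent.PP5LE

open Pool.Agent.PP5 Matrix

/-- the indices of `w` -/
def wi : Fin 5 → Fin 10 := ![0, 1, 5, 6, 8]

private def Cva_U (I : Fin 5 → Bool) (B : Fin 5 → Fin 5 → ℤ) : Matrix (Fin 5) (Fin 5) ℤ :=
  Matrix.of fun k l => if I l then B l k else if k = l then 1 else 0

private def Cva_z (x : Fin 10 → ℤ) : Fin 5 → ℤ := ![x 2, -x 3, -x 4, -x 9, x 7]

private theorem Cva_rel {P : Sp} {x : Fin 10 → ℤ} (hx : InE P x) (i : Fin 5) :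
    ∑ k, x (wi k) * B_c P i k = P 0 * Cva_z x i := by
  have h8 := hx.e8
  have h3 := hx.e3
  have h10 := hx.e10
  have h6 := hx.e6
  have h2 := hx.e2
  fin_cases i <;> simp [Fin.sum_univ_five, wi, B_c, Cva_z] <;> linarith

private theorem Cva_det {P : Sp} (X : Fin 5 → Fin 10 → ℤ) (hX : ∀ a, InE P (X a))
    (I : Fin 5 → Bool) :
    (∏ l, if I l then P 0 else 1) ∣
      (Matrix.of fun a k : Fin 5 => X a (wi k)).det * (Cva_U I (B_c P)).det := by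
  rw [← Matrix.det_mul]
  have h : (Matrix.of fun a k : Fin 5 => X a (wi k)) * Cva_U I (B_c P)
      = (Matrix.of fun a l : Fin 5 => if I l then Cva_z (X a) l else X a (wi l)) *
        Matrix.diagonal (fun l => if I l then P 0 else 1) := by
    ext a l
    rw [Matrix.mul_diagonal, Matrix.mul_apply]
    simp only [Matrix.of_apply, Cva_U]
    by_cases hl : I l = true
    · simp only [hl, if_true]
      rw [Cva_rel (hX a) l, mul_comm]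
    · simp [hl]
  rw [h, Matrix.det_mul, Matrix.det_diagonal]
  exact Dvd.intro_left _ rfl

private theorem Cva_prime {P : Sp} {D c : ℤ}
    (hp : ∀ l : ℕ, l.Prime → ¬ ∀ i : Fin 12, (l : ℤ) ∣ P i)
    (h : ∀ j : Fin 12, c ∣ (P j) ^ 2 * D) : c ∣ D := by
  have h1 : c ∣ Finset.univ.gcd (fun j : Fin 12 => (P j) ^ 2 * D) :=
    Finset.dvd_gcd fun j _ => h j
  rw [Finset.gcd_mul_right] at h1
  have h2 : IsUnit (Finset.univ.gcd (fun j : Fin 12 => (P j) ^ 2)) := by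
    rw [Int.isUnit_iff_natAbs_eq]
    by_contra hc
    obtain ⟨l, hl, hd⟩ := Nat.exists_prime_and_dvd hc
    refine hp l hl fun i => ?_
    have h3 : (l : ℤ) ∣ (P i) ^ 2 :=
      (Int.natCast_dvd.2 hd).trans (Finset.gcd_dvd (Finset.mem_univ i))
    exact Int.Prime.dvd_pow' hl h3
  have h3 : c ∣ normalize D := (h2.dvd_mul_left).1 h1
  exact (dvd_normalize_iff).1 h3

private theorem Cva_d5 (M : Matrix (Fin 5) (Fin 5) ℤ) : M.det =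
    M 0 0 * (M 1 1 * (M 2 2 * (M 3 3 * (M 4 4) - M 3 4 * (M 4 3)) - M 2 3 * (M 3 2 * (M 4 4) - M 3 4 * (M 4 2)) + M 2 4 * (M 3 2 * (M 4 3) - M 3 3 * (M 4 2))) - M 1 2 * (M 2 1 * (M 3 3 * (M 4 4) - M 3 4 * (M 4 3)) - M 2 3 * (M 3 1 * (M 4 4) - M 3 4 * (M 4 1)) + M 2 4 * (M 3 1 * (M 4 3) - M 3 3 * (M 4 1))) + M 1 3 * (M 2 1 * (M 3 2 * (M 4 4) - M 3 4 * (M 4 2)) - M 2 2 * (M 3 1 * (M 4 4) - M 3 4 * (M 4 1)) + M 2 4 * (M 3 1 * (M 4 2) - M 3 2 * (M 4 1))) - M 1 4 * (M 2 1 * (M 3 2 * (M 4 3) - M 3 3 * (M 4 2)) - M 2 2 * (M 3 1 * (M 4 3) - M 3 3 * (M 4 1)) + M 2 3 * (M 3 1 * (M 4 2) - M 3 2 * (M 4 1)))) - M 0 1 * (M 1 0 * (M 2 2 * (M 3 3 * (M 4 4) - M 3 4 * (M 4 3)) - M 2 3 * (M 3 2 * (M 4 4) - M 3 4 * (M 4 2)) + M 2 4 * (M 3 2 * (M 4 3) - M 3 3 * (M 4 2))) - M 1 2 * (M 2 0 * (M 3 3 * (M 4 4) - M 3 4 * (M 4 3)) - M 2 3 * (M 3 0 * (M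 4 4) - M 3 4 * (M 4 0)) + M 2 4 * (M 3 0 * (M 4 3) - M 3 3 * (M 4 0))) + M 1 3 * (M 2 0 * (M 3 2 * (M 4 4) - M 3 4 * (M 4 2)) - M 2 2 * (M 3 0 * (M 4 4) - M 3 4 * (M 4 0)) + M 2 4 * (M 3 0 * (M 4 2) - M 3 2 * (M 4 0))) - M 1 4 * (M 2 0 * (M 3 2 * (M 4 3) - M 3 3 * (M 4 2)) - M 2 2 * (M 3 0 * (M 4 3) - M 3 3 * (M 4 0)) + M 2 3 * (M 3 0 * (M 4 2) - M 3 2 * (M 4 0)))) + M 0 2 * (M 1 0 * (M 2 1 * (M 3 3 * (M 4 4) - M 3 4 * (M 4 3)) - M 2 3 * (M 3 1 * (M 4 4) - M 3 4 * (M 4 1)) + M 2 4 * (M 3 1 * (M 4 3) - M 3 3 * (M 4 1))) - M 1 1 * (M 2 0 * (M 3 3 * (M 4 4) - M 3 4 * (M 4 3)) - M 2 3 * (M 3 0 * (M 4 4) - M 3 4 * (M 4 0)) + M 2 4 * (M 3 0 * (M 4 3) - M 3 3 * (M 4 0))) + M 1 3 * (M 2 0 * (M 3 1 * (M 4 4) - M 3 4 * (M 4 1)) - M 2 1 * (M 3 0 * (M 4 4) - M 3 4 * (M 4 0)) + M 2 4 * (M 3 0 * (M 4 1) - M 3 1 * (M 4 0))) - M 1 4 * (M 2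 0 * (M 3 1 * (M 4 3) - M 3 3 * (M 4 1)) - M 2 1 * (M 3 0 * (M 4 3) - M 3 3 * (M 4 0)) + M 2 3 * (M 3 0 * (M 4 1) - M 3 1 * (M 4 0)))) - M 0 3 * (M 1 0 * (M 2 1 * (M 3 2 * (M 4 4) - M 3 4 * (M 4 2)) - M 2 2 * (M 3 1 * (M 4 4) - M 3 4 * (M 4 1)) + M 2 4 * (M 3 1 * (M 4 2) - M 3 2 * (M 4 1))) - M 1 1 * (M 2 0 * (M 3 2 * (M 4 4) - M 3 4 * (M 4 2)) - M 2 2 * (M 3 0 * (M 4 4) - M 3 4 * (M 4 0)) + M 2 4 * (M 3 0 * (M 4 2) - M 3 2 * (M 4 0))) + M 1 2 * (M 2 0 * (M 3 1 * (M 4 4) - M 3 4 * (M 4 1)) - M 2 1 * (M 3 0 * (M 4 4) - M 3 4 * (M 4 0)) + M 2 4 * (M 3 0 * (M 4 1) - M 3 1 * (M 4 0))) - M 1 4 * (M 2 0 * (M 3 1 * (M 4 2) - M 3 2 * (M 4 1)) - M 2 1 * (M 3 0 * (M 4 2) - M 3 2 * (M 4 0)) + M 2 2 * (M 3 0 * (M 4 1) - M 3 1 * (M 4 0)))) + M 0 4 * (M 1 0 * (M 2 1 * (M 3 2 * (M 4 3) - M 3 3 * (M 4 2)) - M 2 2 * (M 3 1 * (M 4 3) - M 3 3 *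 (M 4 1)) + M 2 3 * (M 3 1 * (M 4 2) - M 3 2 * (M 4 1))) - M 1 1 * (M 2 0 * (M 3 2 * (M 4 3) - M 3 3 * (M 4 2)) - M 2 2 * (M 3 0 * (M 4 3) - M 3 3 * (M 4 0)) + M 2 3 * (M 3 0 * (M 4 2) - M 3 2 * (M 4 0))) + M 1 2 * (M 2 0 * (M 3 1 * (M 4 3) - M 3 3 * (M 4 1)) - M 2 1 * (M 3 0 * (M 4 3) - M 3 3 * (M 4 0)) + M 2 3 * (M 3 0 * (M 4 1) - M 3 1 * (M 4 0))) - M 1 3 * (M 2 0 * (M 3 1 * (M 4 2) - M 3 2 * (M 4 1)) - M 2 1 * (M 3 0 * (M 4 2) - M 3 2 * (M 4 0)) + M 2 2 * (M 3 0 * (M 4 1) - M 3 1 * (M 4 0)))) := by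
  have h : M = !![M 0 0, M 0 1, M 0 2, M 0 3, M 0 4; M 1 0, M 1 1, M 1 2, M 1 3, M 1 4; M 2 0, M 2 1, M 2 2, M 2 3, M 2 4; M 3 0, M 3 1, M 3 2, M 3 3, M 3 4; M 4 0, M 4 1, M 4 2, M 4 3, M 4 4] := by
    ext i j
    fin_cases i <;> fin_cases j <;> rfl
  have h2 : ∀ N : Matrix (Fin 5) (Fin 5) ℤ, N = !![M 0 0, M 0 1, M 0 2, M 0 3, M 0 4; M 1 0, M 1 1, M 1 2, M 1 3, M 1 4; M 2 0, M 2 1, M 2 2, M 2 3, M 2 4; M 3 0, M 3 1, M 3 2, M 3 3, M 3 4; M 4 0, M 4 1, M 4 2, M 4 3, M 4 4] → N.det =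
    M 0 0 * (M 1 1 * (M 2 2 * (M 3 3 * (M 4 4) - M 3 4 * (M 4 3)) - M 2 3 * (M 3 2 * (M 4 4) - M 3 4 * (M 4 2)) + M 2 4 * (M 3 2 * (M 4 3) - M 3 3 * (M 4 2))) - M 1 2 * (M 2 1 * (M 3 3 * (M 4 4) - M 3 4 * (M 4 3)) - M 2 3 * (M 3 1 * (M 4 4) - M 3 4 * (M 4 1)) + M 2 4 * (M 3 1 * (M 4 3) - M 3 3 * (M 4 1))) + M 1 3 * (M 2 1 * (M 3 2 * (M 4 4) - M 3 4 * (M 4 2)) - M 2 2 * (M 3 1 * (M 4 4) - M 3 4 * (M 4 1)) + M 2 4 * (M 3 1 * (M 4 2) - M 3 2 * (M 4 1))) - M 1 4 * (M 2 1 * (M 3 2 * (M 4 3) - M 3 3 * (M 4 2)) - M 2 2 * (M 3 1 * (M 4 3) - M 3 3 * (M 4 1)) + M 2 3 * (M 3 1 * (M 4 2) - M 3 2 * (M 4 1)))) - M 0 1 * (M 1 0 * (M 2 2 * (M 3 3 * (M 4 4) - M 3 4 * (M 4 3)) - M 2 3 * (M 3 2 * (M 4 4) - M 3 4 * (M 4 2)) + M 2 4 * (M 3 2 * (M 4 3) - M 3 3 * (M 4 2))) - M 1 2 * (M 2 0 * (M 3 3 * (M 4 4) - M 3 4 * (M 4 3)) - M 2 3 * (M 3 0 * (M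 4 4) - M 3 4 * (M 4 0)) + M 2 4 * (M 3 0 * (M 4 3) - M 3 3 * (M 4 0))) + M 1 3 * (M 2 0 * (M 3 2 * (M 4 4) - M 3 4 * (M 4 2)) - M 2 2 * (M 3 0 * (M 4 4) - M 3 4 * (M 4 0)) + M 2 4 * (M 3 0 * (M 4 2) - M 3 2 * (M 4 0))) - M 1 4 * (M 2 0 * (M 3 2 * (M 4 3) - M 3 3 * (M 4 2)) - M 2 2 * (M 3 0 * (M 4 3) - M 3 3 * (M 4 0)) + M 2 3 * (M 3 0 * (M 4 2) - M 3 2 * (M 4 0)))) + M 0 2 * (M 1 0 * (M 2 1 * (M 3 3 * (M 4 4) - M 3 4 * (M 4 3)) - M 2 3 * (M 3 1 * (M 4 4) - M 3 4 * (M 4 1)) + M 2 4 * (M 3 1 * (M 4 3) - M 3 3 * (M 4 1))) - M 1 1 * (M 2 0 * (M 3 3 * (M 4 4) - M 3 4 * (M 4 3)) - M 2 3 * (M 3 0 * (M 4 4) - M 3 4 * (M 4 0)) + M 2 4 * (M 3 0 * (M 4 3) - M 3 3 * (M 4 0))) + M 1 3 * (M 2 0 * (M 3 1 * (M 4 4) - M 3 4 * (M 4 1)) - M 2 1 * (M 3 0 * (M 4 4) - M 3 4 * (M 4 0)) + M 2 4 * (M 3 0 * (M 4 1) - M 3 1 * (M 4 0))) - M 1 4 * (M 2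 0 * (M 3 1 * (M 4 3) - M 3 3 * (M 4 1)) - M 2 1 * (M 3 0 * (M 4 3) - M 3 3 * (M 4 0)) + M 2 3 * (M 3 0 * (M 4 1) - M 3 1 * (M 4 0)))) - M 0 3 * (M 1 0 * (M 2 1 * (M 3 2 * (M 4 4) - M 3 4 * (M 4 2)) - M 2 2 * (M 3 1 * (M 4 4) - M 3 4 * (M 4 1)) + M 2 4 * (M 3 1 * (M 4 2) - M 3 2 * (M 4 1))) - M 1 1 * (M 2 0 * (M 3 2 * (M 4 4) - M 3 4 * (M 4 2)) - M 2 2 * (M 3 0 * (M 4 4) - M 3 4 * (M 4 0)) + M 2 4 * (M 3 0 * (M 4 2) - M 3 2 * (M 4 0))) + M 1 2 * (M 2 0 * (M 3 1 * (M 4 4) - M 3 4 * (M 4 1)) - M 2 1 * (M 3 0 * (M 4 4) - M 3 4 * (M 4 0)) + M 2 4 * (M 3 0 * (M 4 1) - M 3 1 * (M 4 0))) - M 1 4 * (M 2 0 * (M 3 1 * (M 4 2) - M 3 2 * (M 4 1)) - M 2 1 * (M 3 0 * (M 4 2) - M 3 2 * (M 4 0)) + M 2 2 * (M 3 0 * (M 4 1) - M 3 1 * (M 4 0)))) + M 0 4 * (M 1 0 * (M 2 1 * (M 3 2 * (M 4 3) - M 3 3 * (M 4 2)) - M 2 2 * (M 3 1 * (M 4 3) - M 3 3 *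 (M 4 1)) + M 2 3 * (M 3 1 * (M 4 2) - M 3 2 * (M 4 1))) - M 1 1 * (M 2 0 * (M 3 2 * (M 4 3) - M 3 3 * (M 4 2)) - M 2 2 * (M 3 0 * (M 4 3) - M 3 3 * (M 4 0)) + M 2 3 * (M 3 0 * (M 4 2) - M 3 2 * (M 4 0))) + M 1 2 * (M 2 0 * (M 3 1 * (M 4 3) - M 3 3 * (M 4 1)) - M 2 1 * (M 3 0 * (M 4 3) - M 3 3 * (M 4 0)) + M 2 3 * (M 3 0 * (M 4 1) - M 3 1 * (M 4 0))) - M 1 3 * (M 2 0 * (M 3 1 * (M 4 2) - M 3 2 * (M 4 1)) - M 2 1 * (M 3 0 * (M 4 2) - M 3 2 * (M 4 0)) + M 2 2 * (M 3 0 * (M 4 1) - M 3 1 * (M 4 0)))) := by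
    intro N hN
    rw [hN, Matrix.det_succ_row_zero]
    simp [Fin.sum_univ_succ, Matrix.det_succ_row_zero, Fin.succAbove]
    ring
  exact h2 M h

theorem cva {P : Sp} (hq : Qd P) (h0 : P 0 ≠ 0)
    (hp : ∀ l : ℕ, l.Prime → ¬ ∀ i : Fin 12, (l : ℤ) ∣ P i)
    (X : Fin 5 → Fin 10 → ℤ) (hX : ∀ a, InE P (X a)) :
    (P 0) ^ 2 ∣ (Matrix.of fun a k : Fin 5 => X a (wi k)).det := by
  have key := Cva_det X hX
  obtain ⟨D, hD⟩ : ∃ D : ℤ, D = (Matrix.of fun a k : Fin 5 => X a (wi k)).det := ⟨_, rfl⟩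
  rw [← hD] at key ⊢
  have two : ∀ (I : Fin 5 → Bool) (r : ℤ), (Cva_U I (B_c P)).det = r →
      (∏ l, if I l then P 0 else 1) = P 0 ^ 2 → P 0 ^ 2 ∣ r * D := by
    intro I r h1 h2
    have h3 := key I
    rw [h1, h2] at h3
    rwa [mul_comm]
  have four : ∀ (I : Fin 5 → Bool) (r : ℤ), (Cva_U I (B_c P)).det = (P 0 * r) ^ 2 →
      (∏ l, if I l then P 0 else 1) = P 0 ^ 4 → P 0 ^ 2 ∣ r ^ 2 * D := by
    intro I r h1 h2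
    have h3 := key I
    rw [h1, h2] at h3
    obtain ⟨t, ht⟩ := h3
    refine ⟨t, mul_left_cancel₀ (pow_ne_zero 2 h0) ?_⟩
    linear_combination ht
  refine Cva_prime hp fun j => ?_
  have hh2 := hq.h2
  have hh6 := hq.h6
  have hh9 := hq.h9
  fin_cases j
  · exact Dvd.intro _ rfl
  · refine two ![true, false, true, false, false] (P 1 ^ 2) ?_ ?_
    · rw [Cva_d5]
      simp [Cva_U, B_c]
      try ring
    · simp [Fin.prod_univ_succ]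
      try ring
  · refine four ![true, false, true, true, true] (P 2) ?_ ?_
    · rw [Cva_d5]
      simp [Cva_U, B_c]
      linear_combination (-1 : ℤ) * ((P 1 * -(P 1) - P 10 * P 6 + P 9 * P 7) - P 0 * P 2) * hh2
    · simp [Fin.prod_univ_succ]
      try ring
  · refine two ![false, true, true, false, false] (P 3 ^ 2) ?_ ?_
    · rw [Cva_d5]
      simp [Cva_U, B_c]
      try ring
    · simp [Fin.prod_univ_succ]
      try ring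
  · refine two ![true, true, false, false, false] (P 4 ^ 2) ?_ ?_
    · rw [Cva_d5]
      simp [Cva_U, B_c]
      try ring
    · simp [Fin.prod_univ_succ]
      try ring
  · refine four ![true, true, false, true, true] (P 5) ?_ ?_
    · rw [Cva_d5]
      simp [Cva_U, B_c]
      linear_combination ((-(P 4 * P 1) - P 10 * P 7 + P 9 * P 8) - P 0 * P 5) * hh6
    · simp [Fin.prod_univ_succ]
      try ring
  · refine two ![false, false, true, false, true] (P 6 ^ 2) ?_ ?_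
    · rw [Cva_d5]
      simp [Cva_U, B_c]
      try ring
    · simp [Fin.prod_univ_succ]
      try ring
  · refine two ![false, true, false, false, true] (P 7 ^ 2) ?_ ?_
    · rw [Cva_d5]
      simp [Cva_U, B_c]
      try ring
    · simp [Fin.prod_univ_succ]
      try ring
  · refine two ![false, true, false, true, false] (P 8 ^ 2) ?_ ?_
    · rw [Cva_d5]
      simp [Cva_U, B_c]
      try ring
    · simp [Fin.prod_univ_succ]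
      try ring
  · refine two ![true, false, false, false, true] (P 9 ^ 2) ?_ ?_
    · rw [Cva_d5]
      simp [Cva_U, B_c]
      try ring
    · simp [Fin.prod_univ_succ]
      try ring
  · refine two ![true, false, false, true, false] (P 10 ^ 2) ?_ ?_
    · rw [Cva_d5]
      simp [Cva_U, B_c]
      try ring
    · simp [Fin.prod_univ_succ]
      try ring
  · refine four ![true, true, true, true, false] (P 11) ?_ ?_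
    · rw [Cva_d5]
      simp [Cva_U, B_c]
      linear_combination ((P 4 * P 7 - P 1 * P 8 - P 10 * P 3) - P 0 * P 11) * hh9
    · simp [Fin.prod_univ_succ]
      try ring

private theorem Cva_b4 {c z p1 p2 p3 p4 w1 w2 w3 w4 : ℤ} {A M : ℝ} (hc : c ≠ 0)
    (h : c * z = p1 * w1 + p2 * w2 + p3 * w3 + p4 * w4)
    (h1 : |(p1 : ℝ)| ≤ A * |(c : ℝ)|) (h2 : |(p2 : ℝ)| ≤ A * |(c : ℝ)|)
    (h3 : |(p3 : ℝ)| ≤ A * |(c : ℝ)|) (h4 : |(p4 : ℝ)| ≤ A * |(c : ℝ)|)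
    (g1 : |(w1 : ℝ)| ≤ M) (g2 : |(w2 : ℝ)| ≤ M) (g3 : |(w3 : ℝ)| ≤ M) (g4 : |(w4 : ℝ)| ≤ M) :
    |(z : ℝ)| ≤ 4 * A * M := by
  have hc0 : 0 < |(c : ℝ)| := abs_pos.2 (by exact_mod_cast hc)
  have e : (c : ℝ) * z = p1 * w1 + p2 * w2 + p3 * w3 + p4 * w4 := by exact_mod_cast h
  have hm : ∀ p w : ℤ, |(p : ℝ)| ≤ A * |(c : ℝ)| → |(w : ℝ)| ≤ M →
      |(p : ℝ) * w| ≤ A * |(c : ℝ)| * M := by
    intro p w hp hw
    rw [abs_mul]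
    exact mul_le_mul hp hw (abs_nonneg _) ((abs_nonneg _).trans hp)
  have h5 : |(c : ℝ)| * |(z : ℝ)| ≤ |(c : ℝ)| * (4 * A * M) := by
    rw [← abs_mul, e]
    have a1 := abs_add_le ((p1 : ℝ) * w1 + p2 * w2 + p3 * w3) (p4 * w4)
    have a2 := abs_add_le ((p1 : ℝ) * w1 + p2 * w2) (p3 * w3)
    have a3 := abs_add_le ((p1 : ℝ) * w1) (p2 * w2)
    have b1 := hm p1 w1 h1 g1
    have b2 := hm p2 w2 h2 g2
    have b3 := hm p3 w3 h3 g3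
    have b4 := hm p4 w4 h4 g4
    nlinarith
  exact le_of_mul_le_mul_left h5 hc0

/-- the other coordinates are bounded by the `w` coordinates -/
theorem cva_bd {P : Sp} (h0 : P 0 ≠ 0) {x : Fin 10 → ℤ} (hx : InE P x) {A M : ℝ}
    (hA : ∀ i, |(P i : ℝ)| ≤ A * |(P 0 : ℝ)|) (hM : ∀ k, |(x (wi k) : ℝ)| ≤ M) (hA1 : 1 ≤ A) :
    ∀ j, |(x j : ℝ)| ≤ 4 * A * M := by
  have m0 : |(x 0 : ℝ)| ≤ M := hM 0
  have m1 : |(x 1 : ℝ)| ≤ M := hM 1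
  have m5 : |(x 5 : ℝ)| ≤ M := hM 2
  have m6 : |(x 6 : ℝ)| ≤ M := hM 3
  have m8 : |(x 8 : ℝ)| ≤ M := hM 4
  have hM0 : 0 ≤ M := (abs_nonneg _).trans m0
  have hMM : M ≤ 4 * A * M := by nlinarith
  have ng : ∀ t : ℤ, ∀ {B : ℝ}, |(t : ℝ)| ≤ B → |((-t : ℤ) : ℝ)| ≤ B := by
    intro t B h
    push_cast
    rwa [abs_neg]
  intro j
  fin_cases j
  · exact m0.trans hMM
  · exact m1.trans hMM
  · exact Cva_b4 (p1 := P 1) (w1 := x 5) (p2 := P 4) (w2 := x 1) (p3 := P 9) (w3 := x 8)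
      (p4 := P 10) (w4 := -x 6) h0 (by have := hx.e8; show P 0 * x 2 = _; linear_combination -this)
      (hA _) (hA _) (hA _) (hA _) m5 m1 m8 (ng _ m6)
  · exact Cva_b4 (p1 := P 3) (w1 := -x 5) (p2 := P 4) (w2 := x 0) (p3 := P 7) (w3 := x 8)
      (p4 := P 8) (w4 := -x 6) h0 (by have := hx.e3; show P 0 * x 3 = _; linear_combination this)
      (hA _) (hA _) (hA _) (hA _) (ng _ m5) m0 m8 (ng _ m6)
  · exact Cva_b4 (p1 := P 1) (w1 := x 0) (p2 := P 3) (w2 := x 1) (p3 := P 7) (w3 := -x 6)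
      (p4 := P 6) (w4 := x 8) h0 (by have := hx.e10; show P 0 * x 4 = _; linear_combination this)
      (hA _) (hA _) (hA _) (hA _) m0 m1 (ng _ m6) m8
  · exact m5.trans hMM
  · exact m6.trans hMM
  · exact Cva_b4 (p1 := P 1) (w1 := x 6) (p2 := P 7) (w2 := x 1) (p3 := P 9) (w3 := -x 0)
      (p4 := P 6) (w4 := x 5) h0 (by have := hx.e2; show P 0 * x 7 = _; linear_combination -this)
      (hA _) (hA _) (hA _) (hA _) m6 m1 (ng _ m0) m5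
  · exact m8.trans hMM
  · exact Cva_b4 (p1 := P 1) (w1 := x 8) (p2 := P 7) (w2 := x 5) (p3 := P 8) (w3 := x 1)
      (p4 := P 10) (w4 := -x 0) h0 (by have := hx.e6; show P 0 * x 9 = _; linear_combination -this)
      (hA _) (hA _) (hA _) (hA _) m8 m5 m1 (ng _ m0)

end Pool.Agent.PP5LE
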