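import Pool.Agent.PP5S.DPa
import Pool.Agent.PP5S.Sh3

/-!
# LB5, section E: definitions

`InQ`: primitive pure points of the box of height `16 y` (the field `nd` of `InP` is not assumed).
`Prs`: the pairs `(x, P)` which sections A-D produce.
-/

set_option autoImplicit false

namespace Pool.Agent.PP5LE

open Matrix Finset Pool.Agent.PP5S

/-- primitive pure points of the box -/
structure InQ (y t1 t2 : ℝ) (P : PP5.Sp) : Prop where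
  qd : PP5.Qd P
  bx : ∀ i : Fin 12, |(P i : ℝ)| ≤ 16 * y * PP5.sg t1 t2 i
  pr : ∀ l : ℕ, l.Prime → ¬ ∀ i : Fin 12, (l : ℤ) ∣ P i

/-- `x` is regular: `L_x` has rank four and `S(x)` has rank at least three -/
structure Reg (x : Fin 10 → ℤ) : Prop where
  r4 : Module.finrank ℤ (PP5L.Lx x) = 4
  r3 : (PP5L.SS x).adjugate ≠ 0

/-- a pair `(x, P)` -/
structure Prs (c1 B y : ℝ) (x : Fin 10 → ℤ) (P : PP5.Sp) : Prop where
  ie : PP5.InE P x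
  px : ∀ p : ℕ, p.Prime → ∃ j, ¬ (p : ℤ) ∣ x j
  ff : PP5L.FF x = 0
  x0 : x 0 ≠ 0
  nsq : ¬ IsSquare (PP5L.SS x).det
  xb : ∀ j, |(x j : ℝ)| ≤ B * y ^ (2 / 5 : ℝ)
  qd : PP5.Qd P
  pr : ∀ l : ℕ, l.Prime → ¬ ∀ i : Fin 12, (l : ℤ) ∣ P i
  bx : ∀ i : Fin 12, |(P i : ℝ)| ≤ 16 * y
  lo : c1 * y ≤ |(P 0 : ℝ)|
  dn : ¬ IsSquare (PP5.Df P)

theorem sg_one (i : Fin 12) : PP5.sg 1 1 i = 1 := by
  fin_cases i <;> simp [PP5.sg]

theorem tx_one (j : Fin 10) : PP5.tx 1 1 j = 1 := by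
  fin_cases j <;> simp [PP5.tx]

theorem Prs.inq {c1 B y : ℝ} {x : Fin 10 → ℤ} {P : PP5.Sp} (h : Prs c1 B y x P) : InQ y 1 1 P :=
  ⟨h.qd, fun i => by rw [sg_one, mul_one]; exact h.bx i, h.pr⟩

end Pool.Agent.PP5LE
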