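import Pool.Agent.PP5LE.Defs
import Pool.Agent.PP5Z.Fin

/-!
# LB5, section E: `D(x) = 0` (copy of PP5Z/Fin with `InQ` instead of `InP`)
-/

set_option autoImplicit false

namespace Pool.Agent.PP5LE

open Matrix Finset Pool.Agent.PP5 Pool.Agent.PP5B Pool.Agent.PP5S Pool.Agent.PP5P Pool.Agent.PP5Z

/-- (Z) without `nd` -/
def HZq (C1 : ℝ) : Prop := ∃ d0 η y0 C : ℝ, 0 < d0 ∧ 0 < η ∧ 1 ≤ y0 ∧ 0 ≤ C ∧
  ∀ y t1 t2 : ℝ, y0 ≤ y → 1 ≤ t1 → 1 ≤ t2 → t1 * t2 ≤ y ^ d0 → ∀ S : Finset PP5.Sp,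
  (∀ P ∈ S, InQ y t1 t2 P ∧ ∃ x : Fin 10 → ℤ,
    (∀ p : ℕ, p.Prime → ∃ j, ¬ (p : ℤ) ∣ x j) ∧ PP5L.FF x = 0 ∧ (PP5L.SS x).det = 0 ∧
    Shx t1 t2 P x ∧ Module.finrank ℤ (PP5L.Lx x) = 4 ∧ (PP5L.SS x).adjugate ≠ 0 ∧
    ∀ j, |(x j : ℝ)| ≤ C1 * y ^ (2 / 5 : ℝ) * PP5.tx t1 t2 j) →
  (S.card : ℝ) ≤ C * y ^ (4 - η)

theorem hzq (C1 : ℝ) : HZq C1 := by
  classical
  obtain ⟨Cx, hCx, hXE⟩ := XEx_exists
  obtain ⟨c1, d2, η, y2, K, hc1, hd2, hη, hy2, hK, hsm⟩ := sm Cx (max 1 C1) hCx (le_max_left _ _)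
  obtain ⟨aN, CN, haN, hCN, HN⟩ := PP5G.hln Cx
  set d5 : ℝ := c1 / (2 * (aN + 1)) with hd5
  have hd5p : 0 < d5 := by positivity
  set y5 : ℝ := CN ^ (2 / c1) with hy5
  have hy5one : 1 ≤ y5 := Real.one_le_rpow hCN (by positivity)
  refine ⟨min d2 d5, η, max y2 y5, K, lt_min hd2 hd5p, hη, hy2.trans (le_max_left _ _), hK, ?_⟩
  intro y t1 t2 hy h1 h2 ht S hS
  have hyb : y2 ≤ y := (le_max_left _ _).trans hy
  have hyd : y5 ≤ y := (le_max_right _ _).trans hy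
  have hyone : 1 ≤ y := hy2.trans hyb
  have hy0 : 0 < y := by linarith
  have h10 : 0 < t1 := by linarith
  have h20 : 0 < t2 := by linarith
  have htd2 : t1 * t2 ≤ y ^ d2 :=
    ht.trans (Real.rpow_le_rpow_of_exponent_le hyone (min_le_left _ _))
  have htd5 : t1 * t2 ≤ y ^ d5 :=
    ht.trans (Real.rpow_le_rpow_of_exponent_le hyone (min_le_right _ _))
  have hCNy : CN * (t1 * t2) ^ aN ≤ y ^ c1 := by
    have q1 : CN ≤ y ^ (c1 / 2) := by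
      have q2 : CN = y5 ^ (c1 / 2) := by
        rw [hy5, ← Real.rpow_mul (by linarith)]
        have : 2 / c1 * (c1 / 2) = 1 := by field_simp
        rw [this, Real.rpow_one]
      rw [q2]
      exact Real.rpow_le_rpow (by linarith) hyd (by positivity)
    have q3 : (t1 * t2) ^ aN ≤ y ^ (c1 / 2) := by
      calc (t1 * t2) ^ aN ≤ (y ^ d5) ^ aN :=
            Real.rpow_le_rpow (by positivity) htd5 haN
        _ = y ^ (d5 * aN) := by rw [← Real.rpow_mul hy0.le]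
        _ ≤ y ^ (c1 / 2) := by
            apply Real.rpow_le_rpow_of_exponent_le hyone
            rw [hd5, div_mul_eq_mul_div, div_le_div_iff₀ (by positivity) (by norm_num)]
            nlinarith
    calc CN * (t1 * t2) ^ aN ≤ y ^ (c1 / 2) * y ^ (c1 / 2) :=
          mul_le_mul q1 q3 (by positivity) (by positivity)
      _ = y ^ c1 := by rw [← Real.rpow_add hy0]; congr 1; ring
  -- the vectors `x`
  have hex : ∀ P : PP5.Sp, ∃ x : Fin 10 → ℤ, P ∈ S →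
      ((∀ p : ℕ, p.Prime → ∃ j, ¬ (p : ℤ) ∣ x j) ∧ PP5L.FF x = 0 ∧ (PP5L.SS x).det = 0 ∧
      Shx t1 t2 P x ∧ Module.finrank ℤ (PP5L.Lx x) = 4 ∧ (PP5L.SS x).adjugate ≠ 0 ∧
      ∀ j, |(x j : ℝ)| ≤ C1 * y ^ (2 / 5 : ℝ) * PP5.tx t1 t2 j) := by
    intro P
    by_cases hP : P ∈ S
    · obtain ⟨x, hx⟩ := (hS P hP).2
      exact ⟨x, fun _ => hx⟩
    · exact ⟨0, fun h => absurd h hP⟩
  choose xf hxf using hex
  -- the data
  have hdat : ∀ x : Fin 10 → ℤ, ∃ (T : ℝ) (b : Fin 4 → PP5.Sp) (G : Matrix (Fin 4) (Fin 4) ℤ)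
      (l : Fin 4 → ℝ), ((∀ p : ℕ, p.Prime → ∃ j, ¬ (p : ℤ) ∣ x j) ∧ PP5L.FF x = 0 ∧
      Module.finrank ℤ (PP5L.Lx x) = 4) → XE Cx t1 t2 T x b G l := by
    intro x
    by_cases hx : (∀ p : ℕ, p.Prime → ∃ j, ¬ (p : ℤ) ∣ x j) ∧ PP5L.FF x = 0 ∧
      Module.finrank ℤ (PP5L.Lx x) = 4
    · obtain ⟨T, b, G, l, h, -⟩ := hXE t1 t2 h1 h2 x hx.1 hx.2.1 hx.2.2
      exact ⟨T, b, G, l, fun _ => h⟩
    · exact ⟨0, fun _ => 0, 0, fun _ => 0, fun h => absurd h hx⟩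
  choose Tf bf Gf lf hD using hdat
  have hX : ∀ P ∈ S, XE Cx t1 t2 (Tf (xf P)) (xf P) (bf (xf P)) (Gf (xf P)) (lf (xf P)) := by
    intro P hP
    obtain ⟨a1, a2, -, -, a5, -⟩ := hxf P hP
    exact hD _ ⟨a1, a2, a5⟩
  -- the coordinates of the points
  have hex2 : ∀ P : PP5.Sp, ∃ n : Fin 4 → ℤ, P ∈ S →
      (∀ a, P a = ∑ i, n i * bf (xf P) i a) ∧
      (∀ i, |(n i : ℝ)| * lf (xf P) i ≤ 16 * Cx * y) ∧
      Pr4 n ∧ n ⬝ᵥ (Gf (xf P) *ᵥ n) = 0 := by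
    intro P
    by_cases hP : P ∈ S
    · have hIn := (hS P hP).1
      obtain ⟨n, n1, n2⟩ := (hX P hP).span P (16 * y) (hxf P hP).2.2.2.1.ie hIn.bx
      refine ⟨n, fun _ => ⟨n1, ?_, pr4_of hIn.pr n1, ?_⟩⟩
      · intro i
        refine (n2 i).trans (le_of_eq ?_)
        ring
      · apply (hX P hP).quad
        have e : (fun a => ∑ i, n i * bf (xf P) i a) = P := (funext n1).symm
        rw [e]; exact hIn.qd
    · exact ⟨0, fun h => absurd h hP⟩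
  choose nf hn using hex2
  rw [card_fib (S := S) (xf := xf) (nf := nf) (bf := bf) (fun P hP => (hn P hP).1)]
  refine hsm y t1 t2 hyb h1 h2 htd2 Tf bf Gf lf (S.image xf)
    (fun x => (S.filter (fun P => xf P = x)).image nf) ?_
  intro x hx
  obtain ⟨P0, hP0, hxP0⟩ := Finset.mem_image.1 hx
  obtain ⟨a1, a2, a3, a4, a5, hadj, a6⟩ := hxf P0 hP0
  have hX0 := hX P0 hP0
  have hT : Tf (xf P0) ≤ max 1 C1 * y ^ (2 / 5 : ℝ) := by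
    obtain ⟨j, hj⟩ := hX0.Tge
    have hw := PP5.tx_pos h10 h20 j
    have q1 : Tf (xf P0) ≤ C1 * y ^ (2 / 5 : ℝ) :=
      le_of_mul_le_mul_right (hj.trans (a6 j)) hw
    exact q1.trans (mul_le_mul_of_nonneg_right (le_max_right _ _) (by positivity))
  rw [hxP0] at a1 a2 a3 hX0 hadj hT
  refine ⟨a1, a2, a3, hadj, hX0, hT, ?_⟩
  intro v hv
  obtain ⟨P, hP, rfl⟩ := Finset.mem_image.1 hv
  obtain ⟨hPS, hPx⟩ := Finset.mem_filter.1 hP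
  obtain ⟨n1, n2, n3, n4⟩ := hn P hPS
  have hsh := (hxf P hPS).2.2.2.1
  rw [hPx] at n1 n2 n4 hsh
  refine ⟨⟨n3, n4, n2⟩, ?_⟩
  intro w w1 w2 w3
  obtain ⟨i, j, hij⟩ := HN t1 t2 (Tf x) x (bf x) (Gf x) (lf x) P (nf P) w h1 h2 hX0
    (hS P hPS).1.qd n1 hsh n4 w1 w2 w3
  refine ⟨i, j, hij.trans ?_⟩
  have hli := (hX0.lp i).le
  have hlj := (hX0.lp j).le
  gcongr

end Pool.Agent.PP5LE
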