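import Pool.Agent.PP5Z.Px
import Pool.Agent.PP5P.Cls

/-!
# LB5, section E, `D(x) = 0`: one `x`, the bound `y^2`, and the sum over one dyadic class
-/

set_option autoImplicit false

namespace Pool.Agent.PP5LE

open Matrix Finset Pool.Agent.PP5 Pool.Agent.PP5B Pool.Agent.PP5S Pool.Agent.PP5P Pool.Agent.PP5Z

/-- all pairs -/
theorem Hza_pair {l : Fin 4 → ℝ} (h : ∀ i, 1 ≤ l i) {i j : Fin 4} (hij : i ≠ j) :
    l i * l j ≤ ∏ k, l k := by
  have e0 := h 0
  have e1 := h 1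
  have e2 := h 2
  have e3 := h 3
  have key : ∀ a b c d : ℝ, 1 ≤ a → 1 ≤ b → 1 ≤ c → 1 ≤ d → a * b ≤ a * b * c * d := by
    intro a b c d ha hb hc hd
    have h1 : 1 ≤ c * d := by nlinarith
    have h2 : 0 < a * b := by positivity
    nlinarith
  rw [Fin.prod_univ_four]
  fin_cases i <;> fin_cases j <;> first | exact absurd rfl hij | skip
  · exact key _ _ _ _ e0 e1 e2 e3
  · exact (key _ _ _ _ e0 e2 e1 e3).trans (le_of_eq (by ring))
  · exact (key _ _ _ _ e0 e3 e1 e2).trans (le_of_eq (by ring))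
  · exact (key _ _ _ _ e1 e0 e2 e3).trans (le_of_eq (by ring))
  · exact (key _ _ _ _ e1 e2 e0 e3).trans (le_of_eq (by ring))
  · exact (key _ _ _ _ e1 e3 e0 e2).trans (le_of_eq (by ring))
  · exact (key _ _ _ _ e2 e0 e1 e3).trans (le_of_eq (by ring))
  · exact (key _ _ _ _ e2 e1 e0 e3).trans (le_of_eq (by ring))
  · exact (key _ _ _ _ e2 e3 e0 e1).trans (le_of_eq (by ring))
  · exact (key _ _ _ _ e3 e0 e1 e2).trans (le_of_eq (by ring))
  · exact (key _ _ _ _ e3 e1 e0 e2).trans (le_of_eq (by ring))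
  · exact (key _ _ _ _ e3 e2 e0 e1).trans (le_of_eq (by ring))

/-- the bound `y^2` for one `x` -/
theorem px3 (Cx : ℝ) (hCx : 1 ≤ Cx) : ∃ C2 y0 : ℝ, 1 ≤ C2 ∧ 1 ≤ y0 ∧
    ∀ y : ℝ, y0 ≤ y →
    ∀ (T : ℝ) (x : Fin 10 → ℤ) (b : Fin 4 → PP5.Sp) (G : Matrix (Fin 4) (Fin 4) ℤ) (l : Fin 4 → ℝ),
    (∀ p : ℕ, p.Prime → ∃ j, ¬ (p : ℤ) ∣ x j) → PP5L.FF x = 0 → (PP5L.SS x).det = 0 →
    (PP5L.SS x).adjugate ≠ 0 → XE Cx 1 1 T x b G l → T ≤ y ^ (2 / 5 : ℝ) →
    ∀ V : Finset (Fin 4 → ℤ), (∀ v ∈ V, Zv G l (16 * Cx * y) v ∧ NI y (1 / 1000) T G l v) →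
      (V.card : ℝ) ≤ C2 * y ^ (1 / 500 : ℝ) * y ^ 2 := by
  have hCx0 : 0 < Cx := by linarith
  obtain ⟨C, hC, hnx⟩ := nx (1 / 4000) (by norm_num) Cx hCx
  have hC00 : 0 < C := by linarith
  refine ⟨C * (1 + 512 * Cx ^ 2), 16 * Cx, ?_, by linarith, ?_⟩
  · have h1 : 0 ≤ 512 * Cx ^ 2 := by positivity
    exact one_le_mul_of_one_le_of_one_le hC (by linarith)
  intro y hy T x b G l hpr hFF hdet hadj hXE hT V hV
  have hy1 : 1 ≤ y := by linarith
  have hy0 : 0 < y := by linarith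
  obtain ⟨s, hs⟩ : ∃ s : ℝ, s = y ^ (1 / 1000 : ℝ) := ⟨_, rfl⟩
  have hs1 : 1 ≤ s := by rw [hs]; exact Real.one_le_rpow hy1 (by norm_num)
  have hs0 : 0 < s := by linarith
  have hys : y = s ^ 1000 := by
    rw [hs, ← Real.rpow_natCast, ← Real.rpow_mul hy0.le]
    norm_num
  have hy25 : y ^ (2 / 5 : ℝ) = s ^ 400 := by
    rw [hs, ← Real.rpow_natCast, ← Real.rpow_mul hy0.le]
    norm_num
  have hy500 : y ^ (1 / 500 : ℝ) = s ^ 2 := by
    rw [hs, ← Real.rpow_natCast, ← Real.rpow_mul hy0.le]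
    norm_num
  rw [hy25] at hT
  rw [hy500]
  have hT0 := hXE.T0
  have hx0 : x ≠ 0 := by
    rintro rfl
    obtain ⟨j, hj⟩ := hpr 2 Nat.prime_two
    exact hj (dvd_zero _)
  have hTlo : 1 ≤ T := by
    have := T_lo hXE le_rfl le_rfl hx0
    simpa using this
  have hl1 : ∀ i, 1 ≤ l i := by
    intro i
    have := l_lo hXE le_rfl le_rfl i
    simpa using this
  have hyC : 16 * Cx ≤ s ^ 1000 := by rw [← hys]; exact hy
  have hc1 : Cx ≤ s ^ 1000 := by linarith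
  have hY1 : (1 : ℝ) ≤ s ^ 4000 := one_le_pow₀ hs1
  have hY0 : (0 : ℝ) < s ^ 4000 := by linarith
  have hT4000 : T ≤ s ^ 4000 := hT.trans (pow_le_pow_right₀ hs1 (by norm_num))
  have hT1 : 1 / s ^ 4000 ≤ T := by
    rw [div_le_iff₀ hY0]
    exact one_le_mul_of_one_le_of_one_le hTlo hY1
  have hT5 : T ^ 5 ≤ y ^ 2 := by
    calc T ^ 5 ≤ (s ^ 400) ^ 5 := pow_le_pow_left₀ hT0.le hT 5
      _ = y ^ 2 := by rw [hys]; ring
  have hly : ∀ i, l i ≤ s ^ 4000 := by
    intro i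
    calc l i ≤ Cx * T ^ 4 * (1 * 1) ^ 6 := l_up hXE hCx le_rfl le_rfl i
      _ = Cx * T ^ 4 := by ring
      _ ≤ s ^ 1000 * (s ^ 400) ^ 4 := by gcongr
      _ = s ^ 2600 := by ring
      _ ≤ s ^ 4000 := pow_le_pow_right₀ hs1 (by norm_num)
  obtain ⟨H, hH⟩ : ∃ H : ℝ, H = 16 * Cx * y := ⟨_, rfl⟩
  have hH0 : 0 < H := by rw [hH]; positivity
  have hHY : H ≤ s ^ 4000 := by
    rw [hH, hys]
    calc 16 * Cx * s ^ 1000 ≤ s ^ 1000 * s ^ 1000 := mul_le_mul_of_nonneg_right hyC (by positivity)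
      _ = s ^ 2000 := by rw [← pow_add]
      _ ≤ s ^ 4000 := pow_le_pow_right₀ hs1 (by norm_num)
  have hT31 : 1 ≤ T ^ 3 := one_le_pow₀ hTlo
  have hW : 1 / s ^ 4000 ≤ T ^ 3 / s := by
    rw [div_le_div_iff₀ hY0 hs0]
    calc 1 * s ≤ T ^ 3 * s := mul_le_mul_of_nonneg_right hT31 hs0.le
      _ ≤ T ^ 3 * s ^ 4000 := mul_le_mul_of_nonneg_left (le_self_pow₀ hs1 (by norm_num)) (by positivity)
  have hlam : 0 < ∏ i, l i := Finset.prod_pos fun i _ => hXE.lp i
  have hLam2 : (∏ i, l i) ^ 2 ≤ Cx * H ^ 2 * T ^ 3 := by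
    calc (∏ i, l i) ^ 2 ≤ (Cx * T ^ 4) ^ 2 := pow_le_pow_left₀ hlam.le hXE.prod 2
      _ = Cx ^ 2 * T ^ 5 * T ^ 3 := by ring
      _ ≤ Cx ^ 2 * y ^ 2 * T ^ 3 := by gcongr
      _ = 1 * (Cx ^ 2 * y ^ 2 * T ^ 3) := by ring
      _ ≤ (256 * Cx) * (Cx ^ 2 * y ^ 2 * T ^ 3) :=
          mul_le_mul_of_nonneg_right (by linarith) (by positivity)
      _ = _ := by rw [hH]; ring
  have hGdet := XE_det hCx le_rfl le_rfl hpr hFF hXE hdet
  have hGadj := XE_adj hpr hFF hXE hadj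
  obtain ⟨p, hp, hple, hpge⟩ := p_exists hT0 hXE.lp hGadj
  obtain ⟨A, hA⟩ : ∃ A : ℝ, A = (PP5N.mi2 G : ℝ) := ⟨_, rfl⟩
  have hA0 : 0 ≤ A := by rw [hA]; exact Nat.cast_nonneg _
  have hys1 : y ^ (1 / 1000 : ℝ) = s := hs.symm
  obtain ⟨m1, -⟩ := hnx G hXE.sym hXE.ev hGdet hGadj l T (s ^ 4000) H (T ^ 3 / s) A p hY1 hXE.lp hly hT1
    hT4000 hH0 hHY hW hLam2 hXE.gram (fun n hn => by rw [hA]; exact mi2_ge hGadj n hn) hp hpge V (by
      intro v hv
      obtain ⟨hz, hni⟩ := hV v hv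
      refine ⟨hz.pr, hz.q, by rw [hH]; exact hz.bx, fun w hw1 hw2 hw3 => ?_⟩
      obtain ⟨i, j, hij⟩ := hni w hw1 hw2 hw3
      rw [hys1] at hij
      refine ⟨i, j, ?_⟩
      rw [div_le_iff₀ hs0]
      calc T ^ 3 ≤ _ := hij
        _ = _ := by ring)
  have hYs : (s ^ 4000 : ℝ) ^ (1 / 4000 : ℝ) = s := by
    rw [← Real.rpow_natCast, ← Real.rpow_mul hs0.le]
    norm_num
  rw [hYs] at m1
  -- `A T^2 ≤ p (∏ l)^2`
  have hAp : A * T ^ 2 ≤ p * (∏ i, l i) ^ 2 := by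
    obtain ⟨i, j, a, c, hm⟩ := hpge
    have hmr : mr G i j a c ≠ 0 := by
      intro h0
      rw [h0] at hm
      simp at hm
      linarith
    have hij : i ≠ j := by
      rintro rfl
      apply hmr
      unfold mr
      ring
    have hac : a ≠ c := by
      rintro rfl
      apply hmr
      unfold mr
      ring
    have h1 : A ≤ |((mr G i j a c : ℤ) : ℝ)| := by
      rw [hA]
      have h2 : (PP5N.mi2 G : ℤ) ∣ mr G i j a c := PP5N.mi2_dvd G i j a c
      have h3 := Int.le_of_dvd (abs_pos.2 hmr) ((dvd_abs _ _).2 h2)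
      exact_mod_cast h3
    have h4 := Hza_pair hl1 hij
    have h5 := Hza_pair hl1 hac
    calc A * T ^ 2 ≤ |((mr G i j a c : ℤ) : ℝ)| * T ^ 2 := mul_le_mul_of_nonneg_right h1 (by positivity)
      _ ≤ p * (l i * l j * l a * l c) := hple i j a c
      _ = p * ((l i * l j) * (l a * l c)) := by ring
      _ ≤ p * ((∏ i, l i) * (∏ i, l i)) := by
          refine mul_le_mul_of_nonneg_left (mul_le_mul h4 h5 ?_ hlam.le) hp.le
          have := hXE.lp a
          have := hXE.lp c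
          positivity
      _ = _ := by ring
  have hsq : T * √(A / p) ≤ ∏ i, l i := by
    have h1 : T * √(A / p) = √(A * T ^ 2 / p) := by
      rw [mul_comm A, mul_div_assoc, Real.sqrt_mul (by positivity), Real.sqrt_sq hT0.le]
    rw [h1]
    apply Real.sqrt_le_iff.2
    refine ⟨hlam.le, ?_⟩
    rw [div_le_iff₀ hp]
    calc A * T ^ 2 ≤ _ := hAp
      _ = _ := by ring
  have e2 : H ^ 2 * T * √(A / p) / (∏ i, l i) ≤ H ^ 2 := by
    rw [div_le_iff₀ hlam]
    calc H ^ 2 * T * √(A / p) = H ^ 2 * (T * √(A / p)) := by ring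
      _ ≤ _ := mul_le_mul_of_nonneg_left hsq (by positivity)
  have e1 : H ^ 2 / (T ^ 3 / s) ≤ H ^ 2 * s := by
    rw [div_div_eq_mul_div]
    exact div_le_self (by positivity) hT31
  have hH2 : H ^ 2 = 256 * Cx ^ 2 * y ^ 2 := by rw [hH]; ring
  have hy2 : 1 ≤ y ^ 2 := one_le_pow₀ hy1
  refine m1.trans ?_
  have g1 : 1 + H ^ 2 / (T ^ 3 / s) + H ^ 2 * T * √(A / p) / (∏ i, l i) ≤
      s * ((1 + 512 * Cx ^ 2) * y ^ 2) := by
    have g2 : H ^ 2 ≤ H ^ 2 * s := le_mul_of_one_le_right (by positivity) hs1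
    have g3 : 1 ≤ s * y ^ 2 := one_le_mul_of_one_le_of_one_le hs1 hy2
    calc _ ≤ s * y ^ 2 + H ^ 2 * s + H ^ 2 * s := by linarith
      _ = _ := by rw [hH2]; ring
  calc C * s * _ ≤ C * s * (s * ((1 + 512 * Cx ^ 2) * y ^ 2)) :=
        mul_le_mul_of_nonneg_left g1 (by positivity)
    _ = _ := by ring

/-- the sum over one dyadic class of `T` -/
theorem cls3 {X : Type*} (S : Finset X) (n M Tx : X → ℝ) {N0 D y u K : ℝ} (hN0 : 0 ≤ N0)
    (hD : 0 ≤ D) (hy : 0 < y) (hu : 1 ≤ u) (hK : 0 ≤ K)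
    (hT : ∀ x ∈ S, 0 < Tx x ∧ Tx x ≤ u ^ 48 ∧ u ^ 48 ≤ 2 * Tx x) (hM1 : ∀ x ∈ S, 1 ≤ M x)
    (h1 : ∀ x ∈ S, n x ≤ D * (y ^ 2 / Tx x ^ 3) * (M x * √(M x)))
    (h2 : ∀ x ∈ S, n x ≤ K)
    (ha : ∀ S' : Finset X, S' ⊆ S → (S'.card : ℝ) * u ^ 24 ≤ N0)
    (hb : ∀ R : ℝ, 1 ≤ R → R ≤ u ^ 48 → ∀ S' : Finset X, S' ⊆ S → (∀ x ∈ S', R < M x) →
      (S'.card : ℝ) * R ^ 3 ≤ 4 * N0) :
    ∑ x ∈ S, n x ≤ 648 * D * N0 * y ^ 2 / u ^ 153 + 4 * N0 * K / u ^ 144 := by
  classical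
  have hu0 : 0 < u := by linarith
  -- the bound by `M`
  have key : ∀ S' : Finset X, S' ⊆ S → ∀ V K : ℝ, 0 ≤ V → (∀ x ∈ S', M x ≤ V ^ 2) →
      (S'.card : ℝ) ≤ K → ∑ x ∈ S', n x ≤ K * (8 * D * y ^ 2 * V ^ 3 / u ^ 144) := by
    intro S' hS' V K hV hMV hK
    have h3 : ∀ x ∈ S', n x ≤ 8 * D * y ^ 2 * V ^ 3 / u ^ 144 := by
      intro x hx
      obtain ⟨hT0, hT1, hT2⟩ := hT x (hS' hx)
      have hM0 : 0 < M x := by linarith [hM1 x (hS' hx)]
      have hsq : √(M x) ≤ V := by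
        rw [← Real.sqrt_sq hV]
        exact Real.sqrt_le_sqrt (hMV x hx)
      have h4 : M x * √(M x) ≤ V ^ 3 := by
        calc M x * √(M x) ≤ V ^ 2 * V := mul_le_mul (hMV x hx) hsq (Real.sqrt_nonneg _) (by positivity)
          _ = _ := by ring
      have h5 : u ^ 144 ≤ 8 * Tx x ^ 3 := by
        calc u ^ 144 = (u ^ 48) ^ 3 := by ring
          _ ≤ (2 * Tx x) ^ 3 := pow_le_pow_left₀ (by positivity) hT2 3
          _ = _ := by ring
      have h6 : y ^ 2 / Tx x ^ 3 ≤ 8 * y ^ 2 / u ^ 144 := by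
        rw [div_le_div_iff₀ (by positivity) (by positivity)]
        calc y ^ 2 * u ^ 144 ≤ y ^ 2 * (8 * Tx x ^ 3) := mul_le_mul_of_nonneg_left h5 (by positivity)
          _ = _ := by ring
      refine (h1 x (hS' hx)).trans ?_
      calc D * (y ^ 2 / Tx x ^ 3) * (M x * √(M x)) ≤ D * (8 * y ^ 2 / u ^ 144) * V ^ 3 := by
            refine mul_le_mul (mul_le_mul_of_nonneg_left h6 hD) h4 (by positivity) (by positivity)
        _ = _ := by ring
    refine (Finset.sum_le_card_nsmul S' n _ h3).trans ?_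
    rw [nsmul_eq_mul]
    exact mul_le_mul_of_nonneg_right hK (by positivity)
  -- `M ≤ u^8`
  have hA : ∑ x ∈ S with M x ≤ u ^ 8, n x ≤ 8 * D * N0 * y ^ 2 / u ^ 153 := by
    have h3 := key (S.filter fun x => M x ≤ u ^ 8) (filter_subset _ _) (u ^ 4) (N0 / u ^ 24) (by positivity)
      (fun x hx => by
        have := (mem_filter.1 hx).2
        calc M x ≤ u ^ 8 := this
          _ = _ := by ring)
      (by rw [le_div_iff₀ (by positivity)]; exact ha _ (filter_subset _ _))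
    refine h3.trans ?_
    have e : N0 / u ^ 24 * (8 * D * y ^ 2 * (u ^ 4) ^ 3 / u ^ 144) = 8 * D * N0 * y ^ 2 / u ^ 156 := by
      field_simp
    rw [e]
    exact div_le_div_of_nonneg_left (by positivity) (by positivity) (pow_le_pow_right₀ hu (by norm_num))
  -- `u^(8+2j) < M ≤ u^(10+2j)`
  have hB : ∀ j : ℕ, j < 20 → ∑ x ∈ S with (u ^ (8 + 2 * j) < M x ∧ M x ≤ u ^ (10 + 2 * j)), n x ≤
      32 * D * N0 * y ^ 2 / u ^ 153 := by
    intro j hj
    have h3 := key (S.filter fun x => u ^ (8 + 2 * j) < M x ∧ M x ≤ u ^ (10 + 2 * j)) (filter_subset _ _)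
      (u ^ (5 + j)) (4 * N0 / (u ^ (8 + 2 * j)) ^ 3) (by positivity)
      (fun x hx => by
        have := (mem_filter.1 hx).2.2
        calc M x ≤ u ^ (10 + 2 * j) := this
          _ = _ := by rw [← pow_mul]; congr 1; ring)
      (by
        rw [le_div_iff₀ (by positivity)]
        exact hb _ (one_le_pow₀ hu) (pow_le_pow_right₀ hu (by omega)) _ (filter_subset _ _)
          (fun x hx => (mem_filter.1 hx).2.1))
    refine h3.trans ?_
    have e : 4 * N0 / (u ^ (8 + 2 * j)) ^ 3 * (8 * D * y ^ 2 * (u ^ (5 + j)) ^ 3 / u ^ 144) =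
        32 * D * N0 * y ^ 2 / u ^ (153 + 3 * j) := by
      rw [← pow_mul, ← pow_mul, div_mul_div_comm, div_eq_div_iff (by positivity) (by positivity)]
      have e1 : u ^ ((8 + 2 * j) * 3) * u ^ 144 = u ^ (168 + 6 * j) := by
        rw [← pow_add]; congr 1; ring
      have e2 : u ^ ((5 + j) * 3) * u ^ (153 + 3 * j) = u ^ (168 + 6 * j) := by
        rw [← pow_add]; congr 1; ring
      calc _ = 32 * D * N0 * y ^ 2 * (u ^ ((5 + j) * 3) * u ^ (153 + 3 * j)) := by ring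
        _ = 32 * D * N0 * y ^ 2 * (u ^ ((8 + 2 * j) * 3) * u ^ 144) := by rw [e1, e2]
    rw [e]
    exact div_le_div_of_nonneg_left (by positivity) (by positivity) (pow_le_pow_right₀ hu (by omega))
  -- `M > u^48`
  have hC : ∑ x ∈ S with u ^ 48 < M x, n x ≤ 4 * N0 * K / u ^ 144 := by
    have h3 := hb (u ^ 48) (one_le_pow₀ hu) le_rfl (S.filter fun x => u ^ 48 < M x) (filter_subset _ _)
      (fun x hx => (mem_filter.1 hx).2)
    have h4 : ∑ x ∈ S with u ^ 48 < M x, n x ≤ ((S.filter fun x => u ^ 48 < M x).card : ℝ) * K := by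
      refine (Finset.sum_le_card_nsmul _ n K (fun x hx => h2 x (mem_filter.1 hx).1)).trans ?_
      rw [nsmul_eq_mul]
    refine h4.trans ?_
    rw [le_div_iff₀ (by positivity)]
    calc _ = ((S.filter fun x => u ^ 48 < M x).card : ℝ) * (u ^ 48) ^ 3 * K := by ring
      _ ≤ 4 * N0 * K := mul_le_mul_of_nonneg_right h3 hK
  -- together; negative parts are excluded by adding absolute values
  have hmain : ∀ x ∈ S, n x ≤ (if M x ≤ u ^ 8 then n x else 0) +
      ∑ j ∈ range 20, (if u ^ (8 + 2 * j) < M x ∧ M x ≤ u ^ (10 + 2 * j) then n x else 0) +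
      (if u ^ 48 < M x then n x else 0) := by
    intro x hx
    rcases le_or_gt (M x) (u ^ 8) with h3 | h3
    · have e1 : (if u ^ 48 < M x then n x else 0) = 0 := by
        rw [if_neg]
        have : u ^ 8 ≤ u ^ 48 := pow_le_pow_right₀ hu (by norm_num)
        linarith
      have e2 : ∑ j ∈ range 20, (if u ^ (8 + 2 * j) < M x ∧ M x ≤ u ^ (10 + 2 * j) then n x else 0) = 0 := by
        refine Finset.sum_eq_zero fun j _ => ?_
        rw [if_neg]
        rintro ⟨h4, -⟩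
        have : u ^ 8 ≤ u ^ (8 + 2 * j) := pow_le_pow_right₀ hu (by omega)
        linarith
      rw [if_pos h3, e1, e2]
      linarith
    · rcases le_or_gt (M x) (u ^ 48) with h4 | h4
      · rw [if_neg (not_le.2 h3), if_neg (not_lt.2 h4)]
        -- the exact class
        obtain ⟨j, hj, hj1, hj2⟩ : ∃ j : ℕ, j < 20 ∧ u ^ (8 + 2 * j) < M x ∧ M x ≤ u ^ (10 + 2 * j) := by
          by_contra hcon
          push Not at hcon
          have hind : ∀ j : ℕ, j ≤ 20 → u ^ (8 + 2 * j) < M x := by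
            intro j
            induction j with
            | zero => intro _; simpa using h3
            | succ k ih =>
              intro hk
              have h5 := hcon k (by omega) (ih (by omega))
              have e : 8 + 2 * (k + 1) = 10 + 2 * k := by ring
              rw [e]
              exact h5
          have := hind 20 le_rfl
          norm_num at this
          linarith
        have e3 : ∑ i ∈ range 20, (if u ^ (8 + 2 * i) < M x ∧ M x ≤ u ^ (10 + 2 * i) then n x else 0) = n x := by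
          rw [Finset.sum_eq_single j]
          · rw [if_pos ⟨hj1, hj2⟩]
          · intro i _ hij
            rw [if_neg]
            rintro ⟨h5, h6⟩
            rcases lt_or_gt_of_ne hij with h7 | h7
            · have : u ^ (10 + 2 * i) ≤ u ^ (8 + 2 * j) := pow_le_pow_right₀ hu (by omega)
              linarith
            · have : u ^ (10 + 2 * j) ≤ u ^ (8 + 2 * i) := pow_le_pow_right₀ hu (by omega)
              linarith
          · intro h5
            exact absurd (Finset.mem_range.2 hj) h5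
        rw [e3]
        linarith
      · have e2 : ∑ j ∈ range 20, (if u ^ (8 + 2 * j) < M x ∧ M x ≤ u ^ (10 + 2 * j) then n x else 0) = 0 := by
          refine Finset.sum_eq_zero fun j hj => ?_
          rw [if_neg]
          rintro ⟨-, h5⟩
          have h6 := Finset.mem_range.1 hj
          have : u ^ (10 + 2 * j) ≤ u ^ 48 := pow_le_pow_right₀ hu (by omega)
          linarith
        rw [if_neg (not_le.2 h3), if_pos h4, e2]
        linarith
  refine (Finset.sum_le_sum hmain).trans ?_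
  rw [Finset.sum_add_distrib, Finset.sum_add_distrib, Finset.sum_comm]
  have hB' : ∑ j ∈ range 20, ∑ x ∈ S, (if u ^ (8 + 2 * j) < M x ∧ M x ≤ u ^ (10 + 2 * j) then n x else 0) ≤
      ∑ j ∈ range 20, 32 * D * N0 * y ^ 2 / u ^ 153 := by
    refine Finset.sum_le_sum fun j hj => ?_
    rw [← Finset.sum_filter]
    exact hB j (Finset.mem_range.1 hj)
  rw [Finset.sum_const, Finset.card_range, nsmul_eq_mul] at hB'
  rw [← Finset.sum_filter, ← Finset.sum_filter]
  calc _ ≤ 8 * D * N0 * y ^ 2 / u ^ 153 + ((20 : ℕ) : ℝ) * (32 * D * N0 * y ^ 2 / u ^ 153) +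
        4 * N0 * K / u ^ 144 := add_le_add (add_le_add hA hB') hC
    _ = _ := by push_cast; ring

end Pool.Agent.PP5LE
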