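import Pool.Agent.PP5LE.Hza
import Pool.Agent.PP5LE.Defs

/-!
# LB5, section E, `D(x) = 0`: the sum over the `x` with `nw x ≤ T0`
-/

set_option autoImplicit false

namespace Pool.Agent.PP5LE

open Matrix Finset Pool.Agent.PP5 Pool.Agent.PP5B Pool.Agent.PP5S Pool.Agent.PP5P Pool.Agent.PP5Z

theorem Hzb_root {X Z : ℝ} (hX : 0 ≤ X) (hZ : 0 ≤ Z) (h : X ≤ Z ^ 1000) :
    X ^ (1 / 1000 : ℝ) ≤ Z := by
  have h1 := Real.rpow_le_rpow hX h (show (0 : ℝ) ≤ 1 / 1000 by norm_num)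
  refine h1.trans (le_of_eq ?_)
  rw [← Real.rpow_natCast, ← Real.rpow_mul hZ]
  norm_num

/-- the sum over the `x` with `D(x) = 0` -/
theorem sm3 (Cx : ℝ) (hCx : 1 ≤ Cx) : ∃ y0 C : ℝ, 1 ≤ y0 ∧ 0 ≤ C ∧ ∀ y T0 : ℝ, y0 ≤ y → 1 ≤ T0 →
    T0 ≤ y ^ (2 / 5 : ℝ) →
    ∀ (Tf : (Fin 10 → ℤ) → ℝ) (bf : (Fin 10 → ℤ) → Fin 4 → PP5.Sp)
      (Gf : (Fin 10 → ℤ) → Matrix (Fin 4) (Fin 4) ℤ) (lf : (Fin 10 → ℤ) → Fin 4 → ℝ)
      (E : Finset (Fin 10 → ℤ)) (Vf : (Fin 10 → ℤ) → Finset (Fin 4 → ℤ)),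
    (∀ x ∈ E, (∀ p : ℕ, p.Prime → ∃ j, ¬ (p : ℤ) ∣ x j) ∧ PP5L.FF x = 0 ∧
      (PP5L.SS x).det = 0 ∧ (PP5L.SS x).adjugate ≠ 0 ∧ XE Cx 1 1 (Tf x) x (bf x) (Gf x) (lf x) ∧
      Tf x ≤ T0 ∧
      ∀ v ∈ Vf x, Zv (Gf x) (lf x) (16 * Cx * y) v ∧ NI y (1 / 1000) (Tf x) (Gf x) (lf x) v) →
    ∑ x ∈ E, ((Vf x).card : ℝ) ≤ C * (y ^ (4 - 1 / 100 : ℝ) * (T0 / y ^ (2 / 5 : ℝ)) ^ 4) := by
  classical
  obtain ⟨C2, y1, hC2, hy1, hpx⟩ := px Cx 1 hCx le_rfl
  obtain ⟨C2', y2, hC2', hy2, hpx3⟩ := px3 Cx hCx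
  obtain ⟨aK, CK, haK, hCK, hK⟩ := ckz Cx hCx (1 / 1000) (by norm_num)
  obtain ⟨aA, CA, haA, hCA, hA⟩ := caz Cx hCx (1 / 1000) (by norm_num)
  obtain ⟨aD, CD, haD, hCD, hD⟩ := cdz Cx hCx (1 / 1000) (by norm_num)
  obtain ⟨C3, hC3, hcls⟩ := PP5P.cls (X := Fin 10 → ℤ) 1 (show (0 : ℝ) < 1 / 1000 by norm_num)
  obtain ⟨Cc, hCc⟩ : ∃ Cc : ℝ, Cc = CK + CA + CD := ⟨_, rfl⟩
  have hCc1 : 1 ≤ Cc := by rw [hCc]; linarith
  have hC20 : 0 < C2 := by linarith
  have hC20' : 0 < C2' := by linarith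
  have hC30 : 0 < C3 := by linarith
  have hCc0 : 0 < Cc := by linarith
  have hone : ∀ a : ℝ, ((1 : ℝ) * 1) ^ a = 1 := by
    intro a
    rw [mul_one, Real.one_rpow]
  obtain ⟨K1, hK1⟩ : ∃ K1 : ℝ, K1 = 1296 * 16 * 2 ^ 39 * C2 * Cc + 128 * 16 * C2 * Cc +
    128 * C2' * Cc := ⟨_, rfl⟩
  have hK10 : 0 ≤ K1 := by rw [hK1]; positivity
  refine ⟨max y1 y2, C3 * K1, hy1.trans (le_max_left _ _), by positivity, ?_⟩
  intro y T0 hy hT01 hT0y Tf bf Gf lf E Vf hE
  have hya : y1 ≤ y := (le_max_left _ _).trans hy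
  have hyb : y2 ≤ y := (le_max_right _ _).trans hy
  have hyge : 1 ≤ y := hy1.trans hya
  have hy0 : 0 < y := by linarith
  obtain ⟨s, hs⟩ : ∃ s : ℝ, s = y ^ (1 / 1000 : ℝ) := ⟨_, rfl⟩
  have hs1 : 1 ≤ s := by rw [hs]; exact Real.one_le_rpow hyge (by norm_num)
  have hs0 : 0 < s := by linarith
  have hys : y = s ^ 1000 := by
    rw [hs, ← Real.rpow_natCast, ← Real.rpow_mul hy0.le]
    norm_num
  have hy25 : y ^ (2 / 5 : ℝ) = s ^ 400 := by
    rw [hs, ← Real.rpow_natCast, ← Real.rpow_mul hy0.le]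
    norm_num
  have hy500 : y ^ (1 / 500 : ℝ) = s ^ 2 := by
    rw [hs, ← Real.rpow_natCast, ← Real.rpow_mul hy0.le]
    norm_num
  have hy399 : y ^ (4 - 1 / 100 : ℝ) = s ^ 3990 := by
    rw [hs, ← Real.rpow_natCast, ← Real.rpow_mul hy0.le]
    norm_num
  rw [hy25] at hT0y
  -- the data of `x`
  have hM : ∀ x, x ∈ E → ∃ M : ℝ, 1 ≤ M ∧ (∀ R : ℝ, 1 ≤ R → R < M →
      (R * ∏ i, lf x i ≤ Tf x ^ 4) ∨
      (∃ p : ℝ, 0 < p ∧ (∀ i j a b, |((mr (Gf x) i j a b : ℤ) : ℝ)| * Tf x ^ 2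
        ≤ p * (lf x i * lf x j * lf x a * lf x b)) ∧ R * p ≤ (PP5N.mi2 (Gf x) : ℝ))) ∧
      ((Vf x).card : ℝ) ≤ C2 * s ^ 2 * (y ^ 2 / Tf x ^ 3) * (M * √M) ∧
      ((Vf x).card : ℝ) ≤ C2 * s ^ 2 * (y ^ 3 / (Tf x ^ 3 * √(Tf x))) := by
    intro x hx
    obtain ⟨e1, e2, e3, e4, e5, e6, e7⟩ := hE x hx
    have h3 := hpx y 1 1 hya le_rfl le_rfl (by rw [mul_one, ← hs]; exact hs1) (Tf x) x (bf x) (Gf x) (lf x)
      e1 e2 e3 e4 e5 (by rw [one_mul, hy25]; exact e6.trans hT0y) (Vf x) e7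
    rw [hy500] at h3
    exact h3
  choose! M hM1 hMR hn1 hn2 using hM
  have hn3 : ∀ x ∈ E, ((Vf x).card : ℝ) ≤ C2' * s ^ 2 * y ^ 2 := by
    intro x hx
    obtain ⟨e1, e2, e3, e4, e5, e6, e7⟩ := hE x hx
    have h3 := hpx3 y hyb (Tf x) x (bf x) (Gf x) (lf x) e1 e2 e3 e4 e5
      (by rw [hy25]; exact e6.trans hT0y) (Vf x) e7
    rw [hy500] at h3
    exact h3
  have hTp0 : ∀ x ∈ E, 0 < Tf x := fun x hx => (hE x hx).2.2.2.2.1.T0
  have hTf1 : ∀ x ∈ E, 1 ≤ Tf x := by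
    intro x hx
    obtain ⟨e1, -, -, -, e5, -, -⟩ := hE x hx
    have hx0 : x ≠ 0 := by
      rintro rfl
      obtain ⟨j, hj⟩ := e1 2 Nat.prime_two
      exact hj (dvd_zero _)
    have := T_lo e5 le_rfl le_rfl hx0
    simpa using this
  have hT0r : T0 ^ (1 / 1000 : ℝ) ≤ s := by
    apply Hzb_root (by linarith) hs0.le
    exact hT0y.trans (pow_le_pow_right₀ hs1 (by norm_num))
  have h3 := hcls T0 hT01 E (fun x _ => Tf x) (fun x => ((Vf x).card : ℝ))
    (K1 * s ^ 2354 * T0 ^ 4) (by positivity) (fun x hx _ => ⟨hTf1 x hx, (hE x hx).2.2.2.2.2.1⟩) (by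
      intro Q hQ S hS hSQ
      obtain ⟨hQ1, hQY⟩ := hQ 0
      obtain ⟨T, hT⟩ : ∃ T : ℝ, T = 2 * Q 0 := ⟨_, rfl⟩
      have hT1 : 1 ≤ T := by rw [hT]; linarith
      have hTp : 0 < T := by linarith
      have hTY : T ≤ 2 * T0 := by rw [hT]; linarith
      have hTY' : T ≤ 2 * s ^ 400 := by linarith
      obtain ⟨u, hu⟩ : ∃ u : ℝ, u = T ^ (1 / 48 : ℝ) := ⟨_, rfl⟩
      have hu1 : 1 ≤ u := by rw [hu]; exact Real.one_le_rpow hT1 (by norm_num)
      have hu0 : 0 < u := by linarith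
      have huT : u ^ 48 = T := by
        rw [hu, ← Real.rpow_natCast, ← Real.rpow_mul hTp.le]
        norm_num
      have hus : u ≤ 2 * s ^ 9 := by
        have h4 : u ^ 48 ≤ (2 * s ^ 9) ^ 48 := by
          rw [huT]
          refine hTY'.trans ?_
          rw [mul_pow, ← pow_mul]
          exact mul_le_mul (by norm_num) (pow_le_pow_right₀ hs1 (by norm_num)) (by positivity) (by positivity)
        exact (pow_le_pow_iff_left₀ hu0.le (by positivity) (by norm_num)).1 h4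
      have hu192 : u ^ 192 ≤ 16 * T0 ^ 4 := by
        calc u ^ 192 = (u ^ 48) ^ 4 := by ring
          _ = T ^ 4 := by rw [huT]
          _ ≤ (2 * T0) ^ 4 := pow_le_pow_left₀ hTp.le hTY 4
          _ = _ := by ring
      obtain ⟨N0, hN0⟩ : ∃ N0 : ℝ, N0 = Cc * T ^ (8 + 1 / 1000 : ℝ) := ⟨_, rfl⟩
      have hN00 : 0 ≤ N0 := by rw [hN0]; positivity
      have hTr : T ^ (8 + 1 / 1000 : ℝ) ≤ u ^ 384 * (2 * s) := by
        rw [Real.rpow_add hTp]
        have e1 : T ^ (8 : ℝ) = u ^ 384 := by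
          rw [← huT, show (8 : ℝ) = ((8 : ℕ) : ℝ) by norm_num, Real.rpow_natCast]
          ring
        rw [e1]
        refine mul_le_mul_of_nonneg_left ?_ (by positivity)
        apply Hzb_root hTp.le (by positivity)
        refine hTY'.trans ?_
        rw [mul_pow]
        exact mul_le_mul (le_self_pow₀ (by norm_num) (by norm_num)) (pow_le_pow_right₀ hs1 (by norm_num))
          (by positivity) (by positivity)
      have hSE : ∀ x ∈ S, x ∈ E := fun x hx => hS hx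
      have hTx : ∀ x ∈ S, 0 < Tf x ∧ Tf x ≤ u ^ 48 ∧ u ^ 48 ≤ 2 * Tf x := by
        intro x hx
        obtain ⟨h4, h5⟩ := hSQ x hx 0
        rw [huT, hT]
        exact ⟨hTp0 x (hSE x hx), h5, by linarith⟩
      have hTx' : ∀ x ∈ S, Tf x ≤ T ∧ T ≤ 2 * Tf x := by
        intro x hx
        have := hTx x hx
        rw [huT] at this
        exact this.2
      have hxat : ∀ x ∈ S, ∀ Φ : ℝ → (Fin 10 → ℤ) → Matrix (Fin 4) (Fin 4) ℤ → (Fin 4 → ℝ) → Prop,
          Φ (Tf x) x (Gf x) (lf x) → Xatz Cx 1 1 T Φ x := by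
        intro x hx Φ hΦ
        obtain ⟨e1, e2, -, -, e5, -, -⟩ := hE x (hSE x hx)
        exact ⟨e1, e2, Tf x, bf x, Gf x, lf x, e5, (hTx' x hx).1, (hTx' x hx).2, hΦ⟩
      have hN0u : N0 ≤ 2 * Cc * s * u ^ 384 := by
        rw [hN0]
        calc Cc * T ^ (8 + 1 / 1000 : ℝ) ≤ Cc * (u ^ 384 * (2 * s)) :=
              mul_le_mul_of_nonneg_left hTr (by positivity)
          _ = _ := by ring
      have hmain : ∀ K : ℝ, 0 ≤ K → (∀ x ∈ S, ((Vf x).card : ℝ) ≤ K) →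
          ∑ x ∈ S, ((Vf x).card : ℝ) ≤
            648 * (C2 * s ^ 2) * N0 * y ^ 2 / u ^ 153 + 4 * N0 * K / u ^ 144 := by
        intro K hK0 hKx
        refine cls3 S (fun x => ((Vf x).card : ℝ)) M Tf (N0 := N0) (D := C2 * s ^ 2) (y := y)
          (u := u) hN00 (by positivity) hy0 hu1 hK0 hTx (fun x hx => hM1 x (hSE x hx))
          (fun x hx => hn1 x (hSE x hx)) hKx ?_ ?_
        · intro S' hS'
          have h5 := hD 1 1 T 1 le_rfl le_rfl hT1 le_rfl S' (fun x hx =>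
            hxat x (hS' hx) _ (hE x (hSE x (hS' hx))).2.2.1)
          rw [hone, mul_one] at h5
          have e1 : T ^ (-(1 / 2) : ℝ) * u ^ 24 = 1 := by
            have e2 : u ^ 24 = T ^ (1 / 2 : ℝ) := by
              rw [hu, ← Real.rpow_natCast, ← Real.rpow_mul hTp.le]
              norm_num
            rw [e2, ← Real.rpow_add hTp]
            norm_num
          calc (S'.card : ℝ) * u ^ 24 ≤
                CD * T ^ (8 + 1 / 1000 : ℝ) * T ^ (-(1 / 2) : ℝ) * u ^ 24 :=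
                mul_le_mul_of_nonneg_right h5 (by positivity)
            _ = CD * T ^ (8 + 1 / 1000 : ℝ) * (T ^ (-(1 / 2) : ℝ) * u ^ 24) := by ring
            _ = CD * T ^ (8 + 1 / 1000 : ℝ) := by rw [e1, mul_one]
            _ ≤ Cc * T ^ (8 + 1 / 1000 : ℝ) := by
                refine mul_le_mul_of_nonneg_right ?_ (by positivity)
                rw [hCc]; linarith
            _ = N0 := hN0.symm
        · intro R hR1 hRu S' hS' hRM
          rw [huT] at hRu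
          have hR0 : 0 < R := by linarith
          have hsub : S' ⊆ (S'.filter fun x => R * ∏ i, lf x i ≤ Tf x ^ 4) ∪
              (S'.filter fun x => ∃ p : ℝ, 0 < p ∧ (∀ i j a b, |((mr (Gf x) i j a b : ℤ) : ℝ)| * Tf x ^ 2
                ≤ p * (lf x i * lf x j * lf x a * lf x b)) ∧ R * p ≤ (PP5N.mi2 (Gf x) : ℝ)) := by
            intro x hx
            rcases hMR x (hSE x (hS' hx)) R hR1 (hRM x hx) with h5 | h5
            · exact Finset.mem_union_left _ (Finset.mem_filter.2 ⟨hx, h5⟩)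
            · exact Finset.mem_union_right _ (Finset.mem_filter.2 ⟨hx, h5⟩)
          have hcard := (Finset.card_le_card hsub).trans (Finset.card_union_le _ _)
          have hcard' : (S'.card : ℝ) ≤
              ((S'.filter fun x => R * ∏ i, lf x i ≤ Tf x ^ 4).card : ℝ) +
              ((S'.filter fun x => ∃ p : ℝ, 0 < p ∧ (∀ i j a b, |((mr (Gf x) i j a b : ℤ) : ℝ)| *
                Tf x ^ 2 ≤ p * (lf x i * lf x j * lf x a * lf x b)) ∧
                R * p ≤ (PP5N.mi2 (Gf x) : ℝ)).card : ℝ) := by exact_mod_cast hcard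
          have k1 := hK 1 1 T R le_rfl le_rfl hT1 hR1 (S'.filter fun x => R * ∏ i, lf x i ≤ Tf x ^ 4)
            (fun x hx => by
              obtain ⟨h5, h6⟩ := Finset.mem_filter.mp hx
              exact hxat x (hS' h5) _ h6)
          have k2 := hA 1 1 T R le_rfl le_rfl hT1 hR1 (S'.filter fun x => ∃ p : ℝ, 0 < p ∧
              (∀ i j a b, |((mr (Gf x) i j a b : ℤ) : ℝ)| * Tf x ^ 2
                ≤ p * (lf x i * lf x j * lf x a * lf x b)) ∧ R * p ≤ (PP5N.mi2 (Gf x) : ℝ))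
            (fun x hx => by
              obtain ⟨h5, h6⟩ := Finset.mem_filter.mp hx
              exact hxat x (hS' h5) _ h6)
          rw [hone, mul_one] at k1 k2
          have hRT : (R⁻¹ ^ 3 + T⁻¹ ^ 3) * R ^ 3 ≤ 2 := by
            have e1 : R⁻¹ ^ 3 * R ^ 3 = 1 := by
              rw [← mul_pow, inv_mul_cancel₀ hR0.ne', one_pow]
            have e2 : T⁻¹ ^ 3 * R ^ 3 ≤ 1 := by
              rw [← mul_pow]
              apply pow_le_one₀ (by positivity)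
              rw [inv_mul_eq_div, div_le_one hTp]
              exact hRu
            rw [add_mul]
            linarith
          have k3 : ∀ (C m : ℝ), 0 ≤ C →
              m ≤ C * T ^ (8 + 1 / 1000 : ℝ) * (R⁻¹ ^ 3 + T⁻¹ ^ 3) →
              m * R ^ 3 ≤ 2 * (C * T ^ (8 + 1 / 1000 : ℝ)) := by
            intro C m hC hm
            calc m * R ^ 3 ≤ C * T ^ (8 + 1 / 1000 : ℝ) * (R⁻¹ ^ 3 + T⁻¹ ^ 3) * R ^ 3 :=
                  mul_le_mul_of_nonneg_right hm (by positivity)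
              _ = C * T ^ (8 + 1 / 1000 : ℝ) * ((R⁻¹ ^ 3 + T⁻¹ ^ 3) * R ^ 3) := by ring
              _ ≤ C * T ^ (8 + 1 / 1000 : ℝ) * 2 := mul_le_mul_of_nonneg_left hRT (by positivity)
              _ = _ := by ring
          have k4 := k3 CK _ (by linarith) k1
          have k5 := k3 CA _ (by linarith) k2
          have hX : 0 ≤ T ^ (8 + 1 / 1000 : ℝ) := by positivity
          calc (S'.card : ℝ) * R ^ 3 ≤ _ := mul_le_mul_of_nonneg_right hcard' (by positivity)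
            _ ≤ 2 * (CK * T ^ (8 + 1 / 1000 : ℝ)) + 2 * (CA * T ^ (8 + 1 / 1000 : ℝ)) := by
                rw [add_mul]; exact add_le_add k4 k5
            _ = 2 * (CK + CA) * T ^ (8 + 1 / 1000 : ℝ) := by ring
            _ ≤ 4 * Cc * T ^ (8 + 1 / 1000 : ℝ) := by
                refine mul_le_mul_of_nonneg_right ?_ hX
                rw [hCc]; linarith
            _ = 4 * N0 := by rw [hN0]; ring
      have g1 : 648 * (C2 * s ^ 2) * N0 * y ^ 2 / u ^ 153 ≤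
          1296 * 16 * 2 ^ 39 * C2 * Cc * (s ^ 2354 * T0 ^ 4) := by
        rw [div_le_iff₀ (by positivity)]
        calc 648 * (C2 * s ^ 2) * N0 * y ^ 2 ≤
              648 * (C2 * s ^ 2) * (2 * Cc * s * u ^ 384) * y ^ 2 := by gcongr
          _ = 1296 * C2 * Cc * s ^ 2003 * (u ^ 192 * u ^ 39) * u ^ 153 := by rw [hys]; ring
          _ ≤ 1296 * C2 * Cc * s ^ 2003 * ((16 * T0 ^ 4) * (2 * s ^ 9) ^ 39) * u ^ 153 := by gcongr
          _ = _ := by ring
      rcases le_or_gt (s ^ 300) (u ^ 48) with hbig | hsmall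
      · -- large `T`
        have hus6 : s ^ 6 ≤ u := by
          have h4 : (s ^ 6) ^ 48 ≤ u ^ 48 := by
            refine le_trans ?_ hbig
            rw [← pow_mul]
            exact pow_le_pow_right₀ hs1 (by norm_num)
          exact (pow_le_pow_iff_left₀ (by positivity) hu0.le (by norm_num)).1 h4
        have h5 := hmain (16 * (C2 * s ^ 2) * y ^ 3 / u ^ 168) (by positivity) (by
          intro x hx
          obtain ⟨hT0', hT1', hT2'⟩ := hTx x hx
          have hsq0 : 0 < √(Tf x) := Real.sqrt_pos.2 hT0'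
          refine (hn2 x (hSE x hx)).trans ?_
          have h5 : u ^ 144 ≤ 8 * Tf x ^ 3 := by
            calc u ^ 144 = (u ^ 48) ^ 3 := by ring
              _ ≤ (2 * Tf x) ^ 3 := pow_le_pow_left₀ (by positivity) hT2' 3
              _ = _ := by ring
          have h6 : u ^ 24 ≤ 2 * √(Tf x) := by
            have h7 : u ^ 24 = √(u ^ 48) := by
              rw [show u ^ 48 = (u ^ 24) ^ 2 by ring, Real.sqrt_sq (by positivity)]
            rw [h7]
            apply Real.sqrt_le_iff.2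
            refine ⟨by positivity, ?_⟩
            rw [mul_pow, Real.sq_sqrt hT0'.le]
            linarith
          have h8 : u ^ 168 ≤ 16 * (Tf x ^ 3 * √(Tf x)) := by
            calc u ^ 168 = u ^ 144 * u ^ 24 := by ring
              _ ≤ (8 * Tf x ^ 3) * (2 * √(Tf x)) := mul_le_mul h5 h6 (by positivity) (by positivity)
              _ = _ := by ring
          have h9 : y ^ 3 / (Tf x ^ 3 * √(Tf x)) ≤ 16 * y ^ 3 / u ^ 168 := by
            rw [div_le_div_iff₀ (by positivity) (by positivity)]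
            calc y ^ 3 * u ^ 168 ≤ y ^ 3 * (16 * (Tf x ^ 3 * √(Tf x))) :=
                  mul_le_mul_of_nonneg_left h8 (by positivity)
              _ = _ := by ring
          calc C2 * s ^ 2 * (y ^ 3 / (Tf x ^ 3 * √(Tf x))) ≤ C2 * s ^ 2 * (16 * y ^ 3 / u ^ 168) :=
                mul_le_mul_of_nonneg_left h9 (by positivity)
            _ = _ := by ring)
        have g2 : 4 * N0 * (16 * (C2 * s ^ 2) * y ^ 3 / u ^ 168) / u ^ 144 ≤
            128 * 16 * C2 * Cc * (s ^ 2354 * T0 ^ 4) := by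
          rw [div_le_iff₀ (by positivity), mul_div_assoc', div_le_iff₀ (by positivity)]
          have q1 : s ^ 2283 * s ^ 720 ≤ s ^ 2354 * u ^ 120 := by
            refine mul_le_mul (pow_le_pow_right₀ hs1 (by norm_num)) ?_ (by positivity) (by positivity)
            calc s ^ 720 = (s ^ 6) ^ 120 := by ring
              _ ≤ u ^ 120 := pow_le_pow_left₀ (by positivity) hus6 120
          calc 4 * N0 * (16 * (C2 * s ^ 2) * y ^ 3) ≤
                4 * (2 * Cc * s * u ^ 384) * (16 * (C2 * s ^ 2) * y ^ 3) := by gcongr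
            _ = 128 * C2 * Cc * (s ^ 2283 * s ^ 720) * u ^ 384 := by rw [hys]; ring
            _ ≤ 128 * C2 * Cc * (s ^ 2354 * u ^ 120) * u ^ 384 := by gcongr
            _ = 128 * C2 * Cc * s ^ 2354 * u ^ 192 * u ^ 144 * u ^ 168 := by ring
            _ ≤ 128 * C2 * Cc * s ^ 2354 * (16 * T0 ^ 4) * u ^ 144 * u ^ 168 := by gcongr
            _ = _ := by ring
        refine h5.trans ((add_le_add g1 g2).trans ?_)
        have hX : 0 ≤ s ^ 2354 * T0 ^ 4 := by positivity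
        have hX2 : 0 ≤ 128 * C2' * Cc * (s ^ 2354 * T0 ^ 4) := by positivity
        rw [hK1]
        calc _ ≤ 1296 * 16 * 2 ^ 39 * C2 * Cc * (s ^ 2354 * T0 ^ 4) +
              128 * 16 * C2 * Cc * (s ^ 2354 * T0 ^ 4) + 128 * C2' * Cc * (s ^ 2354 * T0 ^ 4) := by
              linarith
          _ = _ := by ring
      · -- small `T`
        have h5 := hmain (C2' * s ^ 2 * y ^ 2) (by positivity) (fun x hx => hn3 x (hSE x hx))
        have g2 : 4 * N0 * (C2' * s ^ 2 * y ^ 2) / u ^ 144 ≤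
            128 * C2' * Cc * (s ^ 2354 * T0 ^ 4) := by
          rw [div_le_iff₀ (by positivity)]
          calc 4 * N0 * (C2' * s ^ 2 * y ^ 2) ≤
                4 * (2 * Cc * s * u ^ 384) * (C2' * s ^ 2 * y ^ 2) := by gcongr
            _ = 8 * C2' * Cc * s ^ 2003 * u ^ 192 * u ^ 48 * u ^ 144 := by rw [hys]; ring
            _ ≤ 8 * C2' * Cc * s ^ 2003 * (16 * T0 ^ 4) * s ^ 300 * u ^ 144 := by gcongr
            _ = 128 * C2' * Cc * (s ^ 2303 * T0 ^ 4) * u ^ 144 := by ring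
            _ ≤ 128 * C2' * Cc * (s ^ 2354 * T0 ^ 4) * u ^ 144 := by
                have : s ^ 2303 ≤ s ^ 2354 := pow_le_pow_right₀ hs1 (by norm_num)
                gcongr
        refine h5.trans ((add_le_add g1 g2).trans ?_)
        have hX : 0 ≤ s ^ 2354 * T0 ^ 4 := by positivity
        have hX2 : 0 ≤ 128 * 16 * C2 * Cc * (s ^ 2354 * T0 ^ 4) := by positivity
        rw [hK1]
        calc _ ≤ 1296 * 16 * 2 ^ 39 * C2 * Cc * (s ^ 2354 * T0 ^ 4) +
              128 * 16 * C2 * Cc * (s ^ 2354 * T0 ^ 4) + 128 * C2' * Cc * (s ^ 2354 * T0 ^ 4) := by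
              linarith
          _ = _ := by ring)
  refine h3.trans ?_
  rw [hy399, hy25]
  have e : s ^ 3990 * (T0 / s ^ 400) ^ 4 = s ^ 2390 * T0 ^ 4 := by
    rw [div_pow, ← mul_div_assoc, div_eq_iff (by positivity)]
    ring
  rw [e]
  calc C3 * T0 ^ (1 / 1000 : ℝ) * (K1 * s ^ 2354 * T0 ^ 4)
      ≤ C3 * s * (K1 * s ^ 2354 * T0 ^ 4) :=
        mul_le_mul_of_nonneg_right (mul_le_mul_of_nonneg_left hT0r hC30.le) (by positivity)
    _ = C3 * K1 * (s ^ 2355 * T0 ^ 4) := by ring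
    _ ≤ C3 * K1 * (s ^ 2390 * T0 ^ 4) := by
        have : s ^ 2355 ≤ s ^ 2390 := pow_le_pow_right₀ hs1 (by norm_num)
        gcongr

end Pool.Agent.PP5LE
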