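import Pool.Agent.PP5LE.Defs
import Pool.Agent.PP5S.Sel

/-!
# LB5, section E: the choice of `n` and `m` (copy of PP5S/Sel with `InQ` instead of `InP`)
-/

set_option autoImplicit false

namespace Pool.Agent.PP5LE

open Matrix Finset Pool.Agent.PP5B Pool.Agent.PP5S

/-- the choice of `n` and `m` for a point `P` in `L_x` -/
theorem selq {Cx Cp : ℝ} (hCx : 1 ≤ Cx) (hCp : 1 ≤ Cp) : ∃ C1 : ℝ, Cp ≤ C1 ∧ 1 ≤ C1 ∧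
    ∀ (y t1 t2 T : ℝ) (x : Fin 10 → ℤ) (b : Fin 4 → PP5.Sp) (G : Matrix (Fin 4) (Fin 4) ℤ)
      (l : Fin 4 → ℝ) (k : ℕ) (P : PP5.Sp), 1 ≤ y → XD Cx t1 t2 T x b G l k →
    T ≤ Cp * y ^ (2 / 5 : ℝ) → InQ y t1 t2 P → PP5.InE P x →
    ∃ m n : Fin 4 → ℤ, (∀ a, P a = ∑ i, n i * b i a) ∧ (∀ i, |(n i : ℝ)| * l i ≤ 16 * Cx * y) ∧
      Pr4 n ∧ n ⬝ᵥ (G *ᵥ n) = 0 ∧ Pr4 m ∧ m ⬝ᵥ n = 0 ∧
      ∀ i, |(m i : ℝ)| ≤ C1 * (y / ∏ i, l i) ^ (1 / 3 : ℝ) * l i := by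
  obtain ⟨C1, h1, h2, h3⟩ := pigS hCx hCp
  refine ⟨C1, h1, h2, ?_⟩
  intro y t1 t2 T x b G l k P hy hX hT hP hE
  obtain ⟨n, hn1, hn2⟩ := hX.span P (16 * y) hE hP.bx
  have hn3 : ∀ i, |(n i : ℝ)| * l i ≤ 16 * Cx * y := fun i => (hn2 i).trans (le_of_eq (by ring))
  obtain ⟨m, m1, m2, m3⟩ := h3 y T l n hy hX.T0 hT hX.lp hX.prod hn3
  refine ⟨m, n, hn1, hn3, pr4_of hP.pr hn1, ?_, m1, m2, m3⟩
  apply hX.quad n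
  have e : (fun a => ∑ i, n i * b i a) = P := by funext a; exact (hn1 a).symm
  rw [e]; exact hP.qd

end Pool.Agent.PP5LE
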