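import Pool.Agent.PP5LE.Defs

/-!
# LB5, section E: the shells (copy of PP5S/Sh2, Sh3 with `InQ` instead of `InP`)
-/

set_option autoImplicit false

namespace Pool.Agent.PP5LE

open Matrix Finset Pool.Agent.PP5B Pool.Agent.PP5S

/-- THE BOUND FOR ONE `x` -/
theorem one_xq {C C1 K1 K2 δ δ1 c3 Cc c d0 A y κ K t1 t2 R T : ℝ} {h J0 J : ℕ}
    (hC : 1 ≤ C) (hC1 : 1 ≤ C1) (hK1 : 0 ≤ K1) (hK2 : 0 ≤ K2) (hcon : ConB C K1)
    (hcone : ConeB K2) (hbox : BoxB K2) {Θ : (Fin 10 → ℤ) → ℝ}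
    (hCC : CC y δ δ1 A c3 Cc Θ) (hY : Yo C C1 δ δ1 c3 c d0 A y h J0 J κ K)
    (h1 : 0 < t1) (h2 : 0 < t2) {x : Fin 10 → ℤ} {b : Fin 4 → PP5.Sp}
    {G : Matrix (Fin 4) (Fin 4) ℤ} {l : Fin 4 → ℝ} {k : ℕ} (hX : XD C t1 t2 T x b G l k)
    (hTR : T ≤ R) (hRT : R ≤ 2 * T) (Qs : Finset PP5.Sp) (mf nf : PP5.Sp → Fin 4 → ℤ)
    (hQ : ∀ P ∈ Qs, InQ y t1 t2 P ∧ GP y c C1 T x b G l k P (mf P) (nf P))
    (hne : Qs.Nonempty) :
    ∑ m ∈ Qs.image mf, ((((Qs.filter (fun P => mf P = m)).image nf).card : ℕ) : ℝ) ≤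
      42 * K1 * K2 * Fc C C1 * ((k : ℝ) ^ (5 / 4 : ℝ) * Θ x *
        (R ^ 4 / |(((PP5L.SS x).det : ℤ) : ℝ)|) ^ (5 / 8 : ℝ)) * ((16 * C * y) ^ 2 / R ^ 3) := by
  classical
  have hC0 : 0 < C := by linarith
  have hC10 : 0 < C1 := by linarith
  have hy1 := hY.y1
  have hy0 : 0 < y := by linarith
  obtain ⟨P0, hP0⟩ := hne
  obtain ⟨-, g0⟩ := hQ P0 hP0
  have hT := hX.T0
  set Λ : ℝ := ∏ i, l i with hΛ
  have hΛ0 : 0 < Λ := Finset.prod_pos fun i _ => hX.lp i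
  set S : ℝ := C1 * (y / Λ) ^ (1 / 3 : ℝ) with hS
  have hS0 : 0 < S := by positivity
  have hdR : (0 : ℝ) < |(G.det : ℝ)| := abs_pos.2 (by exact_mod_cast hX.xg.det)
  have hDR : (0 : ℝ) < |(((PP5L.SS x).det : ℤ) : ℝ)| :=
    abs_pos.2 (by exact_mod_cast g0.ok.dn)
  have hR0 : 0 < R := by linarith
  have hxR : ∀ j, |(x j : ℝ)| ≤ R * PP5.tx t1 t2 j := fun j =>
    (hX.Tle j).trans (mul_le_mul_of_nonneg_right hTR (tx_pos h1 h2 j).le)
  have hDup := det_up h1 h2 hxR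
  have hYpos : 0 < 16 * C * y := by positivity
  -- the sum over m
  have main := per_x hC0 hK1 hK2 hcon hcone hbox G hX.xg.sym hX.xg.ev hX.xg.det T (16 * C * y) S
    (Θ x) κ l hT hYpos hS0 hX.lp (hCC.nn x) hY.κ0 hY.κ1 hX.gram h J0 J hY.hh (by
      intro i
      have h3 := hY.a1 T Λ (l 0) g0.Tlo g0.Tup hΛ0 hX.prod g0.l0
      refine h3.trans ?_
      apply mul_le_mul_of_nonneg_left _ hY.κ0.le
      exact mul_le_mul_of_nonneg_left (hX.l_ge i) (by positivity)) (y ^ c3)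
    (hY.a2 T Λ g0.Tlo g0.Tup hΛ0 hX.prod) hY.a3 (by
      intro B hB ha
      refine dic_C1 hX.xg (hCC.c1 x g0.ok.dn (by
        unfold PP5C.D2
        push_cast
        have e : ((PP5C.DX x).natAbs : ℝ) = |(((PP5L.SS x).det : ℤ) : ℝ)| := by
          rw [DX_eq, ← Int.cast_abs, Int.abs_eq_natAbs]
          rfl
        rw [e]
        have h5 := hY.a5 R hR0 (by have := g0.Tup; linarith)
        linarith)) hY.hδ B ?_ ha
      intro m hm
      obtain ⟨b1, b2, b3, b4⟩ := hB m hm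
      refine ⟨b1, b2, b3, ?_⟩
      exact (D2_le hC0 hT hS0 hX.lp hX.gram b4).trans
        (hY.a2' T Λ g0.Tlo g0.Tup hΛ0 hX.prod))
    (Qs.image mf) (by
      intro m hm
      obtain ⟨P, hP, rfl⟩ := Finset.mem_image.1 hm
      obtain ⟨-, g⟩ := hQ P hP
      refine ⟨g.mp, g.D2n, g.slu.trans hY.cc, g.mup, ?_⟩
      obtain ⟨i, hi⟩ := g.mlo
      refine ⟨i, hi.trans ?_⟩
      exact mul_le_mul_of_nonneg_right hY.a4 (abs_nonneg _))
    (fun m => (Qs.filter (fun P => mf P = m)).image nf) (by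
      intro m hm v hv
      obtain ⟨P, hP, rfl⟩ := Finset.mem_image.1 hv
      rw [Finset.mem_filter] at hP
      obtain ⟨hin, g⟩ := hQ P hP.1
      have hPn : (fun a => ∑ i, nf P i * b i a) = P := by
        funext a; exact (g.sum a).symm
      refine ⟨pr4_of hin.pr g.sum, ?_, ?_, ?_⟩
      · apply hX.quad
        rw [hPn]
        exact hin.qd
      · rw [← hP.2]; exact g.mn
      · -- the size of the coordinates
        obtain ⟨n', hn', hsz⟩ := hX.span P (16 * y) g.inE (by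
          intro i
          have := hin.bx i
          linarith)
        have hnn : nf P = n' := by
          have h3 := hX.ind (fun i => nf P i - n' i) (by
            intro a
            have h4 := g.sum a
            rw [hn' a] at h4
            simp only [sub_mul, Finset.sum_sub_distrib]
            linarith)
          funext i
          have := congrFun h3 i
          simp only [Pi.zero_apply] at this
          linarith
        intro i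
        rw [hnn]
        have := hsz i
        linarith)
  refine main.trans ?_
  -- the real inequality
  have hkd : (k : ℝ) ^ 2 * |(G.det : ℝ)| = |(((PP5L.SS x).det : ℤ) : ℝ)| := by
    rw [hX.kd]
    push_cast
    rw [abs_mul, abs_of_nonneg (show (0 : ℝ) ≤ (k : ℝ) ^ 2 by positivity)]
  have hk1 : (1 : ℝ) ≤ (k : ℝ) := by exact_mod_cast hX.k1
  have hS3 : S ^ 3 * Λ = C1 ^ 3 / (16 * C) * (16 * C * y) := by
    have e : ((y / Λ) ^ (1 / 3 : ℝ)) ^ 3 = y / Λ := by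
      rw [← Real.rpow_natCast, ← Real.rpow_mul (by positivity)]
      norm_num
    rw [hS, mul_pow, e]
    field_simp
  have hfin := fin_real (a := C1 ^ 3 / (16 * C)) (b := 24 * C ^ 4) (C3 := C)
    (C4 := C1 ^ 5 / (256 * C ^ 2)) (Y := 16 * C * y) (T := T) (S := S) (Λ := Λ)
    (d := |(G.det : ℝ)|) (D := |(((PP5L.SS x).det : ℤ) : ℝ)|) (k := (k : ℝ)) (R := R)
    (by positivity) (by positivity) hYpos hT hS0 hΛ0 hdR hS3 (det_G_le hT hX.gram) hX.prod (by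
      have h3 : T ^ 5 ≤ (C1 * y ^ (2 / 5 : ℝ)) ^ 5 := pow_le_pow_left₀ hT.le g0.Tup 5
      have e : (C1 * y ^ (2 / 5 : ℝ)) ^ 5 = C1 ^ 5 * y ^ 2 := by
        rw [mul_pow, ← Real.rpow_natCast (y ^ (2 / 5 : ℝ)), ← Real.rpow_mul hy0.le,
          ← Real.rpow_natCast y 2]
        norm_num
      rw [e] at h3
      refine h3.trans (le_of_eq ?_)
      field_simp
      ring) hDR hk1 hkd hDup hTR hRT
  have hpos : 0 ≤ 42 * K1 * K2 * Θ x := by
    have := hCC.nn x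
    positivity
  calc 42 * K1 * K2 * Θ x *
        (1 + Real.log (1 + Λ ^ 2 / (T ^ 4 * |(G.det : ℝ)|))) *
        ((S ^ 4 * Λ) * (1 + 16 * C * y / (T * S * √|(G.det : ℝ)|)))
      = 42 * K1 * K2 * Θ x * ((1 + Real.log (1 + Λ ^ 2 / (T ^ 4 * |(G.det : ℝ)|))) *
        ((S ^ 4 * Λ) * (1 + 16 * C * y / (T * S * √|(G.det : ℝ)|)))) := by ring
    _ ≤ 42 * K1 * K2 * Θ x * (Fc C C1 * ((k : ℝ) ^ (5 / 4 : ℝ) *
        (R ^ 4 / |(((PP5L.SS x).det : ℤ) : ℝ)|) ^ (5 / 8 : ℝ) * ((16 * C * y) ^ 2 / R ^ 3))) :=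
        mul_le_mul_of_nonneg_left hfin hpos
    _ = _ := by ring

theorem shell_finq {C C0 C1 CA K1 K2 δ δ1 c3 Cc c d0 A y κ K t1 t2 R : ℝ} {h J0 J : ℕ}
    (hC : 1 ≤ C) (hC1 : 1 ≤ C1) (hK1 : 0 ≤ K1) (hK2 : 0 ≤ K2) (hcon : ConB C K1)
    (hcone : ConeB K2) (hbox : BoxB K2) (hAC : ACB C0 CA) (hC0 : 13000 ≤ C0) (hCA : 0 ≤ CA)
    (hCc : 0 ≤ Cc) {Θ : (Fin 10 → ℤ) → ℝ} (hCC : CC y δ δ1 A c3 Cc Θ)
    (hY : Yo C C1 δ δ1 c3 c d0 A y h J0 J κ K) (h1 : 1 ≤ t1) (h2 : 1 ≤ t2)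
    (ht : t1 * t2 ≤ y ^ d0) (hR0 : 0 < R)
    (Tf : (Fin 10 → ℤ) → ℝ) (bf : (Fin 10 → ℤ) → Fin 4 → PP5.Sp)
    (Gf : (Fin 10 → ℤ) → Matrix (Fin 4) (Fin 4) ℤ) (lf : (Fin 10 → ℤ) → Fin 4 → ℝ)
    (kf : (Fin 10 → ℤ) → ℕ)
    (Ps : Finset PP5.Sp) (xf : PP5.Sp → Fin 10 → ℤ) (mf nf : PP5.Sp → Fin 4 → ℤ)
    (hXD : ∀ P ∈ Ps, XD C t1 t2 (Tf (xf P)) (xf P) (bf (xf P)) (Gf (xf P)) (lf (xf P)) (kf (xf P)))
    (hGP : ∀ P ∈ Ps, InQ y t1 t2 P ∧
      GP y c C1 (Tf (xf P)) (xf P) (bf (xf P)) (Gf (xf P)) (lf (xf P)) (kf (xf P)) P (mf P) (nf P))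
    (hR : ∀ P ∈ Ps, Tf (xf P) ≤ R ∧ R ≤ 2 * Tf (xf P)) :
    (Ps.card : ℝ) ≤ 42 * K1 * K2 * Fc C C1 * (26 * CA * Cc) * (16 * C) ^ 2 * (y ^ 2 * R ^ 5) := by
  classical
  have hy1 := hY.y1
  have hy0 : 0 < y := by linarith
  have hC0' : 0 < C := by linarith
  have hC10 : 0 < C1 := by linarith
  have hF : 0 ≤ Fc C C1 := by unfold Fc; positivity
  have h10 : 0 < t1 := by linarith
  have h20 : 0 < t2 := by linarith
  rcases Ps.eq_empty_or_nonempty with he | hne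
  · subst he
    simp only [Finset.card_empty, Nat.cast_zero]
    positivity
  -- the fibres
  have hfib := fib Ps xf mf nf (by
    intro P hP Q hQ hx hn
    funext a
    rw [(hGP P hP).2.sum a, (hGP Q hQ).2.sum a, hn, hx])
  have hfibR : (Ps.card : ℝ) = ∑ x ∈ Ps.image xf, ∑ m ∈ (Ps.filter (fun P => xf P = x)).image mf,
      ((((((Ps.filter (fun P => xf P = x)).filter (fun P => mf P = m)).image nf)).card : ℕ) : ℝ) := by
    rw [hfib]; push_cast; rfl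
  set W : (Fin 10 → ℤ) → ℝ := fun x => (kf x : ℝ) ^ (5 / 4 : ℝ) * Θ x with hW
  have hone : ∀ x ∈ Ps.image xf, ∑ m ∈ (Ps.filter (fun P => xf P = x)).image mf,
      ((((((Ps.filter (fun P => xf P = x)).filter (fun P => mf P = m)).image nf)).card : ℕ) : ℝ) ≤
      42 * K1 * K2 * Fc C C1 * ((16 * C * y) ^ 2 / R ^ 3) *
        (W x * (R ^ 4 / |(((PP5L.SS x).det : ℤ) : ℝ)|) ^ (5 / 8 : ℝ)) := by
    intro x hx
    obtain ⟨P0, hP0, hxP0⟩ := Finset.mem_image.1 hx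
    have hX := hXD P0 hP0
    rw [hxP0] at hX
    obtain ⟨r1, r2⟩ := hR P0 hP0
    rw [hxP0] at r1 r2
    have h3 := one_xq hC hC1 hK1 hK2 hcon hcone hbox hCC hY h10 h20 hX r1 r2
      (Ps.filter (fun P => xf P = x)) mf nf (by
        intro P hP
        rw [Finset.mem_filter] at hP
        obtain ⟨a1, a2⟩ := hGP P hP.1
        rw [hP.2] at a2
        exact ⟨a1, a2⟩) ⟨P0, by rw [Finset.mem_filter]; exact ⟨hP0, hxP0⟩⟩
    refine h3.trans (le_of_eq ?_)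
    rw [hW]
    ring
  rw [hfibR]
  refine (Finset.sum_le_sum hone).trans ?_
  rw [← Finset.mul_sum]
  have hPdata : ∀ x ∈ Ps.image xf, Xok x ∧ (∀ j, |(x j : ℝ)| ≤ R * PP5.tx t1 t2 j) ∧
      (∃ j, R * PP5.tx t1 t2 j ≤ 2 * |(x j : ℝ)|) ∧ 1 ≤ kf x ∧
      PP5K.RK (kf x) x ∧ (kf x : ℝ) ≤ y ^ c ∧ R ^ 4 ≤ K * |(((PP5L.SS x).det : ℤ) : ℝ)| ∧
      y ^ (2 / 5 - c) ≤ R ∧ R ≤ 2 * (C1 * y ^ (2 / 5 : ℝ)) := by
    intro x hx
    obtain ⟨P0, hP0, hxP0⟩ := Finset.mem_image.1 hx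
    have hX := hXD P0 hP0
    have hG := (hGP P0 hP0).2
    rw [hxP0] at hX hG
    obtain ⟨r1, r2⟩ := hR P0 hP0
    rw [hxP0] at r1 r2
    refine ⟨hG.ok, ?_, ?_, hX.k1, hX.rk, hG.kup, ?_, hG.Tlo.trans r1, ?_⟩
    · intro j
      exact (hX.Tle j).trans (mul_le_mul_of_nonneg_right r1 (tx_pos h10 h20 j).le)
    · obtain ⟨j, hj⟩ := hX.Tge
      refine ⟨j, ?_⟩
      have := tx_pos h10 h20 j
      nlinarith
    · have h4 : R ^ 4 ≤ (2 * Tf x) ^ 4 := pow_le_pow_left₀ hR0.le r2 4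
      have h5 := hG.Dlo
      have h6 := hY.k2
      calc R ^ 4 ≤ (2 * Tf x) ^ 4 := h4
        _ = 16 * Tf x ^ 4 := by ring
        _ ≤ 16 * (y ^ c * |(((PP5L.SS x).det : ℤ) : ℝ)|) := by linarith
        _ = 16 * y ^ c * |(((PP5L.SS x).det : ℤ) : ℝ)| := by ring
        _ ≤ _ := mul_le_mul_of_nonneg_right h6 (abs_nonneg _)
    · have := hG.Tup
      linarith
  have hRr : y ^ (2 / 5 - c) ≤ R ∧ R ≤ 2 * (C1 * y ^ (2 / 5 : ℝ)) := by
    obtain ⟨P0, hP0⟩ := hne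
    exact (hPdata (xf P0) (Finset.mem_image_of_mem _ hP0)).2.2.2.2.2.2.2
  have hK16 := hY.k1
  have hKpos : 0 < K := by linarith
  have hsx := shell_x (Cw := Cc) hAC hC0 hCA hCc hR0 (by linarith) h10 h20 (Ps.image xf) W
    (fun x _ => by have := hCC.nn x; simp only [hW]; positivity)
    (fun x hx => by
      obtain ⟨a1, a2, a3, -, -, -, a7, -, -⟩ := hPdata x hx
      exact ⟨a1.ff, a2, a3, a7⟩)
    (fun k0 => by
      have h3 := cells hCC hY h1 h2 ht hRr.1 hRr.2 (Ps.image xf) kf (fun x hx => by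
        obtain ⟨a1, a2, a3, a4, a5, a6, a7, -, -⟩ := hPdata x hx
        exact ⟨a1, a2, a4, a5, a6⟩) k0
      by_cases hj : ∃ j, K ≤ 4 * |(k0 j : ℝ)|
      · rw [if_pos hj] at h3
        exact h3
      · have hem : (Ps.image xf).filter (fun x => cell R K t1 t2 x = k0) = ∅ := by
          rw [Finset.filter_eq_empty_iff]
          intro x hx hc
          obtain ⟨a1, a2, a3, -⟩ := hPdata x hx
          obtain ⟨-, b2, -⟩ := cell_facts hR0 (by linarith : 4 ≤ K) h10 h20 a1.ff a2 a3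
          rw [hc] at b2
          exact hj b2
        rw [hem, Finset.sum_empty]
        positivity)
  have hpos : 0 ≤ 42 * K1 * K2 * Fc C C1 * ((16 * C * y) ^ 2 / R ^ 3) := by positivity
  refine (mul_le_mul_of_nonneg_left hsx hpos).trans (le_of_eq ?_)
  field_simp

end Pool.Agent.PP5LE
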