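import Pool.Agent.PP5LE.Spx

/-!
# LB5, section E, module Spa (size 4): if `x ∈ E_P` has `rank S(x) ≤ 2` and `Df P` is not a square, then `n² = l m`

PROOF.  Write (over `ℚ`) `R1 = p (P6 r + P7 s) + q (P9 r + P10 s)`, `R2 = p (P7 r + P8 s) + q (P10 r + P11 s)` (`= R(v; w, e1), R(v; w, e2)`).
With the formulas of `Par` for `x` and the sixteen equations `e1, .., e16` of `InE P x` (cast to `ℚ`) one has the four IDENTITIES
(found by computer, to be used as `linear_combination`, coefficients as follows):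
 `q (l m - n²) R1 = - n p e10 + n q e8 - m r e2 - m s e14`
 `p (l m - n²) R1 = n p e16 - n q e4 - m r e11 - m s e5`
 `q (l m - n²) R2 = - n p e3 + n q e15 - m r e6 - m s e12`
 `p (l m - n²) R2 = n p e7 - n q e9 - m r e13 - m s e1`
(subst the formulas for `x` first, as in `Rk3_core`).  If `l m ≠ n²`, then (`(p, q) ≠ 0`) `R1 = R2 = 0`: with
`a = p P6 + q P9`, `b = p P7 + q P10`, `c = p P8 + q P11` (integers): `r a + s b = 0`, `r b + s c = 0`, `(r, s) ≠ 0`, so `a c - b² = 0`: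
`r (a c - b²) = c (r a + s b) - b (r b + s c)`, `s (a c - b²) = a (r b + s c) - b (r a + s b)`.
`a c - b² = α p² + β p q + γ q²`, `α = P6 P8 - P7²`, `β = P6 P11 + P8 P9 - 2 P7 P10`, `γ = P9 P11 - P10²`, and `Df P = β² - 4 α γ`.
`4 α (α p² + β p q + γ q²) = (2 α p + β q)² - Df P · q²`.  If `q ≠ 0`: `Df P · q²` is a square, hence `Df P` is a square
(`q ∣ 2 α p + β q` from `q² ∣ (2 α p + β q)²`: `Int.pow_dvd_pow_iff`).  If `q = 0`: `α p² = 0`, `α = 0`, `Df P = β²`.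
-/

set_option autoImplicit false

namespace Pool.Agent.PP5LE

open Pool.Agent.PP5

private theorem spa_core {P : Fin 12 → ℚ} {p q r s l m n : ℚ} (h : p ≠ 0 ∨ q ≠ 0)
    (hn : l * m - n ^ 2 ≠ 0) {x0 x1 x2 x3 x4 x5 x6 x7 x8 x9 : ℚ}
    (hx0 : x0 = l * q ^ 2) (hx1 : x1 = m * s ^ 2) (hx2 : x2 = l * p ^ 2) (hx3 : x3 = m * r ^ 2)
    (hx4 : x4 = -(l * p * q) - m * r * s) (hx5 : x5 = -(l * p * q) + m * r * s)
    (hx6 : x6 = n * q * s) (hx7 : x7 = -(n * p * s)) (hx8 : x8 = -(n * q * r)) (hx9 : x9 = n * p * r)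
    (e1 : P 4 * x9 - P 5 * x8 - P 8 * x2 + P 10 * x3 + P 11 * x5 = 0)
    (e2 : -(P 0 * x7) + P 1 * x6 + P 7 * x1 - P 9 * x0 + P 6 * x5 = 0)
    (e3 : P 0 * x3 + P 3 * x5 - P 4 * x0 - P 7 * x8 + P 8 * x6 = 0)
    (e4 : -(P 1 * x2) + P 2 * x5 + P 5 * x1 + P 9 * x9 - P 10 * x7 = 0)
    (e5 : P 4 * x7 - P 5 * x6 - P 7 * x2 + P 9 * x3 + P 10 * x5 = 0)
    (e6 : -(P 0 * x9) + P 1 * x8 + P 7 * x5 + P 8 * x1 - P 10 * x0 = 0)
    (e7 : P 1 * x3 + P 4 * x5 - P 5 * x0 - P 7 * x9 + P 8 * x7 = 0)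
    (e8 : -(P 0 * x2) + P 1 * x5 + P 4 * x1 + P 9 * x8 - P 10 * x6 = 0)
    (e9 : -(P 2 * x3) - P 4 * x2 + P 5 * x4 + P 10 * x9 - P 11 * x7 = 0)
    (e10 : P 0 * x4 - P 1 * x0 - P 3 * x1 + P 7 * x6 - P 6 * x8 = 0)
    (e11 : P 1 * x7 - P 2 * x6 + P 9 * x4 - P 10 * x1 - P 6 * x2 = 0)
    (e12 : -(P 3 * x9) + P 4 * x8 - P 7 * x3 + P 8 * x4 - P 11 * x0 = 0)
    (e13 : P 1 * x9 - P 2 * x8 - P 7 * x2 + P 10 * x4 - P 11 * x1 = 0)
    (e14 : -(P 3 * x7) + P 4 * x6 + P 7 * x4 - P 10 * x0 - P 6 * x3 = 0)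
    (e15 : -(P 1 * x3) - P 3 * x2 + P 4 * x4 + P 10 * x8 - P 11 * x6 = 0)
    (e16 : P 1 * x4 - P 2 * x0 - P 4 * x1 + P 7 * x7 - P 6 * x9 = 0) :
    p * (P 6 * r + P 7 * s) + q * (P 9 * r + P 10 * s) = 0 ∧
      p * (P 7 * r + P 8 * s) + q * (P 10 * r + P 11 * s) = 0 := by
  subst hx0 hx1 hx2 hx3 hx4 hx5 hx6 hx7 hx8 hx9
  constructor
  · rcases h with h | h
    · refine (mul_eq_zero.1 (?_ : p * (l * m - n ^ 2) * _ = 0)).resolve_left (mul_ne_zero h hn)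
      linear_combination n * p * e16 - n * q * e4 - m * r * e11 - m * s * e5
    · refine (mul_eq_zero.1 (?_ : q * (l * m - n ^ 2) * _ = 0)).resolve_left (mul_ne_zero h hn)
      linear_combination -(n * p * e10) + n * q * e8 - m * r * e2 - m * s * e14
  · rcases h with h | h
    · refine (mul_eq_zero.1 (?_ : p * (l * m - n ^ 2) * _ = 0)).resolve_left (mul_ne_zero h hn)
      linear_combination n * p * e7 - n * q * e9 - m * r * e13 - m * s * e1
    · refine (mul_eq_zero.1 (?_ : q * (l * m - n ^ 2) * _ = 0)).resolve_left (mul_ne_zero h hn)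
      linear_combination -(n * p * e3) + n * q * e15 - m * r * e6 - m * s * e12

private theorem spa_sq {α β γ p q : ℤ} (h : p ≠ 0 ∨ q ≠ 0) (h0 : α * p ^ 2 + β * p * q + γ * q ^ 2 = 0) :
    IsSquare (β ^ 2 - 4 * α * γ) := by
  by_cases hq : q = 0
  · have hp : p ≠ 0 := by
      rcases h with h | h
      · exact h
      · exact absurd hq h
    subst hq
    have h1 : α * p ^ 2 = 0 := by linarith
    have h2 : α = 0 := (mul_eq_zero.1 h1).resolve_right (pow_ne_zero 2 hp)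
    subst h2
    exact ⟨β, by ring⟩
  · have h1 : (2 * α * p + β * q) ^ 2 = (β ^ 2 - 4 * α * γ) * q ^ 2 := by
      linear_combination 4 * α * h0
    have h2 : q ^ 2 ∣ (2 * α * p + β * q) ^ 2 := ⟨β ^ 2 - 4 * α * γ, by rw [h1]; ring⟩
    have h3 : q ∣ 2 * α * p + β * q := (Int.pow_dvd_pow_iff (by norm_num)).1 h2
    obtain ⟨t, ht⟩ := h3
    refine ⟨t, ?_⟩
    have h4 : q ^ 2 * (β ^ 2 - 4 * α * γ) = q ^ 2 * (t * t) := by
      rw [ht] at h1
      linear_combination -h1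
    exact mul_left_cancel₀ (pow_ne_zero 2 hq) h4

theorem spa {P : Sp} (hD : ¬ IsSquare (Df P)) {x : Fin 10 → ℤ} (hE : InE P x) {p q r s : ℤ}
    {l m n : ℚ} (h : Par x p q r s l m n) : l * m = n ^ 2 := by
  by_contra hne
  have hn : l * m - n ^ 2 ≠ 0 := fun h0 => hne (by linarith)
  obtain ⟨hpq, hrs, h0, h1, h2, h3, h4, h5, h6, h7, h8, h9⟩ := h
  have hpq' : (p : ℚ) ≠ 0 ∨ (q : ℚ) ≠ 0 := by
    rcases hpq with h | h
    · exact Or.inl (by exact_mod_cast h)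
    · exact Or.inr (by exact_mod_cast h)
  have e1 := hE.e1
  have e2 := hE.e2
  have e3 := hE.e3
  have e4 := hE.e4
  have e5 := hE.e5
  have e6 := hE.e6
  have e7 := hE.e7
  have e8 := hE.e8
  have e9 := hE.e9
  have e10 := hE.e10
  have e11 := hE.e11
  have e12 := hE.e12
  have e13 := hE.e13
  have e14 := hE.e14
  have e15 := hE.e15
  have e16 := hE.e16
  have hc := spa_core (P := fun i => (P i : ℚ)) (r := (r : ℚ)) (s := (s : ℚ)) hpq' hn h0 h1 h2 h3 h4 h5 h6 h7 h8 h9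
    (by exact_mod_cast e1) (by exact_mod_cast e2) (by exact_mod_cast e3) (by exact_mod_cast e4)
    (by exact_mod_cast e5) (by exact_mod_cast e6) (by exact_mod_cast e7) (by exact_mod_cast e8)
    (by exact_mod_cast e9) (by exact_mod_cast e10) (by exact_mod_cast e11) (by exact_mod_cast e12)
    (by exact_mod_cast e13) (by exact_mod_cast e14) (by exact_mod_cast e15) (by exact_mod_cast e16)
  obtain ⟨c1, c2⟩ := hc
  have d1 : p * (P 6 * r + P 7 * s) + q * (P 9 * r + P 10 * s) = 0 := by exact_mod_cast c1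
  have d2 : p * (P 7 * r + P 8 * s) + q * (P 10 * r + P 11 * s) = 0 := by exact_mod_cast c2
  have hac : (p * P 6 + q * P 9) * (p * P 8 + q * P 11) - (p * P 7 + q * P 10) ^ 2 = 0 := by
    rcases hrs with h | h
    · refine (mul_eq_zero.1 (?_ : r * _ = 0)).resolve_left h
      linear_combination (p * P 8 + q * P 11) * d1 - (p * P 7 + q * P 10) * d2
    · refine (mul_eq_zero.1 (?_ : s * _ = 0)).resolve_left h
      linear_combination (p * P 6 + q * P 9) * d2 - (p * P 7 + q * P 10) * d1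
  apply hD
  have := spa_sq (α := P 6 * P 8 - P 7 ^ 2) (β := P 6 * P 11 + P 8 * P 9 - 2 * P 7 * P 10)
    (γ := P 9 * P 11 - P 10 ^ 2) hpq (by linear_combination hac)
  exact this

end Pool.Agent.PP5LE
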