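import Pool.Agent.PP5LE.Spx
import Pool.Agent.PP5.DK

/-!
# LB5, section E, module Spb (size 3): rank one vectors are `± ql l`

`QQ x` is twice the matrix `(l_i l_j)` if `x = ql l`.

PROOF of `spb`.  `M := QQ x` is symmetric with `M i j * M k h = M i h * M k j`.  Some diagonal entry `M k k ≠ 0` (otherwise
`M i j ^ 2 = M i i * M j j = 0`, so `M = 0`, `x = 0`, against `hp`).  Let `g = gcd` of the row `M k ·` (or: `g ≠ 0` and `u` with
`M k j = g u j`, `u` primitive; e.g. the minimal-denominator choice, `Finset.gcd`), then `M k k = g u k`, and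
`M i j * M k k = M i k * M k j = g² u i u j`, so `M i j * u k = g u i u j` (cancel `g`).  As `u` is primitive there are integers `a i` with
`∑ a i u i = 1`; multiply the relation by `a i a j` and sum: `u k ∣ g`, `g = μ u k`, so `M i j = μ u i u j` (cancel `u k ≠ 0`).
The diagonal entries of `M` are even, so `μ` is even (else all `u i` are even).  `μ = 2 ν`: then `x j = ν (ql u) j` for all `j`
(for `j = 4, 5` from `x 4 + x 5 = 2 ν u0 u1`, `x 4 - x 5 = 2 ν u2 u3`).  By `hp` no prime divides `ν`, so `ν = ± 1`.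

PROOF of `spb_of_par`: `M i j = 2 σ_ij ...`: with `a = (p, -q)`, `b = (r, -s)`: `M = 2 [[l a aᵀ, - n a bᵀ], [- n b aᵀ, m b bᵀ]]`; the relation is
polynomial in `l, m, n` modulo `l m = n²`; cast to `ℚ`, `fin_cases` on the four indices, `simp [QQ]`, substitute, each case is
`linear_combination (monomial) * h`, or shorter: if `l ≠ 0`, `M i j = (2 / l) z i z j` with `z = (l a, - n b)`; if `l = 0` then `n = 0` and
`M i j = 2 m z i z j` with `z = (0, b)`; a matrix of the form `t z i z j` satisfies the relation (`ring`).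

PROOF of `spb_of_prop`: `A * x i = B * ql l i`, so `A * QQ x i j = B * QQ (ql l) i j = B * (2 l i l j)`; cancel `A²`.
-/

set_option autoImplicit false

namespace Pool.Agent.PP5LE

open Pool.Agent.PP5

/-- the matrix `2 (l_i l_j)` for `x = ql l` -/
def QQ (x : Fin 10 → ℤ) : Matrix (Fin 4) (Fin 4) ℤ :=
  !![2 * x 2, x 4 + x 5, -(2 * x 9), -(2 * x 7);
     x 4 + x 5, 2 * x 0, -(2 * x 8), -(2 * x 6);
     -(2 * x 9), -(2 * x 8), 2 * x 3, x 4 - x 5;
     -(2 * x 7), -(2 * x 6), x 4 - x 5, 2 * x 1]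

/-- `QQ x` has rank at most one -/
def R1 (x : Fin 10 → ℤ) : Prop := ∀ i j k h, QQ x i j * QQ x k h = QQ x i h * QQ x k j

private lemma spb_symm (x : Fin 10 → ℤ) (i j : Fin 4) : QQ x i j = QQ x j i := by
  fin_cases i <;> fin_cases j <;> rfl

private lemma spb_prim {u : Fin 4 → ℤ} (hu : Finset.univ.gcd u = 1) {d a : ℤ}
    (h : ∀ j, d ∣ a * u j) : d ∣ a := by
  have h1 : d ∣ Finset.univ.gcd (fun j => a * u j) := Finset.dvd_gcd fun j _ => h j
  rw [Finset.gcd_mul_left, hu, mul_one, dvd_normalize_iff] at h1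
  exact h1

private lemma spb_core {M : Matrix (Fin 4) (Fin 4) ℤ} (hs : ∀ i j, M i j = M j i)
    (h : ∀ i j k h, M i j * M k h = M i h * M k j) {k : Fin 4} (hk : M k k ≠ 0) :
    ∃ (u : Fin 4 → ℤ) (μ : ℤ), Finset.univ.gcd u = 1 ∧ ∀ i j, M i j = μ * (u i * u j) := by
  obtain ⟨u, hu1, hu2⟩ := Finset.extract_gcd (fun j => M k j)
    (Finset.univ_nonempty (α := Fin 4))
  set g : ℤ := Finset.univ.gcd (fun j => M k j) with hg
  have hrow : ∀ j, M k j = g * u j := fun j => hu1 j (Finset.mem_univ j)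
  have hgu : g * u k ≠ 0 := by rw [← hrow]; exact hk
  have hg0 : g ≠ 0 := left_ne_zero_of_mul hgu
  have huk : u k ≠ 0 := right_ne_zero_of_mul hgu
  have hrel : ∀ i j, M i j * u k = g * (u i * u j) := by
    intro i j
    have h1 := h i j k k
    rw [hs i k, hrow k, hrow i, hrow j] at h1
    apply mul_left_cancel₀ hg0
    linear_combination h1
  have hdvd : u k ∣ g := by
    refine spb_prim hu2 fun i => spb_prim hu2 fun j => ⟨M i j, ?_⟩
    linear_combination -(hrel i j)
  obtain ⟨μ, hμ⟩ := hdvd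
  refine ⟨u, μ, hu2, fun i j => ?_⟩
  apply mul_right_cancel₀ huk
  rw [hrel, hμ]
  ring

theorem spb {x : Fin 10 → ℤ} (hp : ∀ p : ℕ, p.Prime → ∃ j, ¬ (p : ℤ) ∣ x j) (h : R1 x) :
    ∃ l : Fin 4 → ℤ, (∀ j, x j = ql l j) ∨ (∀ j, x j = -(ql l j)) := by
  have hx0 : ¬ ∀ j, x j = 0 := by
    intro h0
    obtain ⟨j, hj⟩ := hp 2 Nat.prime_two
    exact hj (by rw [h0 j]; exact dvd_zero _)
  obtain ⟨k, hk⟩ : ∃ k, QQ x k k ≠ 0 := by
    by_contra hcon
    push Not at hcon
    have hM : ∀ i j, QQ x i j = 0 := by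
      intro i j
      have h1 := h i j j i
      rw [hcon i, hcon j, spb_symm x j i, mul_zero] at h1
      exact mul_self_eq_zero.1 h1
    apply hx0
    have e0 : 2 * x 0 = 0 := hM 1 1
    have e1 : 2 * x 1 = 0 := hM 3 3
    have e2 : 2 * x 2 = 0 := hM 0 0
    have e3 : 2 * x 3 = 0 := hM 2 2
    have e4 : x 4 + x 5 = 0 := hM 0 1
    have e5 : x 4 - x 5 = 0 := hM 2 3
    have e6 : -(2 * x 6) = 0 := hM 1 3
    have e7 : -(2 * x 7) = 0 := hM 0 3
    have e8 : -(2 * x 8) = 0 := hM 1 2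
    have e9 : -(2 * x 9) = 0 := hM 0 2
    intro j
    fin_cases j
    · show x 0 = 0; omega
    · show x 1 = 0; omega
    · show x 2 = 0; omega
    · show x 3 = 0; omega
    · show x 4 = 0; omega
    · show x 5 = 0; omega
    · show x 6 = 0; omega
    · show x 7 = 0; omega
    · show x 8 = 0; omega
    · show x 9 = 0; omega
  obtain ⟨u, μ, hu, hM⟩ := spb_core (spb_symm x) h hk
  have hev : ∀ i, (2 : ℤ) ∣ QQ x i i := by
    intro i
    fin_cases i
    · exact ⟨x 2, rfl⟩
    · exact ⟨x 0, rfl⟩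
    · exact ⟨x 3, rfl⟩
    · exact ⟨x 1, rfl⟩
  have hμ : (2 : ℤ) ∣ μ := by
    by_contra hodd
    have h2 : ∀ i, (2 : ℤ) ∣ u i := by
      intro i
      have h1 := hev i
      rw [hM i i] at h1
      rcases Int.prime_two.dvd_or_dvd h1 with h3 | h3
      · exact absurd h3 hodd
      · rcases Int.prime_two.dvd_or_dvd h3 with h4 | h4 <;> exact h4
    have h5 : (2 : ℤ) ∣ Finset.univ.gcd u := Finset.dvd_gcd fun i _ => h2 i
    rw [hu] at h5
    norm_num at h5
  obtain ⟨ν, hν⟩ := hμ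
  have e0 : 2 * x 0 = μ * (u 1 * u 1) := hM 1 1
  have e1 : 2 * x 1 = μ * (u 3 * u 3) := hM 3 3
  have e2 : 2 * x 2 = μ * (u 0 * u 0) := hM 0 0
  have e3 : 2 * x 3 = μ * (u 2 * u 2) := hM 2 2
  have e4 : x 4 + x 5 = μ * (u 0 * u 1) := hM 0 1
  have e5 : x 4 - x 5 = μ * (u 2 * u 3) := hM 2 3
  have e6 : -(2 * x 6) = μ * (u 1 * u 3) := hM 1 3
  have e7 : -(2 * x 7) = μ * (u 0 * u 3) := hM 0 3
  have e8 : -(2 * x 8) = μ * (u 1 * u 2) := hM 1 2
  have e9 : -(2 * x 9) = μ * (u 0 * u 2) := hM 0 2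
  rw [hν] at e0 e1 e2 e3 e4 e5 e6 e7 e8 e9
  have hx : ∀ j, x j = ν * ql u j := by
    intro j
    have t2 : (2 : ℤ) ≠ 0 := by norm_num
    fin_cases j
    · show x 0 = ν * (u 1 * u 1)
      apply mul_left_cancel₀ t2; linear_combination e0
    · show x 1 = ν * (u 3 * u 3)
      apply mul_left_cancel₀ t2; linear_combination e1
    · show x 2 = ν * (u 0 * u 0)
      apply mul_left_cancel₀ t2; linear_combination e2
    · show x 3 = ν * (u 2 * u 2)
      apply mul_left_cancel₀ t2; linear_combination e3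
    · show x 4 = ν * (u 0 * u 1 + u 2 * u 3)
      apply mul_left_cancel₀ t2; linear_combination e4 + e5
    · show x 5 = ν * (u 0 * u 1 - u 2 * u 3)
      apply mul_left_cancel₀ t2; linear_combination e4 - e5
    · show x 6 = ν * -(u 1 * u 3)
      apply mul_left_cancel₀ t2; linear_combination -e6
    · show x 7 = ν * -(u 0 * u 3)
      apply mul_left_cancel₀ t2; linear_combination -e7
    · show x 8 = ν * -(u 1 * u 2)
      apply mul_left_cancel₀ t2; linear_combination -e8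
    · show x 9 = ν * -(u 0 * u 2)
      apply mul_left_cancel₀ t2; linear_combination -e9
  have hν1 : ν.natAbs = 1 := by
    by_contra hne
    obtain ⟨p, hpp, hpd⟩ := Nat.exists_prime_and_dvd hne
    obtain ⟨j, hj⟩ := hp p hpp
    apply hj
    rw [hx j]
    exact Dvd.dvd.mul_right (Int.natCast_dvd.2 hpd) _
  rcases Int.natAbs_eq_iff.1 hν1 with h1 | h1
  · refine ⟨u, Or.inl fun j => ?_⟩
    rw [hx j, h1]; simp
  · refine ⟨u, Or.inr fun j => ?_⟩
    rw [hx j, h1]; simp

private lemma spb_r1_of {x : Fin 10 → ℤ} {t : ℚ} {z : Fin 4 → ℚ}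
    (h : ∀ i j, ((QQ x i j : ℤ) : ℚ) = t * z i * z j) : R1 x := by
  intro i j k l
  have h1 : ((QQ x i j * QQ x k l : ℤ) : ℚ) = ((QQ x i l * QQ x k j : ℤ) : ℚ) := by
    push_cast
    rw [h, h, h, h]
    ring
  exact_mod_cast h1

theorem spb_of_par {x : Fin 10 → ℤ} {p q r s : ℤ} {l m n : ℚ} (h : Par x p q r s l m n)
    (hl : l * m = n ^ 2) : R1 x := by
  obtain ⟨-, -, h0, h1, h2, h3, h4, h5, h6, h7, h8, h9⟩ := h
  by_cases hl0 : l = 0
  · have hn : n = 0 := by
      have : n ^ 2 = 0 := by rw [← hl, hl0, zero_mul]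
      exact pow_eq_zero_iff (by norm_num) |>.1 this
    refine spb_r1_of (t := 2 * m) (z := ![0, 0, r, -s]) ?_
    intro i j
    fin_cases i <;> fin_cases j <;> simp [QQ, h0, h1, h2, h3, h4, h5, h6, h7, h8, h9, hl0, hn] <;>
      ring
  · have hm : m = n ^ 2 / l := by
      rw [eq_div_iff hl0]; linear_combination hl
    refine spb_r1_of (t := 2 / l) (z := ![l * p, -(l * q), -(n * r), n * s]) ?_
    intro i j
    fin_cases i <;> fin_cases j <;>
      simp [QQ, h0, h1, h2, h3, h4, h5, h6, h7, h8, h9, hm] <;> field_simp <;> ring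

theorem spb_of_prop {x : Fin 10 → ℤ} {l : Fin 4 → ℤ} {A B : ℤ} (hA : A ≠ 0)
    (h : ∀ j, A * x j = B * ql l j) : R1 x := by
  have h0 : A * x 0 = B * (l 1 * l 1) := h 0
  have h1 : A * x 1 = B * (l 3 * l 3) := h 1
  have h2 : A * x 2 = B * (l 0 * l 0) := h 2
  have h3 : A * x 3 = B * (l 2 * l 2) := h 3
  have h4 : A * x 4 = B * (l 0 * l 1 + l 2 * l 3) := h 4
  have h5 : A * x 5 = B * (l 0 * l 1 - l 2 * l 3) := h 5
  have h6 : A * x 6 = B * -(l 1 * l 3) := h 6
  have h7 : A * x 7 = B * -(l 0 * l 3) := h 7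
  have h8 : A * x 8 = B * -(l 1 * l 2) := h 8
  have h9 : A * x 9 = B * -(l 0 * l 2) := h 9
  have hq : ∀ i j, A * QQ x i j = 2 * B * (l i * l j) := by
    intro i j
    fin_cases i <;> fin_cases j
    · show A * (2 * x 2) = 2 * B * (l 0 * l 0); linear_combination 2 * h2
    · show A * (x 4 + x 5) = 2 * B * (l 0 * l 1); linear_combination h4 + h5
    · show A * (-(2 * x 9)) = 2 * B * (l 0 * l 2); linear_combination -2 * h9
    · show A * (-(2 * x 7)) = 2 * B * (l 0 * l 3); linear_combination -2 * h7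
    · show A * (x 4 + x 5) = 2 * B * (l 1 * l 0); linear_combination h4 + h5
    · show A * (2 * x 0) = 2 * B * (l 1 * l 1); linear_combination 2 * h0
    · show A * (-(2 * x 8)) = 2 * B * (l 1 * l 2); linear_combination -2 * h8
    · show A * (-(2 * x 6)) = 2 * B * (l 1 * l 3); linear_combination -2 * h6
    · show A * (-(2 * x 9)) = 2 * B * (l 2 * l 0); linear_combination -2 * h9
    · show A * (-(2 * x 8)) = 2 * B * (l 2 * l 1); linear_combination -2 * h8
    · show A * (2 * x 3) = 2 * B * (l 2 * l 2); linear_combination 2 * h3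
    · show A * (x 4 - x 5) = 2 * B * (l 2 * l 3); linear_combination h4 - h5
    · show A * (-(2 * x 7)) = 2 * B * (l 3 * l 0); linear_combination -2 * h7
    · show A * (-(2 * x 6)) = 2 * B * (l 3 * l 1); linear_combination -2 * h6
    · show A * (x 4 - x 5) = 2 * B * (l 3 * l 2); linear_combination h4 - h5
    · show A * (2 * x 1) = 2 * B * (l 3 * l 3); linear_combination 2 * h1
  intro i j k g
  apply mul_left_cancel₀ (mul_ne_zero hA hA)
  calc A * A * (QQ x i j * QQ x k g) = (A * QQ x i j) * (A * QQ x k g) := by ring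
    _ = (A * QQ x i g) * (A * QQ x k j) := by rw [hq, hq, hq, hq]; ring
    _ = A * A * (QQ x i g * QQ x k j) := by ring

end Pool.Agent.PP5LE
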