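import Pool.Agent.PP5LE.Spb
import Pool.Agent.PP5LE.Spa

/-!
# LB5, section E, module Spc (size 3): the vectors of `E_P` which are not regular are `± ql l`

PROOF of `rank4'`.  This is the proof of `PP5.rank4` (file PP5/DK.lean) with the last lines of the step `hno` replaced: there, from
`h2 : PP5L.HP x (rl l) = 0` and `hl0 : l ≠ 0` one gets the contradiction from the new hypothesis `hn`.  (Copy the proof.)

PROOF of `spc`.  By contradiction/cases: if `finrank (Lx x) ≠ 4` then by `rank4'` there is `l ≠ 0` with `HP x (rl l) = 0`; choose `k` with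
`l k ≠ 0`; `ql_prop` gives `(2 (l k * l k)) * x i = (2 x σ(k)) * ql l i` for all `i`, so `R1 x` by `spb_of_prop`.
Otherwise `(SS x).adjugate = 0` (as `Reg x` fails), `spx` gives `Par x p q r s l m n`, `spa` gives `l m = n²`, `spb_of_par` gives `R1 x`.
Then `spb`.
-/

set_option autoImplicit false

namespace Pool.Agent.PP5LE

open Pool.Agent.PP5 Module

theorem rank4' {x : Fin 10 → ℤ} (hF : FF x = 0)
    (hp : ∀ p : ℕ, p.Prime → ∃ j, ¬ (p : ℤ) ∣ x j)
    (hn : ∀ l : Fin 4 → ℤ, l ≠ 0 → PP5L.HP x (rl l) ≠ 0) : Module.finrank ℤ (PP5L.Lx x) = 4 := by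
  obtain ⟨x', h1⟩ := PP5L.exists_partner hp
  have hF' : PP5L.FF x = 0 := by rw [FF_eq]; exact hF
  have hx : x ≠ 0 := by
    rintro rfl
    obtain ⟨j, hj⟩ := hp 2 Nat.prime_two
    exact hj (dvd_zero _)
  set f : PP5L.Kx x →ₗ[ℤ] (Fin 4 → ℤ) := PP5L.rhol.domRestrict (PP5L.Kx x) with hf
  have hrn := PP5L.rank_nullity_gen f
  rw [PP5L.finrank_Kx hF' h1] at hrn
  -- no linear form vanishes on the range
  have hno : ∀ l : Fin 4 → ℤ, (∀ r ∈ LinearMap.range f, ∑ i, l i * r i = 0) → l = 0 := by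
    intro l hl
    by_contra hl0
    have h2 : PP5L.HP x (rl l) = 0 := by
      funext r
      have h3 := hl (f ⟨PP5L.HP x (Pi.single r 1), PP5L.HP_mem_Kx hF' _⟩) ⟨_, rfl⟩
      have h4 : ∑ i, l i * f ⟨PP5L.HP x (Pi.single r 1), PP5L.HP_mem_Kx hF' _⟩ i
          = PP5L.dot (PP5L.HP x (Pi.single r 1)) (rl l) := by
        simp only [hf, LinearMap.domRestrict_apply, PP5L.rhol, LinearMap.coe_mk, AddHom.coe_mk]
        exact sum_rho _ _
      rw [h4, PP5L.dot_HP_symm, PP5L.dot_comm] at h3
      simpa [PP5L.dot, Pi.single_apply] using h3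
    exact hn l hl0 h2
  have hr4 : finrank ℤ (LinearMap.range f) = 4 := by
    apply le_antisymm
    · have := Submodule.finrank_le (LinearMap.range f)
      simpa using this
    · let b := Module.finBasis ℤ (LinearMap.range f)
      let T : (Fin 4 → ℤ) →ₗ[ℤ] (Fin (finrank ℤ (LinearMap.range f)) → ℤ) :=
        { toFun := fun l j => ∑ i, l i * (b j : Fin 4 → ℤ) i
          map_add' := fun l m => by
            funext j
            simp only [Pi.add_apply, add_mul, Finset.sum_add_distrib]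
          map_smul' := fun c l => by
            funext j
            simp only [Pi.smul_apply, smul_eq_mul, Finset.mul_sum, mul_assoc, RingHom.id_apply] }
      have hinj : Function.Injective T := by
        rw [← LinearMap.ker_eq_bot, LinearMap.ker_eq_bot']
        intro l hl
        apply hno
        intro r hr
        have h8 := b.sum_repr ⟨r, hr⟩
        have h9 : r = ∑ j, (b.repr ⟨r, hr⟩ j) • (b j : Fin 4 → ℤ) := by
          have := congrArg (LinearMap.range f).subtype h8
          rw [map_sum] at this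
          exact this.symm
        rw [h9]
        simp only [Finset.sum_apply, Pi.smul_apply, smul_eq_mul, Finset.mul_sum]
        rw [Finset.sum_comm]
        refine Finset.sum_eq_zero (fun j _ => ?_)
        have h10 : ∑ i, l i * (b j : Fin 4 → ℤ) i = 0 := congrFun hl j
        calc ∑ i, l i * ((b.repr ⟨r, hr⟩ j) * (b j : Fin 4 → ℤ) i)
            = (b.repr ⟨r, hr⟩ j) * ∑ i, l i * (b j : Fin 4 → ℤ) i := by
              rw [Finset.mul_sum]; exact Finset.sum_congr rfl (fun i _ => by ring)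
          _ = 0 := by rw [h10, mul_zero]
      have := LinearMap.finrank_le_finrank_of_injective hinj
      simpa using this
  have hker : finrank ℤ (LinearMap.ker f) = 4 := by omega
  have hmap : (LinearMap.ker f).map (PP5L.Kx x).subtype = PP5L.Lx x := by
    ext s
    constructor
    · rintro ⟨t, ht, rfl⟩
      have ht' := LinearMap.mem_ker.1 ht
      exact PP5L.mem_Lx.2 ⟨PP5L.mem_Kx.1 t.2, fun i => congrFun ht' i⟩
    · intro hs
      refine ⟨⟨s, PP5L.Lx_le_Kx x hs⟩, ?_, rfl⟩
      have := (PP5L.mem_Lx.1 hs).2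
      exact LinearMap.mem_ker.2 (funext this)
  rw [← hmap, Submodule.finrank_map_subtype_eq, hker]

theorem spc {P : Sp} (hD : ¬ IsSquare (Df P)) {x : Fin 10 → ℤ} (hE : InE P x)
    (hF : PP5L.FF x = 0) (hp : ∀ p : ℕ, p.Prime → ∃ j, ¬ (p : ℤ) ∣ x j) (hr : ¬ Reg x) :
    ∃ l : Fin 4 → ℤ, (∀ j, x j = ql l j) ∨ (∀ j, x j = -(ql l j)) := by
  apply spb hp
  have hFF : FF x = 0 := by rw [← FF_eq]; exact hF
  by_cases h4 : Module.finrank ℤ (PP5L.Lx x) = 4
  · have h3 : (PP5L.SS x).adjugate = 0 := by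
      by_contra h
      exact hr ⟨h4, h⟩
    obtain ⟨p, q, r, s, l, m, n, hpar⟩ := spx hF h3
    exact spb_of_par hpar (spa hD hE hpar)
  · have hn : ¬ ∀ l : Fin 4 → ℤ, l ≠ 0 → PP5L.HP x (rl l) ≠ 0 := fun h => h4 (rank4' hFF hp h)
    push Not at hn
    obtain ⟨l, hl0, hl⟩ := hn
    have h5 : ∃ k, l k ≠ 0 := by
      by_contra hc
      push Not at hc
      exact hl0 (funext hc)
    obtain ⟨k, hk⟩ := h5
    exact spb_of_prop (mul_ne_zero two_ne_zero (mul_ne_zero hk hk)) (fun i => ql_prop hl k i)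

end Pool.Agent.PP5LE
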