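import Pool.Agent.PP5LE.Defs
import Pool.Agent.PP5G.Rk3

/-!
# LB5, section E, module Spx (size 2): the vectors with `rank S(x) ≤ 2`

PROOF.  This is exactly the first half of the proof of `PP5G.rk3` (file PP5G/Rk3.lean): copy it from `have mn := Rk3_minors h` up to the
definition of `l, m, n` and the formulas `l0 l2 n1 n3 x4 x5 q6 q7 q8 q9`; there `p = a, q = -b, r = c, s = -d`.
-/

set_option autoImplicit false

namespace Pool.Agent.PP5LE

open Pool.Agent.PP5 Pool.Agent.PP5G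

/-- `x` is given by two vectors `(p, q)`, `(r, s)` and three rational numbers -/
def Par (x : Fin 10 → ℤ) (p q r s : ℤ) (l m n : ℚ) : Prop :=
  (p ≠ 0 ∨ q ≠ 0) ∧ (r ≠ 0 ∨ s ≠ 0) ∧
  (x 0 : ℚ) = l * q ^ 2 ∧ (x 1 : ℚ) = m * s ^ 2 ∧ (x 2 : ℚ) = l * p ^ 2 ∧ (x 3 : ℚ) = m * r ^ 2 ∧
  (x 4 : ℚ) = -(l * p * q) - m * r * s ∧ (x 5 : ℚ) = -(l * p * q) + m * r * s ∧
  (x 6 : ℚ) = n * q * s ∧ (x 7 : ℚ) = -(n * p * s) ∧ (x 8 : ℚ) = -(n * q * r) ∧ (x 9 : ℚ) = n * p * r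

theorem spx {x : Fin 10 → ℤ} (hF : PP5L.FF x = 0) (h : (PP5L.SS x).adjugate = 0) :
    ∃ (p q r s : ℤ) (l m n : ℚ), Par x p q r s l m n := by
  have mn := Rk3_minors h
  have h30 : (3 : Fin 4).succAbove 0 = 0 := rfl
  have h31 : (3 : Fin 4).succAbove 1 = 1 := rfl
  have h32 : (3 : Fin 4).succAbove 2 = 2 := rfl
  have h20 : (2 : Fin 4).succAbove 0 = 0 := rfl
  have h21 : (2 : Fin 4).succAbove 1 = 1 := rfl
  have h22 : (2 : Fin 4).succAbove 2 = 3 := rfl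
  have h10 : (1 : Fin 4).succAbove 0 = 0 := rfl
  have h11 : (1 : Fin 4).succAbove 1 = 2 := rfl
  have h12 : (1 : Fin 4).succAbove 2 = 3 := rfl
  have h00 : (0 : Fin 4).succAbove 0 = 1 := rfl
  have h01 : (0 : Fin 4).succAbove 1 = 2 := rfl
  have h02 : (0 : Fin 4).succAbove 2 = 3 := rfl
  have m33 := mn 3 3
  have m22 := mn 2 2
  have m11 := mn 1 1
  have m00 := mn 0 0
  have m32 := mn 3 2
  have m10 := mn 1 0
  simp only [Matrix.det_fin_three, Matrix.submatrix_apply, h30, h31, h32, h20, h21, h22, h10, h11, h12, h00, h01, h02,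
    PP5L.SS, Matrix.of_apply, Matrix.cons_val', Matrix.cons_val_zero, Matrix.cons_val_one, Matrix.cons_val]
    at m33 m22 m11 m00 m32 m10
  have hF' : x 0 * x 2 - x 1 * x 3 - x 4 * x 5 - x 6 * x 9 + x 7 * x 8 = 0 := hF
  obtain ⟨d1, d2, hb⟩ := Rk3_sym (s00 := 2 * x 0) (s01 := -(x 4 + x 5)) (s02 := x 6) (s03 := -(x 8))
    (s11 := 2 * x 2) (s12 := -(x 7)) (s13 := x 9) (s22 := -(2 * x 1)) (s23 := x 4 - x 5) (s33 := -(2 * x 3))
    (by linear_combination m33) (by linear_combination m22) (by linear_combination m11)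
    (by linear_combination m00) (by linear_combination m32) (by linear_combination m10)
    (by linear_combination 4 * hF')
  obtain ⟨a, b, hab, a0, a1, a2, a3⟩ := Rk3_rows (s00 := 2 * x 0) (s01 := -(x 4 + x 5)) (s02 := x 6) (s03 := -(x 8))
    (s11 := 2 * x 2) (s12 := -(x 7)) (s13 := x 9) (s22 := -(2 * x 1)) (s33 := -(2 * x 3)) d1 hb
    (by linear_combination m33) (by linear_combination m22)
  obtain ⟨c, d, hcd, c0, c1, c2, c3⟩ := Rk3_rows (s00 := -(2 * x 1)) (s01 := x 4 - x 5) (s02 := x 6) (s03 := -(x 7))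
    (s11 := -(2 * x 3)) (s12 := -(x 8)) (s13 := x 9) (s22 := 2 * x 0) (s33 := 2 * x 2) d2
    (by linear_combination hb)
    (by linear_combination m11) (by linear_combination m00)
  have hpq : (a : ℚ) ≠ 0 ∨ ((-b : ℤ) : ℚ) ≠ 0 := by
    rcases hab with h | h
    · exact Or.inl (by exact_mod_cast h)
    · exact Or.inr (by exact_mod_cast neg_ne_zero.2 h)
  have hrs : (c : ℚ) ≠ 0 ∨ ((-d : ℤ) : ℚ) ≠ 0 := by
    rcases hcd with h | h
    · exact Or.inl (by exact_mod_cast h)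
    · exact Or.inr (by exact_mod_cast neg_ne_zero.2 h)
  obtain ⟨l, l0, la, l2⟩ := Rk3_lam (x := (x 0 : ℚ)) (a := ((x 4 + x 5 : ℤ) : ℚ)) (z := (x 2 : ℚ)) hpq
    (by have : ((a * (2 * x 0) + b * -(x 4 + x 5) : ℤ) : ℚ) = 0 := by rw [a0]; rfl
        push_cast at this ⊢; linarith)
    (by have : ((a * -(x 4 + x 5) + b * (2 * x 2) : ℤ) : ℚ) = 0 := by rw [a1]; rfl
        push_cast at this ⊢; linarith)
  obtain ⟨m, n1, nb, n3⟩ := Rk3_lam (x := (x 1 : ℚ)) (a := ((x 4 - x 5 : ℤ) : ℚ)) (z := (x 3 : ℚ)) hrs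
    (by have : ((c * -(2 * x 1) + d * (x 4 - x 5) : ℤ) : ℚ) = 0 := by rw [c0]; rfl
        push_cast at this ⊢; linarith)
    (by have : ((c * (x 4 - x 5) + d * -(2 * x 3) : ℤ) : ℚ) = 0 := by rw [c1]; rfl
        push_cast at this ⊢; linarith)
  obtain ⟨n, q6, q7, q8, q9⟩ := Rk3_nu (a := (x 6 : ℚ)) (b := (x 7 : ℚ)) (c := (x 8 : ℚ)) (d := (x 9 : ℚ)) hpq hrs
    (by have : ((a * x 6 + b * -(x 7) : ℤ) : ℚ) = 0 := by rw [a2]; rfl
        push_cast at this ⊢; linarith)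
    (by have : ((a * -(x 8) + b * x 9 : ℤ) : ℚ) = 0 := by rw [a3]; rfl
        push_cast at this ⊢; linarith)
    (by have : ((c * x 6 + d * -(x 8) : ℤ) : ℚ) = 0 := by rw [c2]; rfl
        push_cast at this ⊢; linarith)
    (by have : ((c * -(x 7) + d * x 9 : ℤ) : ℚ) = 0 := by rw [c3]; rfl
        push_cast at this ⊢; linarith)
  have x4 : (x 4 : ℚ) = -(l * a * ((-b : ℤ) : ℚ)) - m * c * ((-d : ℤ) : ℚ) := by
    push_cast at la nb ⊢; linarith
  have x5 : (x 5 : ℚ) = -(l * a * ((-b : ℤ) : ℚ)) + m * c * ((-d : ℤ) : ℚ) := by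
    push_cast at la nb ⊢; linarith
  refine ⟨a, -b, c, -d, l, m, n, ?_, ?_, l0, n1, l2, n3, x4, x5, q6, q7, q8, q9⟩
  · rcases hab with h | h
    · exact Or.inl h
    · exact Or.inr (neg_ne_zero.2 h)
  · rcases hcd with h | h
    · exact Or.inl h
    · exact Or.inr (neg_ne_zero.2 h)

end Pool.Agent.PP5LE
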