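import Pool.Agent.PP5LE.Dpq
import Pool.Agent.PP5LE.Shq
import Pool.Agent.PP5S.Xdx
import Pool.Agent.PP5S.Yoe
import Pool.Agent.PP5S.Adc
import Pool.Agent.PP5S.Cne
import Pool.Agent.PP5P.Hh
import Pool.Agent.PP5G.LnF
import Pool.Agent.PP5Q.Hg

/-!
# LB5, section E, module Topq: the points whose shortest vector `x` is regular: all but `C y ^ (4 - η)` lie in
shells of at most `C y ^ 2 R ^ 5` points
-/

set_option autoImplicit false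

namespace Pool.Agent.PP5LE

open Matrix Finset Pool.Agent.PP5B Pool.Agent.PP5S

/-- `T` is the scaled norm of `x` -/
theorem XD_T_eq {C t1 t2 T : ℝ} {x : Fin 10 → ℤ} {b : Fin 4 → PP5.Sp}
    {G : Matrix (Fin 4) (Fin 4) ℤ} {l : Fin 4 → ℝ} {k : ℕ} (h : XD C t1 t2 T x b G l k)
    (h1 : 0 < t1) (h2 : 0 < t2) : T = PP5.nw (PP5.tx t1 t2) x := by
  have hw : ∀ j, 0 < PP5.tx t1 t2 j := fun j => PP5.tx_pos h1 h2 j
  apply le_antisymm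
  · obtain ⟨j, hj⟩ := h.Tge
    exact le_of_mul_le_mul_right (hj.trans (PP5.le_nw hw x j)) (hw j)
  · exact (PP5.nw_le_iff hw h.T0.le).2 h.Tle

theorem topq : ∃ d0 η y0 Cd Ksh : ℝ, 0 < d0 ∧ 0 < η ∧ 1 ≤ y0 ∧ 0 ≤ Cd ∧
    0 ≤ Ksh ∧ ∀ y t1 t2 : ℝ, y0 ≤ y → 1 ≤ t1 → 1 ≤ t2 → t1 * t2 ≤ y ^ d0 →
    ∀ (S : Finset PP5.Sp) (xf : PP5.Sp → Fin 10 → ℤ),
    (∀ P ∈ S, InQ y t1 t2 P ∧ Shx t1 t2 P (xf P) ∧ Reg (xf P)) →
    ∃ Bad : Finset PP5.Sp, Bad ⊆ S ∧ (Bad.card : ℝ) ≤ Cd * y ^ (4 - η) ∧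
      ∀ R : ℝ, 0 < R → ∀ Q : Finset PP5.Sp, Q ⊆ S \ Bad →
      (∀ P ∈ Q, PP5.nw (PP5.tx t1 t2) (xf P) ≤ R ∧ R ≤ 2 * PP5.nw (PP5.tx t1 t2) (xf P)) →
      (Q.card : ℝ) ≤ Ksh * (y ^ 2 * R ^ 5) := by
  classical
  obtain ⟨Cx, hCx, hXD⟩ := XDx_exists
  obtain ⟨C1, hC1, hDP⟩ := dpq Cx hCx
  obtain ⟨K1, hK1, hcon⟩ := conB hCx
  obtain ⟨K2, hK2, hcone, hbox⟩ := coneB
  obtain ⟨CA, hCA, hAC⟩ := ACB_exists (C0 := 13000) (by norm_num)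
  obtain ⟨δ1, c3, Cc, T0, hδ1, hc3, hCc, hT0, hCC⟩ :=
    CC_exists (δ := 1 / 50) (A := 2) (by norm_num) (by norm_num)
  set c : ℝ := min (1 / 50) (min (δ1 / 2) c3) with hc
  have hc0 : 0 < c := lt_min (by norm_num) (lt_min (by linarith) hc3)
  have hca : c ≤ 1 / 50 := min_le_left _ _
  have hcb : c ≤ δ1 / 2 := (min_le_right _ _).trans (min_le_left _ _)
  have hcc : c ≤ c3 := (min_le_right _ _).trans (min_le_right _ _)
  obtain ⟨d0', η, y1, Cd, hd0', hη, hy1, hCd, hDP'⟩ := hDP c hc0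
  set d0 : ℝ := min d0' (δ1 / 2) with hd0
  have hd00 : 0 < d0 := lt_min hd0' (by linarith)
  have hd0a : d0 ≤ d0' := min_le_left _ _
  have hd0b : d0 ≤ δ1 / 2 := min_le_right _ _
  obtain ⟨y2, hy2, hYo⟩ := Yo_exists (C := Cx) (C1 := C1) (δ := 1 / 50) (δ1 := δ1) (c3 := c3)
    (c := c) (d0 := d0) hCx hC1 (by norm_num) hc0 (by linarith) (by linarith) hcc (by linarith)
  set y0 : ℝ := max (max y1 y2) T0 with hy0
  set Ksh : ℝ := 42 * K1 * K2 * Fc Cx C1 * (26 * CA * Cc) * (16 * Cx) ^ 2 with hKsh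
  have hF : 0 ≤ Fc Cx C1 := by
    have : 0 < Cx := by linarith
    have : 0 < C1 := by linarith
    unfold Fc; positivity
  have hKsh0 : 0 ≤ Ksh := by
    have : 0 < Cx := by linarith
    positivity
  refine ⟨d0, η, y0, Cd, Ksh, hd00, hη, hy1.trans ((le_max_left _ _).trans (le_max_left _ _)),
    hCd, hKsh0, ?_⟩
  intro y t1 t2 hyy h1 h2 htt S xf hS
  have hya : y1 ≤ y := ((le_max_left _ _).trans (le_max_left _ _)).trans hyy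
  have hyb : y2 ≤ y := ((le_max_right _ _).trans (le_max_left _ _)).trans hyy
  have hyc : T0 ≤ y := (le_max_right _ _).trans hyy
  have hy1' : 1 ≤ y := hy1.trans hya
  have h10 : 0 < t1 := by linarith
  have h20 : 0 < t2 := by linarith
  have hex : ∀ x : Fin 10 → ℤ, ∃ (T : ℝ) (b : Fin 4 → PP5.Sp) (G : Matrix (Fin 4) (Fin 4) ℤ)
      (l : Fin 4 → ℝ) (k : ℕ), Xok x → XD Cx t1 t2 T x b G l k := by
    intro x
    by_cases hx : Xok x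
    · obtain ⟨T, b, G, l, k, h⟩ := hXD t1 t2 h1 h2 x hx
      exact ⟨T, b, G, l, k, fun _ => h⟩
    · exact ⟨0, fun _ => 0, 0, 0, 0, fun h => absurd h hx⟩
  choose Tf bf Gf lf kf hf using hex
  obtain ⟨Bad, hsub, hcard, hgood⟩ := hDP' y t1 t2 hya h1 h2
    (htt.trans (Real.rpow_le_rpow_of_exponent_le hy1' hd0a)) Tf bf Gf lf kf hf S xf hS
  have hex2 : ∀ P : PP5.Sp, ∃ (m n : Fin 4 → ℤ), P ∈ S \ Bad →
      GP y c C1 (Tf (xf P)) (xf P) (bf (xf P)) (Gf (xf P)) (lf (xf P)) (kf (xf P)) P m n := by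
    intro P
    by_cases hP : P ∈ S \ Bad
    · rw [Finset.mem_sdiff] at hP
      obtain ⟨m, n, h⟩ := hgood P hP.1 hP.2
      exact ⟨m, n, fun _ => h⟩
    · exact ⟨0, 0, fun h => absurd h hP⟩
  choose mf nf hxf using hex2
  obtain ⟨Θ, hΘ⟩ := hCC y hyc
  obtain ⟨h, J0, J, κ, K, hY⟩ := hYo y hyb
  refine ⟨Bad, hsub, hcard, ?_⟩
  intro R hR Q hQ hQR
  refine (shell_finq hCx hC1 hK1.le hK2.le hcon hcone hbox hAC (le_refl _) hCA hCc.le hΘ hY h1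
    h2 htt hR Tf bf Gf lf kf Q xf mf nf (fun P hP => hf (xf P) (hxf P (hQ hP)).ok)
    (fun P hP => ⟨(hS P (Finset.mem_sdiff.1 (hQ hP)).1).1, hxf P (hQ hP)⟩) ?_).trans
    (le_of_eq rfl)
  intro P hP
  have hT := XD_T_eq (hf (xf P) (hxf P (hQ hP)).ok) h10 h20
  rw [hT]
  exact hQR P hP

end Pool.Agent.PP5LE
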